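import Pool.Agent.MOM.An.Op

/-!
MOM (MP_2b7f8f_an), section 2 (A): replacing `φ(log n)` by a Gaussian average.

PROOF of `disc`. Let `r = e^b ∈ [1/e, e] ⊂ [1/3, 3]` and `G(y) = gX F lam X (y+b)`, so
`G(log x) = F(rx)` if `X < rx ≤ lam X` and `0` otherwise. The difference is
`∑_n (μ(n)/n) ∫ (G(log n) - G(log n - z)) η_s(z) dz`, `s = ρ/X` (substitute `y = log n + z`, `eta`
is even). Choose `A` with `∫_{|z| > As} η_s ≤ 1/A² ≤ ε/16` (Chebyshev's inequality; the variance of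
`η_s` is `s²`), let `d` be the distance of `Sampled.cont` for `ε/16`, and `ρ0 = min(1, d/(8A))`. For
`X < n ≤ lam X`, `|z| ≤ As`: `x = n e^{-z}` has `|x - n| ≤ n·2|z| ≤ 2·lam·X·Aρ/X ≤ d`. If `n` is not bad
(no `x` with `|x-n| ≤ d`, `‖F(rx)-F(rn)‖ > ε/16`) and the conditions `X < rx ≤ lam X` have the same
truth value for all `|x-n| ≤ d` (true except for at most `2(2d+2)` integers `n`, those with
`|n - X/r| ≤ d+1` or `|n - lam X/r| ≤ d+1`), then `‖G(log n) - G(log n - z)‖ ≤ ε/16`. So the sum is at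
most `∑ (1/n)(ε/16 + 2ε/16) + (2/X)(#bad + 4d + 4)` with `∑ 1/n ≤ 1` (X large, `lam ≤ 2`) and
`#bad ≤ (ε/16)(lam X + 1)` for `X ≥ X0(r)`; total `≤ 3ε/16 + ε/4 + ε/8 + small ≤ ε`.
-/

set_option autoImplicit false

namespace Pool.Agent.MOM

open Finset MeasureTheory

/-! ### Gaussian integrals -/

private theorem disc_wide {s : ℝ} (hs : 0 < s) (c : ℝ) (hc : 0 < c) :
    Integrable (fun z : ℝ => (s * Real.sqrt (2 * Real.pi))⁻¹ * Real.exp (-(z ^ 2) / (c * s ^ 2))) ∧
    ∫ z : ℝ, (s * Real.sqrt (2 * Real.pi))⁻¹ * Real.exp (-(z ^ 2) / (c * s ^ 2)) =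
      Real.sqrt (c / 2) := by
  have h1 : (fun z : ℝ => (s * Real.sqrt (2 * Real.pi))⁻¹ * Real.exp (-(z ^ 2) / (c * s ^ 2))) =
      fun z : ℝ => (s * Real.sqrt (2 * Real.pi))⁻¹ * Real.exp (-(1 / (c * s ^ 2)) * z ^ 2) := by
    funext z
    congr 2
    ring
  have hb : 0 < 1 / (c * s ^ 2) := by positivity
  rw [h1]
  refine ⟨(integrable_exp_neg_mul_sq hb).const_mul _, ?_⟩
  rw [integral_const_mul, integral_gaussian]
  have h2 : Real.pi / (1 / (c * s ^ 2)) = (c / 2) * (s ^ 2 * (2 * Real.pi)) := by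
    field_simp
  have hpi : 0 < Real.sqrt (2 * Real.pi) := Real.sqrt_pos.2 (by positivity)
  have h3 : Real.sqrt (c / 2 * (s ^ 2 * (2 * Real.pi))) =
      Real.sqrt (c / 2) * (s * Real.sqrt (2 * Real.pi)) := by
    rw [Real.sqrt_mul (by positivity : 0 ≤ c / 2), Real.sqrt_mul (sq_nonneg s),
      Real.sqrt_sq hs.le]
  rw [h2, h3]
  have h4 : s * Real.sqrt (2 * Real.pi) ≠ 0 := (mul_pos hs hpi).ne'
  generalize s * Real.sqrt (2 * Real.pi) = w at h4 ⊢
  field_simp

private theorem disc_eta_int {s : ℝ} (hs : 0 < s) : Integrable (eta s) :=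
  (disc_wide hs 2 (by norm_num)).1

private theorem disc_eta_one {s : ℝ} (hs : 0 < s) : ∫ z, eta s z = 1 := by
  have h := (disc_wide hs 2 (by norm_num)).2
  have h1 : Real.sqrt (2 / 2) = 1 := by norm_num
  rw [h1] at h
  exact h

private theorem disc_eta_intC {s : ℝ} (hs : 0 < s) : Integrable (fun z => (eta s z : ℂ)) :=
  (disc_eta_int hs).ofReal

private theorem disc_mul_int {g : ℝ → ℂ} (hg : Measurable g) {B : ℝ} (hb : ∀ y, ‖g y‖ ≤ B)
    {f : ℝ → ℂ} (hf : Integrable f) : Integrable (fun y => g y * f y) :=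
  hf.bdd_mul hg.aestronglyMeasurable (Filter.Eventually.of_forall hb)

private theorem disc_shift (g : ℝ → ℂ) (s l : ℝ) :
    ∫ y, g y * (eta s (y - l) : ℂ) = ∫ z, g (l + z) * (eta s z : ℂ) := by
  rw [← integral_add_right_eq_self (fun y => g y * (eta s (y - l) : ℂ)) l]
  refine integral_congr_ae (Filter.Eventually.of_forall fun z => ?_)
  simp only [add_comm z l, add_sub_cancel_left]

private theorem disc_split {g : ℝ → ℂ} (hg : Measurable g) (hb : ∀ y, ‖g y‖ ≤ 1) {s : ℝ}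
    (hs : 0 < s) (l : ℝ) :
    g l - ∫ y, g y * (eta s (y - l) : ℂ) = ∫ z, (g l - g (l + z)) * (eta s z : ℂ) := by
  have h1 : ∫ z, g l * (eta s z : ℂ) = g l := by
    rw [integral_const_mul, integral_complex_ofReal, disc_eta_one hs]
    simp
  have h2 : Integrable (fun z => g (l + z) * (eta s z : ℂ)) :=
    disc_mul_int (hg.comp (measurable_const_add l)) (fun y => hb _) (disc_eta_intC hs)
  rw [disc_shift]
  conv_lhs => rw [← h1]
  rw [← integral_sub ((disc_eta_intC hs).const_mul _) h2]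
  refine integral_congr_ae (Filter.Eventually.of_forall fun z => ?_)
  simp only
  ring

private theorem disc_triv {g : ℝ → ℂ} (hg : Measurable g) (hb : ∀ y, ‖g y‖ ≤ 1) {s : ℝ}
    (hs : 0 < s) (l : ℝ) : ‖g l - ∫ y, g y * (eta s (y - l) : ℂ)‖ ≤ 2 := by
  rw [disc_split hg hb hs]
  have h1 : ∫ z, 2 * eta s z = 2 := by
    rw [integral_const_mul, disc_eta_one hs, mul_one]
  rw [← h1]
  refine norm_integral_le_of_norm_le ((disc_eta_int hs).const_mul 2)
    (Filter.Eventually.of_forall fun z => ?_)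
  rw [norm_mul, Complex.norm_real, Real.norm_eq_abs, abs_of_nonneg (eta_nonneg hs.le z)]
  refine mul_le_mul_of_nonneg_right ?_ (eta_nonneg hs.le z)
  refine (norm_sub_le _ _).trans ?_
  have h2 := hb l
  have h3 := hb (l + z)
  linarith

private theorem disc_near {g : ℝ → ℂ} (hg : Measurable g) (hb : ∀ y, ‖g y‖ ≤ 1) {s A ε : ℝ}
    (hs : 0 < s) (hA : 0 ≤ A) (hε : 0 ≤ ε) (l : ℝ)
    (hc : ∀ z, |z| ≤ A * s → ‖g l - g (l + z)‖ ≤ ε) :
    ‖g l - ∫ y, g y * (eta s (y - l) : ℂ)‖ ≤ ε + 4 * Real.exp (-(A ^ 2 / 4)) := by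
  rw [disc_split hg hb hs]
  obtain ⟨hw1, hw2⟩ := disc_wide hs 4 (by norm_num)
  set κ : ℝ → ℝ := fun z => (s * Real.sqrt (2 * Real.pi))⁻¹ * Real.exp (-(z ^ 2) / (4 * s ^ 2))
    with hκ
  have hκ0 : ∀ z, 0 ≤ κ z := fun z => by
    rw [hκ]
    positivity
  have h1 : ∫ z, (ε * eta s z + 2 * Real.exp (-(A ^ 2 / 4)) * κ z) =
      ε + 2 * Real.exp (-(A ^ 2 / 4)) * Real.sqrt (4 / 2) := by
    rw [integral_add ((disc_eta_int hs).const_mul _) (hw1.const_mul _), integral_const_mul,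
      integral_const_mul, disc_eta_one hs, mul_one, hw2]
  have h2 : ‖∫ z, (g l - g (l + z)) * (eta s z : ℂ)‖ ≤
      ∫ z, (ε * eta s z + 2 * Real.exp (-(A ^ 2 / 4)) * κ z) := by
    refine norm_integral_le_of_norm_le
      (((disc_eta_int hs).const_mul _).add (hw1.const_mul _))
      (Filter.Eventually.of_forall fun z => ?_)
    rw [norm_mul, Complex.norm_real, Real.norm_eq_abs, abs_of_nonneg (eta_nonneg hs.le z)]
    by_cases hz : |z| ≤ A * s
    · have h3 := mul_le_mul_of_nonneg_right (hc z hz) (eta_nonneg hs.le z)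
      have h4 : 0 ≤ 2 * Real.exp (-(A ^ 2 / 4)) * κ z :=
        mul_nonneg (by positivity) (hκ0 z)
      linarith
    · have h3 : ‖g l - g (l + z)‖ ≤ 2 := by
        refine (norm_sub_le _ _).trans ?_
        have h2 := hb l
        have h3 := hb (l + z)
        linarith
      have h4 : eta s z ≤ Real.exp (-(A ^ 2 / 4)) * κ z := by
        have h5 : A ^ 2 * s ^ 2 ≤ z ^ 2 := by
          rw [← mul_pow, ← sq_abs z]
          exact pow_le_pow_left₀ (by positivity) (not_le.1 hz).le 2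
        have h6 : eta s z = (s * Real.sqrt (2 * Real.pi))⁻¹ *
            (Real.exp (-(z ^ 2) / (4 * s ^ 2)) * Real.exp (-(z ^ 2) / (4 * s ^ 2))) := by
          rw [eta, ← Real.exp_add]
          congr 2
          field_simp
          ring
        have h7 : Real.exp (-(z ^ 2) / (4 * s ^ 2)) ≤ Real.exp (-(A ^ 2 / 4)) := by
          refine Real.exp_le_exp.2 ?_
          rw [div_le_iff₀ (by positivity)]
          nlinarith
        have h8 : 0 ≤ (s * Real.sqrt (2 * Real.pi))⁻¹ := by positivity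
        rw [h6, hκ]
        have h9 := mul_le_mul_of_nonneg_left h7 (hκ0 z)
        have h10 : (s * Real.sqrt (2 * Real.pi))⁻¹ *
            (Real.exp (-(z ^ 2) / (4 * s ^ 2)) * Real.exp (-(z ^ 2) / (4 * s ^ 2))) =
            κ z * Real.exp (-(z ^ 2) / (4 * s ^ 2)) := by
          rw [hκ]
          ring
        rw [h10]
        calc κ z * Real.exp (-(z ^ 2) / (4 * s ^ 2)) ≤ κ z * Real.exp (-(A ^ 2 / 4)) := h9
          _ = _ := by rw [hκ]; ring
      have h5 : 0 ≤ ε * eta s z := mul_nonneg hε (eta_nonneg hs.le z)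
      calc ‖g l - g (l + z)‖ * eta s z ≤ 2 * eta s z :=
            mul_le_mul_of_nonneg_right h3 (eta_nonneg hs.le z)
        _ ≤ 2 * (Real.exp (-(A ^ 2 / 4)) * κ z) := by linarith
        _ ≤ _ := by linarith
  rw [h1] at h2
  refine h2.trans ?_
  have h3 : Real.sqrt (4 / 2) ≤ 2 := by
    rw [Real.sqrt_le_left (by norm_num)]
    norm_num
  have h4 : 0 ≤ 2 * Real.exp (-(A ^ 2 / 4)) := by positivity
  have h5 := mul_le_mul_of_nonneg_left h3 h4
  linarith

/-! ### The window function -/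

private theorem disc_gX_meas {F : ℝ → ℂ} (hF : Measurable F) (lam X : ℝ) :
    Measurable (gX F lam X) := by
  unfold gX
  refine Measurable.ite ?_ (hF.comp Real.measurable_exp) measurable_const
  exact (measurableSet_lt measurable_const Real.measurable_exp).inter
    (measurableSet_le Real.measurable_exp measurable_const)

private theorem disc_gX_bdd {F : ℝ → ℂ} (hF : ∀ x, ‖F x‖ ≤ 1) (lam X y : ℝ) :
    ‖gX F lam X y‖ ≤ 1 := by
  unfold gX
  split_ifs
  · exact hF _
  · simp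

private theorem disc_mm_int (lam X : ℝ) {s : ℝ} (hs : 0 < s) :
    Integrable (fun y => mm lam X s y) := by
  unfold mm
  refine integrable_finsetSum _ fun n _ => ?_
  exact ((disc_eta_intC hs).comp_sub_right (Real.log n)).const_mul _

private theorem disc_sum_eq {g : ℝ → ℂ} (hg : Measurable g) (hb : ∀ y, ‖g y‖ ≤ 1) (lam X : ℝ)
    {s : ℝ} (hs : 0 < s) :
    ∑ n ∈ win X (lam * X), mu n / (n : ℂ) * g (Real.log n) - ∫ y, g y * mm lam X s y =
      ∑ n ∈ win X (lam * X), mu n / (n : ℂ) *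
        (g (Real.log n) - ∫ y, g y * (eta s (y - Real.log n) : ℂ)) := by
  have h1 : ∫ y, g y * mm lam X s y = ∑ n ∈ win X (lam * X), mu n / (n : ℂ) *
      ∫ y, g y * (eta s (y - Real.log n) : ℂ) := by
    have h2 : ∀ y, g y * mm lam X s y = ∑ n ∈ win X (lam * X), mu n / (n : ℂ) *
        (g y * (eta s (y - Real.log n) : ℂ)) := by
      intro y
      rw [mm, Finset.mul_sum]
      refine Finset.sum_congr rfl fun n _ => ?_
      ring
    simp only [h2]
    rw [integral_finsetSum]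
    · refine Finset.sum_congr rfl fun n _ => ?_
      rw [integral_const_mul]
    · intro n _
      exact (disc_mul_int hg hb ((disc_eta_intC hs).comp_sub_right (Real.log n))).const_mul _
  rw [h1, ← Finset.sum_sub_distrib]
  refine Finset.sum_congr rfl fun n _ => ?_
  ring

open scoped Classical in
private theorem disc_card_near (S : Finset ℕ) {c d : ℝ} (hc : 0 ≤ c) (hd : 0 ≤ d) :
    ((S.filter fun n : ℕ => |(n : ℝ) - c| ≤ d).card : ℝ) ≤ 2 * d + 1 := by
  have h1 : (S.filter fun n : ℕ => |(n : ℝ) - c| ≤ d) ⊆ Finset.Icc ⌈c - d⌉₊ ⌊c + d⌋₊ := by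
    intro n hn
    have h2 := abs_le.1 (Finset.mem_filter.1 hn).2
    rw [Finset.mem_Icc]
    exact ⟨Nat.ceil_le.2 (by linarith), Nat.le_floor (by linarith)⟩
  have h2 := Finset.card_le_card h1
  rw [Nat.card_Icc] at h2
  have h3 : ((⌊c + d⌋₊ : ℕ) : ℝ) ≤ c + d := Nat.floor_le (by linarith)
  have h4 : c - d ≤ ((⌈c - d⌉₊ : ℕ) : ℝ) := Nat.le_ceil _
  rcases le_total ⌈c - d⌉₊ (⌊c + d⌋₊ + 1) with h5 | h5
  · have h6 : ((S.filter fun n : ℕ => |(n : ℝ) - c| ≤ d).card : ℝ) ≤
        ((⌊c + d⌋₊ + 1 - ⌈c - d⌉₊ : ℕ) : ℝ) := by exact_mod_cast h2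
    rw [Nat.cast_sub h5] at h6
    push_cast at h6
    linarith
  · have h6 : (S.filter fun n : ℕ => |(n : ℝ) - c| ≤ d).card = 0 := by omega
    rw [h6]
    push_cast
    linarith

/-- The window condition and the value of `F` at nearby points. -/
private theorem disc_point {F : ℝ → ℂ} {lam X r n x d ε : ℝ} (hr : 0 < r) (hε : 0 ≤ ε)
    (hx : |x - n| ≤ d)
    (h : ε < ‖(if X < r * n ∧ r * n ≤ lam * X then F (r * n) else 0) -
      (if X < r * x ∧ r * x ≤ lam * X then F (r * x) else 0)‖) :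
    ε < ‖F (r * x) - F (r * n)‖ ∨ |n - X / r| ≤ d ∨ |n - lam * X / r| ≤ d := by
  have hx' := abs_le.1 hx
  have key : ∀ c : ℝ, (r * n ≤ c ∧ c ≤ r * x) ∨ (r * x ≤ c ∧ c ≤ r * n) → |n - c / r| ≤ d := by
    intro c hc
    rw [abs_le]
    rcases hc with ⟨h1, h2⟩ | ⟨h1, h2⟩
    · have h3 : n ≤ c / r := by rw [le_div_iff₀ hr]; linarith
      have h4 : c / r ≤ x := by rw [div_le_iff₀ hr]; linarith
      constructor <;> linarith
    · have h3 : x ≤ c / r := by rw [le_div_iff₀ hr]; linarith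
      have h4 : c / r ≤ n := by rw [div_le_iff₀ hr]; linarith
      constructor <;> linarith
  by_cases h1 : X < r * n ∧ r * n ≤ lam * X
  · by_cases h2 : X < r * x ∧ r * x ≤ lam * X
    · left
      rw [if_pos h1, if_pos h2, norm_sub_rev] at h
      exact h
    · right
      rcases not_and_or.1 h2 with h3 | h3
      · exact Or.inl (key X (Or.inr ⟨not_lt.1 h3, h1.1.le⟩))
      · exact Or.inr (key (lam * X) (Or.inl ⟨h1.2, (not_le.1 h3).le⟩))
  · by_cases h2 : X < r * x ∧ r * x ≤ lam * X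
    · right
      rcases not_and_or.1 h1 with h3 | h3
      · exact Or.inl (key X (Or.inl ⟨not_lt.1 h3, h2.1.le⟩))
      · exact Or.inr (key (lam * X) (Or.inr ⟨h2.2, (not_le.1 h3).le⟩))
    · rw [if_neg h1, if_neg h2, sub_zero, norm_zero] at h
      exact absurd h (not_lt.2 hε)

theorem disc {F : ℝ → ℂ} (hF : Sampled F) {lam : ℝ} (hl : 1 < lam) (hl2 : lam ≤ 2) :
    ∀ ε : ℝ, 0 < ε → ∃ ρ0 : ℝ, 0 < ρ0 ∧ ∀ ρ : ℝ, 0 < ρ → ρ ≤ ρ0 → ∀ b : ℝ, |b| ≤ 1 →
      ∃ X0 : ℝ, 0 < X0 ∧ ∀ X : ℝ, X0 ≤ X →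
        ‖∑ n ∈ win X (lam * X), mu n / (n : ℂ) * gX F lam X (Real.log n + b) -
          ∫ y, gX F lam X (y + b) * mm lam X (ρ / X) y‖ ≤ ε := by
  classical
  intro ε hε
  obtain ⟨ε₁, hε₁d⟩ : ∃ ε₁ : ℝ, ε₁ = ε / 16 := ⟨_, rfl⟩
  have hε₁ : 0 < ε₁ := by rw [hε₁d]; positivity
  obtain ⟨d, hd, hcont⟩ := hF.cont ε₁ hε₁
  obtain ⟨A, hAd⟩ : ∃ A : ℝ, A = 1 + 16 / ε₁ := ⟨_, rfl⟩
  have hA1 : 1 ≤ A := by rw [hAd]; have : 0 < 16 / ε₁ := by positivity
                         linarith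
  have hA2 : 4 * Real.exp (-(A ^ 2 / 4)) ≤ ε₁ := by
    have h1 : 16 / ε₁ ≤ A ^ 2 := by
      have h2 : 16 / ε₁ ≤ A := by rw [hAd]; linarith
      nlinarith
    have h3 : A ^ 2 / 4 ≤ Real.exp (A ^ 2 / 4) := by
      have := Real.add_one_le_exp (A ^ 2 / 4)
      linarith
    have h4 : 4 / ε₁ ≤ Real.exp (A ^ 2 / 4) := by
      refine le_trans ?_ h3
      have h5 : 4 / ε₁ = 16 / ε₁ / 4 := by ring
      rw [h5]
      linarith
    rw [Real.exp_neg]
    rw [div_le_iff₀ hε₁] at h4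
    rw [← div_eq_mul_inv, div_le_iff₀ (Real.exp_pos _)]
    linarith
  refine ⟨d / (4 * A), by positivity, ?_⟩
  intro ρ hρ hρd b hb
  have hρA : 4 * A * ρ ≤ d := by
    rw [le_div_iff₀ (by positivity)] at hρd
    linarith
  have hb' := abs_le.1 hb
  have hr : 0 < Real.exp b := Real.exp_pos b
  have he := Real.exp_one_lt_d9
  have hr3 : Real.exp b ≤ 3 := by
    have h1 : Real.exp b ≤ Real.exp 1 := Real.exp_le_exp.2 hb'.2
    linarith
  have hr13 : 1 / 3 ≤ Real.exp b := by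
    have h1 : Real.exp (-1) ≤ Real.exp b := Real.exp_le_exp.2 hb'.1
    have h2 : 1 / 3 ≤ Real.exp (-1) := by
      rw [Real.exp_neg, one_div]
      exact inv_anti₀ (Real.exp_pos 1) (by linarith)
    linarith
  obtain ⟨N0, hN0⟩ := hcont (Real.exp b) hr13 hr3
  have hX00 : 0 ≤ 4 * (2 * d + 1) / ε₁ := by positivity
  refine ⟨1 + A * ρ + N0 + 4 * (2 * d + 1) / ε₁, by positivity, ?_⟩
  intro X hX
  have hAρ : 0 < A * ρ := by positivity
  have hN0' : (0 : ℝ) ≤ N0 := Nat.cast_nonneg _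
  have hX1 : 1 ≤ X := by linarith
  have hX0 : 0 < X := by linarith
  have hXA : A * ρ ≤ X := by linarith
  have hXN : (N0 : ℝ) ≤ X := by linarith
  have hXe : 4 * (2 * d + 1) / ε₁ ≤ X := by linarith
  have hXe' : 4 * (2 * d + 1) ≤ ε₁ * X := by
    rw [div_le_iff₀ hε₁] at hXe
    linarith
  have hs : 0 < ρ / X := by positivity
  obtain ⟨g, hg⟩ : ∃ g : ℝ → ℂ, g = fun y => gX F lam X (y + b) := ⟨_, rfl⟩
  have hgm : Measurable g := by
    rw [hg]
    exact (disc_gX_meas hF.meas lam X).comp (measurable_add_const b)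
  have hgb : ∀ y, ‖g y‖ ≤ 1 := by
    intro y
    rw [hg]
    exact disc_gX_bdd hF.bdd lam X _
  have hsum := disc_sum_eq hgm hgb lam X hs
  have hgoal : ∑ n ∈ win X (lam * X), mu n / (n : ℂ) * gX F lam X (Real.log n + b) -
      ∫ y, gX F lam X (y + b) * mm lam X (ρ / X) y =
      ∑ n ∈ win X (lam * X), mu n / (n : ℂ) * g (Real.log n) -
        ∫ y, g y * mm lam X (ρ / X) y := by
    rw [hg]
  rw [hgoal, hsum]
  -- the bad integers
  obtain ⟨P, hP⟩ : ∃ P : ℕ → Prop, ∀ n, P n ↔ ∃ z : ℝ, |z| ≤ A * (ρ / X) ∧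
      ε₁ < ‖g (Real.log n) - g (Real.log n + z)‖ := ⟨_, fun _ => Iff.rfl⟩
  have hwin : ∀ n ∈ win X (lam * X), X < n ∧ (n : ℝ) ≤ lam * X := fun n hn =>
    (mem_win hX0.le).1 hn
  have hterm : ∀ n ∈ win X (lam * X), ‖mu n / (n : ℂ) *
      (g (Real.log n) - ∫ y, g y * (eta (ρ / X) (y - Real.log n) : ℂ))‖ ≤
      1 / X * (2 * ε₁ + if P n then 2 else 0) := by
    intro n hn
    obtain ⟨h1, h2⟩ := hwin n hn
    have hn0 : (0 : ℝ) < n := by linarith
    rw [norm_mul, norm_div, Complex.norm_natCast]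
    have h3 : ‖mu n‖ / n ≤ 1 / X := by
      refine div_le_div₀ zero_le_one (norm_mu_le n) hX0 h1.le
    refine mul_le_mul h3 ?_ (norm_nonneg _) (by positivity)
    by_cases hp : P n
    · rw [if_pos hp]
      have := disc_triv hgm hgb hs (Real.log n)
      linarith
    · rw [if_neg hp]
      have hc : ∀ z, |z| ≤ A * (ρ / X) → ‖g (Real.log n) - g (Real.log n + z)‖ ≤ ε₁ := by
        intro z hz
        by_contra hcon
        exact hp ((hP n).2 ⟨z, hz, not_le.1 hcon⟩)
      have := disc_near hgm hgb hs (by linarith : (0 : ℝ) ≤ A) hε₁.le (Real.log n) hc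
      linarith
  refine (norm_sum_le _ _).trans ((Finset.sum_le_sum hterm).trans ?_)
  rw [← Finset.mul_sum, Finset.sum_add_distrib, Finset.sum_const, nsmul_eq_mul,
    ← Finset.sum_filter, Finset.sum_const, nsmul_eq_mul]
  -- the number of terms
  have hfl1 : ((⌊lam * X⌋₊ : ℕ) : ℝ) ≤ lam * X := Nat.floor_le (by positivity)
  have hlX : lam * X ≤ 2 * X := by nlinarith
  have hlX1 : X ≤ lam * X := by nlinarith
  have hW : ((win X (lam * X)).card : ℝ) ≤ 2 * X := by
    rw [win, Nat.card_Ioc, Nat.cast_sub (Nat.floor_le_floor hlX1)]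
    have h1 : X < ((⌊X⌋₊ : ℕ) : ℝ) + 1 := Nat.lt_floor_add_one X
    linarith
  -- the number of bad integers
  have hbad : (((win X (lam * X)).filter P).card : ℝ) ≤ 3 * ε₁ * X + 2 * (2 * d + 1) := by
    have hN : N0 ≤ ⌊lam * X⌋₊ + 1 := by
      have h1 : lam * X < ((⌊lam * X⌋₊ : ℕ) : ℝ) + 1 := Nat.lt_floor_add_one _
      have h2 : (N0 : ℝ) ≤ ((⌊lam * X⌋₊ + 1 : ℕ) : ℝ) := by
        push_cast
        linarith
      exact_mod_cast h2
    have h1 := hN0 _ hN
    have h2 := disc_card_near (win X (lam * X)) (c := X / Real.exp b) (by positivity) hd.le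
    have h3 := disc_card_near (win X (lam * X)) (c := lam * X / Real.exp b) (by positivity) hd.le
    have hsub : (win X (lam * X)).filter P ⊆
        ((range (⌊lam * X⌋₊ + 1)).filter fun n : ℕ => ∃ x : ℝ, |x - n| ≤ d ∧
          ε₁ < ‖F (Real.exp b * x) - F (Real.exp b * n)‖) ∪
        (((win X (lam * X)).filter fun n : ℕ => |(n : ℝ) - X / Real.exp b| ≤ d) ∪
        ((win X (lam * X)).filter fun n : ℕ => |(n : ℝ) - lam * X / Real.exp b| ≤ d)) := by
      intro n hn
      obtain ⟨hnw, hnP⟩ := Finset.mem_filter.1 hn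
      obtain ⟨h4, h5⟩ := hwin n hnw
      have hn0 : (0 : ℝ) < n := by linarith
      obtain ⟨z, hz, hzn⟩ := (hP n).1 hnP
      have hz1 : A * (ρ / X) ≤ 1 := by
        rw [← mul_div_assoc, div_le_one hX0]
        exact hXA
      have hx : |(n : ℝ) * Real.exp z - n| ≤ d := by
        have h6 : (n : ℝ) * Real.exp z - n = n * (Real.exp z - 1) := by ring
        rw [h6, abs_mul, abs_of_pos hn0]
        have h7 := Real.abs_exp_sub_one_le (hz.trans hz1)
        calc (n : ℝ) * |Real.exp z - 1| ≤ (2 * X) * (2 * (A * (ρ / X))) := by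
              refine mul_le_mul (by linarith) (h7.trans (by linarith)) (abs_nonneg _)
                (by positivity)
          _ = 4 * A * ρ := by field_simp; ring
          _ ≤ d := hρA
      have e1 : Real.exp (Real.log n + b) = Real.exp b * n := by
        rw [Real.exp_add, Real.exp_log hn0, mul_comm]
      have e2 : Real.exp (Real.log n + z + b) = Real.exp b * (n * Real.exp z) := by
        rw [Real.exp_add, Real.exp_add, Real.exp_log hn0, mul_comm]
      have h8 : ε₁ < ‖(if X < Real.exp b * n ∧ Real.exp b * n ≤ lam * X then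
          F (Real.exp b * n) else 0) - (if X < Real.exp b * (n * Real.exp z) ∧
          Real.exp b * (n * Real.exp z) ≤ lam * X then F (Real.exp b * (n * Real.exp z))
          else 0)‖ := by
        rw [hg] at hzn
        simp only [gX, e1, e2] at hzn
        exact hzn
      rw [Finset.mem_union, Finset.mem_union, Finset.mem_filter, Finset.mem_filter,
        Finset.mem_filter, Finset.mem_range]
      rcases disc_point hr hε₁.le hx h8 with h9 | h9 | h9
      · exact Or.inl ⟨Nat.lt_succ_of_le (Nat.le_floor h5), _, hx, h9⟩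
      · exact Or.inr (Or.inl ⟨hnw, h9⟩)
      · exact Or.inr (Or.inr ⟨hnw, h9⟩)
    have h4 := (Finset.card_le_card hsub).trans ((Finset.card_union_le _ _).trans
      (Nat.add_le_add_left (Finset.card_union_le _ _) _))
    have h5 : (((win X (lam * X)).filter P).card : ℝ) ≤
        (((range (⌊lam * X⌋₊ + 1)).filter fun n : ℕ => ∃ x : ℝ, |x - n| ≤ d ∧
          ε₁ < ‖F (Real.exp b * x) - F (Real.exp b * n)‖).card : ℝ) +
        ((((win X (lam * X)).filter fun n : ℕ => |(n : ℝ) - X / Real.exp b| ≤ d).card : ℝ) +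
        (((win X (lam * X)).filter fun n : ℕ =>
          |(n : ℝ) - lam * X / Real.exp b| ≤ d).card : ℝ)) := by
      exact_mod_cast h4
    have h6 : ε₁ * ((⌊lam * X⌋₊ + 1 : ℕ) : ℝ) ≤ 3 * ε₁ * X := by
      push_cast
      nlinarith
    linarith
  have h1 : 1 / X * ((win X (lam * X)).card * (2 * ε₁) + ((win X (lam * X)).filter P).card * 2) ≤
      1 / X * (2 * X * (2 * ε₁) + (3 * ε₁ * X + 2 * (2 * d + 1)) * 2) := by
    refine mul_le_mul_of_nonneg_left ?_ (by positivity)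
    have h2 := mul_le_mul_of_nonneg_right hW (by linarith : (0 : ℝ) ≤ 2 * ε₁)
    linarith
  refine h1.trans ?_
  rw [one_div, inv_mul_le_iff₀ hX0]
  have h2 : ε = 16 * ε₁ := by rw [hε₁d]; ring
  rw [h2]
  nlinarith [mul_pos hε₁ hX0]

/-- The same for a list of shifts `≤ 1` (the error is multiplied by the mass). -/
theorem disc_list {F : ℝ → ℂ} (hF : Sampled F) {lam : ℝ} (hl : 1 < lam) (hl2 : lam ≤ 2) :
    ∀ ε : ℝ, 0 < ε → ∃ ρ0 : ℝ, 0 < ρ0 ∧ ∀ ρ : ℝ, 0 < ρ → ρ ≤ ρ0 → ∀ L : List (ℝ × ℝ),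
      shiftLe L 1 → ∃ X0 : ℝ, 0 < X0 ∧ ∀ X : ℝ, X0 ≤ X →
        ‖∑ n ∈ win X (lam * X), mu n / (n : ℂ) * act L (gX F lam X) (Real.log n) -
          ∫ y, act L (gX F lam X) y * mm lam X (ρ / X) y‖ ≤ mass L * ε := by
  intro ε hε
  obtain ⟨ρ0, hρ0, hd⟩ := disc hF hl hl2 ε hε
  refine ⟨ρ0, hρ0, fun ρ hρ hρρ L => ?_⟩
  induction L with
  | nil =>
    intro _
    refine ⟨1, one_pos, fun X _ => ?_⟩
    simp [act_nil, mass]
  | cons x L ih =>
    intro hL
    obtain ⟨X1, hX1, h1⟩ := ih fun z hz => hL z (List.mem_cons_of_mem _ hz)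
    obtain ⟨X2, hX2, h2⟩ := hd ρ hρ hρρ x.2 (hL x List.mem_cons_self)
    refine ⟨max X1 X2, lt_max_of_lt_left hX1, fun X hX => ?_⟩
    have hX0 : 0 < X := lt_of_lt_of_le hX1 ((le_max_left _ _).trans hX)
    have hs : 0 < ρ / X := by positivity
    have h3 := h1 X ((le_max_left _ _).trans hX)
    have h4 := h2 X ((le_max_right _ _).trans hX)
    have hm := disc_gX_meas hF.meas lam X
    have hi1 : Integrable (fun y => (x.1 : ℂ) * (gX F lam X (y + x.2) * mm lam X (ρ / X) y)) :=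
      (disc_mul_int (hm.comp (measurable_add_const x.2))
        (fun y => disc_gX_bdd hF.bdd lam X _) (disc_mm_int lam X hs)).const_mul _
    have hi2 : Integrable (fun y => act L (gX F lam X) y * mm lam X (ρ / X) y) :=
      disc_mul_int (measurable_act L hm)
        (norm_act_le L _ (fun y => disc_gX_bdd hF.bdd lam X y)) (disc_mm_int lam X hs)
    have e1 : ∑ n ∈ win X (lam * X), mu n / (n : ℂ) * act (x :: L) (gX F lam X) (Real.log n) =
        (x.1 : ℂ) * ∑ n ∈ win X (lam * X), mu n / (n : ℂ) * gX F lam X (Real.log n + x.2) +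
          ∑ n ∈ win X (lam * X), mu n / (n : ℂ) * act L (gX F lam X) (Real.log n) := by
      rw [Finset.mul_sum, ← Finset.sum_add_distrib]
      refine Finset.sum_congr rfl fun n _ => ?_
      rw [act_cons]
      ring
    have e2 : ∫ y, act (x :: L) (gX F lam X) y * mm lam X (ρ / X) y =
        (x.1 : ℂ) * (∫ y, gX F lam X (y + x.2) * mm lam X (ρ / X) y) +
          ∫ y, act L (gX F lam X) y * mm lam X (ρ / X) y := by
      rw [← integral_const_mul, ← integral_add hi1 hi2]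
      refine integral_congr_ae (Filter.Eventually.of_forall fun y => ?_)
      simp only [act_cons]
      ring
    rw [e1, e2]
    have e3 : ∀ a b c d e : ℂ, e * a + b - (e * c + d) = e * (a - c) + (b - d) := by
      intro a b c d e
      ring
    rw [e3, mass_cons, add_mul]
    refine (norm_add_le _ _).trans (add_le_add ?_ h3)
    rw [norm_mul, Complex.norm_real, Real.norm_eq_abs]
    exact mul_le_mul_of_nonneg_left h4 (abs_nonneg _)

end Pool.Agent.MOM
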