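import Pool.Agent.MOM.An.OpB

/-!
MOM (MP_2b7f8f_an), section 2: the energy increment.

PROOFS. `nice_act`: clear (`measurable_act`, `norm_act_le`, `act_eq_zero` or induction on the list).
For `u, w` Nice all products are integrable (bounded, measurable, bounded support).
`nsq_act_le`: if all coefficients of `L` are `≥ 0` and `mass L = 1` then
`‖act L u y‖² ≤ ∑ c ‖u(y+b)‖²` (convexity of the square), integrate, translation invariance.
`adjoint`: `∫ (act L u) conj w = ∫ u conj (act (revC L) w)` (translation invariance, coefficients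
real; induction on `L`).
`energy_step`: for `u` Nice, with `A_v = act (aC (cell H v))`, `w_v = q_v/W1`:
`act (AA) u = ∑ w_v A_v^* A_v u` (`act_mulC`, `act_sclC`, `act_append`; `AA` is a flatMap over
`V.toList`), so `<AA u, u> = ∑ w_v ‖A_v u‖²` (`adjoint`) and, by convexity (`∑ w_v = 1`,
Cauchy-Schwarz) and `nsq_act_le` for `revC (aC _)`,
`‖AA u‖² ≤ ∑ w_v ‖A_v^* A_v u‖² ≤ ∑ w_v ‖A_v u‖²`. Hence
`‖u - AA u‖² = ‖u‖² - 2 ∑ w_v ‖A_v u‖² + ‖AA u‖² ≤ ‖u‖² - ∑ w_v ‖A_v u‖²`.
`energy`: `u_i = act (OW i) g`, `u_{i+1} = u_i - AA u_i` (`act_OW_succ`), telescoping: the sum over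
`i < k` of `∑ w_v ‖A_v u_i‖²` is `≤ ‖g‖²`, so one of the `k` terms is `≤ ‖g‖²/k`.
-/

set_option autoImplicit false

namespace Pool.Agent.MOM

open Finset MeasureTheory

private theorem nice_congr {u w : ℝ → ℂ} (hu : Nice u) (h : ∀ y, w y = u y) : Nice w := by
  have : w = u := funext h
  rw [this]
  exact hu

private theorem nice_zero : Nice fun _ => (0 : ℂ) :=
  ⟨measurable_const, ⟨0, fun y => by simp⟩, ⟨0, fun y _ => rfl⟩⟩

private theorem nice_add {u w : ℝ → ℂ} (hu : Nice u) (hw : Nice w) :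
    Nice fun y => u y + w y := by
  obtain ⟨B, hB⟩ := hu.bdd
  obtain ⟨C, hC⟩ := hw.bdd
  obtain ⟨R, hR⟩ := hu.supp
  obtain ⟨S, hS⟩ := hw.supp
  refine ⟨hu.meas.add hw.meas, ⟨B + C, fun y => ?_⟩, ⟨max R S, fun y hy => ?_⟩⟩
  · exact (norm_add_le _ _).trans (add_le_add (hB y) (hC y))
  · show u y + w y = 0
    rw [hR y (lt_of_le_of_lt (le_max_left _ _) hy), hS y (lt_of_le_of_lt (le_max_right _ _) hy),
      add_zero]

private theorem nice_const_mul {u : ℝ → ℂ} (c : ℂ) (hu : Nice u) : Nice fun y => c * u y := by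
  obtain ⟨B, hB⟩ := hu.bdd
  obtain ⟨R, hR⟩ := hu.supp
  refine ⟨measurable_const.mul hu.meas, ⟨‖c‖ * B, fun y => ?_⟩, ⟨R, fun y hy => ?_⟩⟩
  · rw [norm_mul]
    exact mul_le_mul_of_nonneg_left (hB y) (norm_nonneg _)
  · show c * u y = 0
    rw [hR y hy, mul_zero]

private theorem nice_shift {u : ℝ → ℂ} (b : ℝ) (hu : Nice u) : Nice fun y => u (y + b) := by
  obtain ⟨B, hB⟩ := hu.bdd
  obtain ⟨R, hR⟩ := hu.supp
  refine ⟨hu.meas.comp (measurable_id.add_const _), ⟨B, fun y => hB _⟩,
    ⟨R + |b|, fun y hy => hR _ ?_⟩⟩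
  have h1 : |y| ≤ |y + b| + |b| := by
    have h2 : y = (y + b) - b := by ring
    calc |y| = |(y + b) - b| := by rw [← h2]
      _ ≤ |y + b| + |b| := abs_sub _ _
  linarith

private theorem nice_sub {u w : ℝ → ℂ} (hu : Nice u) (hw : Nice w) :
    Nice fun y => u y - w y := by
  refine nice_congr (nice_add hu (nice_const_mul (-1) hw)) fun y => ?_
  ring

theorem nice_act (L : List (ℝ × ℝ)) {g : ℝ → ℂ} (hg : Nice g) : Nice (act L g) := by
  induction L with
  | nil => exact nice_congr nice_zero fun y => act_nil g y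
  | cons x L ih =>
    exact nice_congr (nice_add (nice_const_mul (x.1 : ℂ) (nice_shift x.2 hg)) ih)
      fun y => act_cons x L g y

theorem nice_integrable {u w : ℝ → ℂ} (hu : Nice u) (hw : Nice w) :
    Integrable fun y => u y * (starRingEnd ℂ) (w y) := by
  obtain ⟨B, hB⟩ := hu.bdd
  obtain ⟨C, hC⟩ := hw.bdd
  obtain ⟨R, hR⟩ := hu.supp
  have hm : Measurable fun y => u y * (starRingEnd ℂ) (w y) :=
    hu.meas.mul (Complex.continuous_conj.measurable.comp hw.meas)
  have h1 : IntegrableOn (fun y => u y * (starRingEnd ℂ) (w y)) (Set.Icc (-R) R) := by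
    refine Measure.integrableOn_of_bounded (M := B * C) ?_ hm.aestronglyMeasurable ?_
    · exact (measure_Icc_lt_top).ne
    · refine Filter.Eventually.of_forall fun y => ?_
      rw [norm_mul, RCLike.norm_conj]
      exact mul_le_mul (hB y) (hC y) (norm_nonneg _) ((norm_nonneg _).trans (hB y))
  rw [integrableOn_iff_integrable_of_support_subset] at h1
  · exact h1
  · intro y hy
    rw [Function.mem_support] at hy
    rw [Set.mem_Icc, ← abs_le]
    by_contra hcon
    exact hy (by rw [hR y (not_le.1 hcon), zero_mul])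

private theorem normsq_eq (z : ℂ) : ((‖z‖ ^ 2 : ℝ) : ℂ) = z * (starRingEnd ℂ) z := by
  rw [Complex.mul_conj, Complex.normSq_eq_norm_sq]

private theorem nice_integrable_sq {u : ℝ → ℂ} (hu : Nice u) :
    Integrable fun y => ‖u y‖ ^ 2 := by
  have h1 := (nice_integrable hu hu).re
  refine h1.congr (Filter.Eventually.of_forall fun y => ?_)
  show RCLike.re (u y * (starRingEnd ℂ) (u y)) = ‖u y‖ ^ 2
  rw [← normsq_eq]
  exact Complex.ofReal_re _

private theorem nsq_eq (u : ℝ → ℂ) :
    ∫ y, u y * (starRingEnd ℂ) (u y) = ((nsq u : ℝ) : ℂ) := by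
  unfold nsq
  rw [← integral_complex_ofReal]
  refine integral_congr_ae (Filter.Eventually.of_forall fun y => ?_)
  exact (normsq_eq _).symm

private theorem sum_shift (L : List (ℝ × ℝ)) {f : ℝ → ℝ} (hf : Integrable f) :
    Integrable (fun y => (L.map fun x => x.1 * f (y + x.2)).sum) ∧
      ∫ y, (L.map fun x => x.1 * f (y + x.2)).sum = (L.map fun x => x.1).sum * ∫ y, f y := by
  induction L with
  | nil => simp
  | cons x L ih =>
    have h1 : Integrable fun y => x.1 * f (y + x.2) :=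
      (hf.comp_add_right x.2).const_mul _
    simp only [List.map_cons, List.sum_cons]
    refine ⟨h1.add ih.1, ?_⟩
    rw [integral_add h1 ih.1, ih.2, integral_const_mul, integral_add_right_eq_self f x.2]
    ring

private theorem conv_aux {c m S a d : ℝ} (hc : 0 ≤ c) (hm : 0 ≤ m) (hS : 0 ≤ S)
    (h : d ^ 2 ≤ m * S) :
    (c * a + d) ^ 2 ≤ (c + m) * (c * a ^ 2 + S) := by
  have h1 : 2 * a * d ≤ m * a ^ 2 + S := by
    have h2 : (2 * a * d) ^ 2 ≤ (m * a ^ 2 + S) ^ 2 := by
      have h3 : (2 * a * d) ^ 2 = 4 * a ^ 2 * d ^ 2 := by ring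
      have h4 : 4 * a ^ 2 * d ^ 2 ≤ 4 * a ^ 2 * (m * S) :=
        mul_le_mul_of_nonneg_left h (by positivity)
      nlinarith [sq_nonneg (m * a ^ 2 - S)]
    exact (abs_le_of_sq_le_sq' h2 (by positivity)).2
  nlinarith [mul_le_mul_of_nonneg_left h1 hc]

private theorem norm_act_sq_le {L : List (ℝ × ℝ)} (hL : ∀ x ∈ L, 0 ≤ x.1) (u : ℝ → ℂ) (y : ℝ) :
    0 ≤ (L.map fun x => x.1 * ‖u (y + x.2)‖ ^ 2).sum ∧
    ‖act L u y‖ ^ 2 ≤ mass L * (L.map fun x => x.1 * ‖u (y + x.2)‖ ^ 2).sum := by
  induction L with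
  | nil => simp [act, mass]
  | cons x L ih =>
    have ih' := ih fun z hz => hL z (List.mem_cons_of_mem _ hz)
    have hx : 0 ≤ x.1 := hL x List.mem_cons_self
    rw [List.map_cons, List.sum_cons]
    refine ⟨add_nonneg (by positivity) ih'.1, ?_⟩
    rw [act_cons, mass_cons, abs_of_nonneg hx]
    have h1 : ‖(x.1 : ℂ) * u (y + x.2) + act L u y‖ ≤ x.1 * ‖u (y + x.2)‖ + ‖act L u y‖ := by
      refine (norm_add_le _ _).trans (le_of_eq ?_)
      rw [norm_mul, Complex.norm_real, Real.norm_eq_abs, abs_of_nonneg hx]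
    refine (pow_le_pow_left₀ (norm_nonneg _) h1 2).trans ?_
    exact conv_aux hx (mass_nonneg L) ih'.1 ih'.2

theorem nsq_act_le {L : List (ℝ × ℝ)} (hL : ∀ x ∈ L, 0 ≤ x.1) (hm : mass L = 1) {u : ℝ → ℂ}
    (hu : Nice u) : nsq (act L u) ≤ nsq u := by
  have h1 := sum_shift L (nice_integrable_sq hu)
  have h2 : (L.map fun x => x.1).sum = 1 := by
    rw [← hm]
    unfold mass
    congr 1
    refine List.map_congr_left fun x hx => ?_
    exact (abs_of_nonneg (hL x hx)).symm
  have h3 : nsq (act L u) ≤ ∫ y, (L.map fun x => x.1 * ‖u (y + x.2)‖ ^ 2).sum := by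
    unfold nsq
    refine integral_mono (nice_integrable_sq (nice_act L hu)) h1.1 fun y => ?_
    have h4 := (norm_act_sq_le hL u y).2
    rw [hm, one_mul] at h4
    exact h4
  rw [h1.2, h2, one_mul] at h3
  exact h3

theorem adjoint (L : List (ℝ × ℝ)) {u w : ℝ → ℂ} (hu : Nice u) (hw : Nice w) :
    ∫ y, act L u y * (starRingEnd ℂ) (w y) = ∫ y, u y * (starRingEnd ℂ) (act (revC L) w y) := by
  induction L with
  | nil => simp [act, revC]
  | cons x L ih =>
    have hr : revC (x :: L) = (x.1, -x.2) :: revC L := rfl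
    have e1 : ∀ y, act (x :: L) u y * (starRingEnd ℂ) (w y) =
        (x.1 : ℂ) * (u (y + x.2) * (starRingEnd ℂ) (w y)) +
          act L u y * (starRingEnd ℂ) (w y) := by
      intro y
      rw [act_cons]
      ring
    have e2 : ∀ y, u y * (starRingEnd ℂ) (act (revC (x :: L)) w y) =
        (x.1 : ℂ) * (u y * (starRingEnd ℂ) (w (y + -x.2))) +
          u y * (starRingEnd ℂ) (act (revC L) w y) := by
      intro y
      rw [hr, act_cons, map_add, map_mul, Complex.conj_ofReal]
      ring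
    simp only [e1, e2]
    rw [integral_add ((nice_integrable (nice_shift x.2 hu) hw).const_mul _)
        (nice_integrable (nice_act L hu) hw),
      integral_add ((nice_integrable hu (nice_shift (-x.2) hw)).const_mul _)
        (nice_integrable hu (nice_act (revC L) hw)), ih, integral_const_mul, integral_const_mul]
    congr 2
    have h1 := integral_add_right_eq_self (μ := volume)
      (fun y : ℝ => u y * (starRingEnd ℂ) (w (y + -x.2))) x.2
    rw [← h1]
    refine integral_congr_ae (Filter.Eventually.of_forall fun y => ?_)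
    show u (y + x.2) * (starRingEnd ℂ) (w y) = u (y + x.2) * (starRingEnd ℂ) (w (y + x.2 + -x.2))
    rw [add_neg_cancel_right]

private theorem act_flatMap (l : List ℕ) (c : ℕ → ℝ) (M : ℕ → List (ℝ × ℝ)) (u : ℝ → ℂ)
    (y : ℝ) : act (l.flatMap fun v => sclC (c v) (M v)) u y =
      (l.map fun v => (c v : ℂ) * act (M v) u y).sum := by
  induction l with
  | nil => simp [act]
  | cons v l ih =>
    rw [List.flatMap_cons, act_append, ih, act_sclC, List.map_cons, List.sum_cons]

private theorem act_AA (H : ℕ) (V : Finset ℕ) (u : ℝ → ℂ) (y : ℝ) :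
    act (AA H V) u y = ∑ v ∈ V, ((qs (cell H v) / W1 H V : ℝ) : ℂ) *
      act (revC (aC (cell H v))) (act (aC (cell H v)) u) y := by
  unfold AA
  rw [act_flatMap, Finset.sum_map_toList]
  refine Finset.sum_congr rfl fun v _ => ?_
  rw [act_mulC]

private theorem revC_revC (L : List (ℝ × ℝ)) : revC (revC L) = L := by
  unfold revC
  rw [List.map_map]
  have : ((fun x : ℝ × ℝ => (x.1, -x.2)) ∘ fun x : ℝ × ℝ => (x.1, -x.2)) = id := by
    funext x
    simp
  rw [this, List.map_id]

private theorem revC_nonneg {L : List (ℝ × ℝ)} (hL : ∀ x ∈ L, 0 ≤ x.1) :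
    ∀ x ∈ revC L, 0 ≤ x.1 := by
  intro x hx
  unfold revC at hx
  rw [List.mem_map] at hx
  obtain ⟨y, hy, rfl⟩ := hx
  exact hL y hy

private theorem w_nonneg {H : ℕ} {V : Finset ℕ} (h : Good H V) (v : ℕ) :
    0 ≤ qs (cell H v) / W1 H V := div_nonneg (qs_nonneg _) (W1_pos h).le

private theorem expand_sq (a z : ℂ) :
    ‖a - z‖ ^ 2 = ‖a‖ ^ 2 - 2 * (z * (starRingEnd ℂ) a).re + ‖z‖ ^ 2 := by
  rw [← Complex.normSq_eq_norm_sq, ← Complex.normSq_eq_norm_sq, ← Complex.normSq_eq_norm_sq,
    Complex.normSq_sub]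
  have h1 : (a * (starRingEnd ℂ) z).re = (z * (starRingEnd ℂ) a).re := by
    rw [← Complex.conj_re (a * (starRingEnd ℂ) z), map_mul, Complex.conj_conj, mul_comm]
  rw [h1]
  ring

private theorem nsq_AA_le {H : ℕ} {V : Finset ℕ} (h : Good H V) {u : ℝ → ℂ} (hu : Nice u) :
    nsq (act (AA H V) u) ≤
      ∑ v ∈ V, qs (cell H v) / W1 H V * nsq (act (aC (cell H v)) u) := by
  have hint : ∀ v ∈ V, Integrable fun y => qs (cell H v) / W1 H V *
      ‖act (revC (aC (cell H v))) (act (aC (cell H v)) u) y‖ ^ 2 := fun v _ =>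
    (nice_integrable_sq (nice_act _ (nice_act _ hu))).const_mul _
  have h1 : nsq (act (AA H V) u) ≤ ∫ y, ∑ v ∈ V, qs (cell H v) / W1 H V *
      ‖act (revC (aC (cell H v))) (act (aC (cell H v)) u) y‖ ^ 2 := by
    unfold nsq
    refine integral_mono (nice_integrable_sq (nice_act _ hu)) (integrable_finsetSum _ hint)
      fun y => ?_
    show ‖act (AA H V) u y‖ ^ 2 ≤ _
    rw [act_AA]
    have h2 : ‖∑ v ∈ V, ((qs (cell H v) / W1 H V : ℝ) : ℂ) *
        act (revC (aC (cell H v))) (act (aC (cell H v)) u) y‖ ≤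
        ∑ v ∈ V, qs (cell H v) / W1 H V *
          ‖act (revC (aC (cell H v))) (act (aC (cell H v)) u) y‖ := by
      refine (norm_sum_le _ _).trans (Finset.sum_le_sum fun v _ => ?_)
      rw [norm_mul, Complex.norm_real, Real.norm_eq_abs, abs_of_nonneg (w_nonneg h v)]
    refine (pow_le_pow_left₀ (norm_nonneg _) h2 2).trans ?_
    refine (Finset.sum_sq_le_sum_mul_sum_of_sq_le_mul V (f := fun v => qs (cell H v) / W1 H V)
      (g := fun v => qs (cell H v) / W1 H V *
        ‖act (revC (aC (cell H v))) (act (aC (cell H v)) u) y‖ ^ 2)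
      (fun v _ => w_nonneg h v)
      (fun v _ => mul_nonneg (w_nonneg h v) (sq_nonneg _)) (fun v _ => le_of_eq ?_)).trans ?_
    · ring
    · rw [sum_w h, one_mul]
  refine h1.trans ?_
  rw [integral_finsetSum _ hint]
  refine Finset.sum_le_sum fun v hv => ?_
  rw [integral_const_mul]
  refine mul_le_mul_of_nonneg_left ?_ (w_nonneg h v)
  refine nsq_act_le (revC_nonneg (aC_nonneg _)) ?_ (nice_act _ hu)
  rw [mass_revC, mass_aC (h.pos v hv)]

private theorem inner_AA {H : ℕ} {V : Finset ℕ} {u : ℝ → ℂ} (hu : Nice u) :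
    ∫ y, act (AA H V) u y * (starRingEnd ℂ) (u y) =
      ((∑ v ∈ V, qs (cell H v) / W1 H V * nsq (act (aC (cell H v)) u) : ℝ) : ℂ) := by
  have e1 : ∀ y, act (AA H V) u y * (starRingEnd ℂ) (u y) =
      ∑ v ∈ V, ((qs (cell H v) / W1 H V : ℝ) : ℂ) *
        (act (revC (aC (cell H v))) (act (aC (cell H v)) u) y * (starRingEnd ℂ) (u y)) := by
    intro y
    rw [act_AA, Finset.sum_mul]
    exact Finset.sum_congr rfl fun v _ => by ring
  simp only [e1]
  rw [integral_finsetSum _ fun v _ =>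
    (nice_integrable (nice_act _ (nice_act _ hu)) hu).const_mul _]
  push_cast
  refine Finset.sum_congr rfl fun v _ => ?_
  rw [integral_const_mul, adjoint _ (nice_act _ hu) hu, revC_revC, nsq_eq]

theorem energy_step {H : ℕ} {V : Finset ℕ} (h : Good H V) {u : ℝ → ℂ} (hu : Nice u) :
    nsq (fun y => u y - act (AA H V) u y) ≤
      nsq u - ∑ v ∈ V, qs (cell H v) / W1 H V * nsq (act (aC (cell H v)) u) := by
  have hA : Nice (act (AA H V) u) := nice_act _ hu
  have h1 : nsq (fun y => u y - act (AA H V) u y) = nsq u -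
      2 * (∫ y, act (AA H V) u y * (starRingEnd ℂ) (u y)).re + nsq (act (AA H V) u) := by
    have i1 := nice_integrable_sq hu
    have i2 : Integrable fun y => (act (AA H V) u y * (starRingEnd ℂ) (u y)).re :=
      (nice_integrable hA hu).re
    have i3 := nice_integrable_sq hA
    have e : (∫ y, act (AA H V) u y * (starRingEnd ℂ) (u y)).re =
        ∫ y, (act (AA H V) u y * (starRingEnd ℂ) (u y)).re :=
      (integral_re (nice_integrable hA hu)).symm
    rw [e]
    unfold nsq
    simp only [expand_sq]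
    have i4 : Integrable fun y =>
        ‖u y‖ ^ 2 - 2 * (act (AA H V) u y * (starRingEnd ℂ) (u y)).re :=
      i1.sub (i2.const_mul 2)
    rw [integral_add i4 i3, integral_sub i1 (i2.const_mul 2), integral_const_mul]
  rw [h1, inner_AA hu, Complex.ofReal_re]
  have h2 := nsq_AA_le h hu
  linarith

theorem energy {H : ℕ} {V : Finset ℕ} (h : Good H V) {g : ℝ → ℂ} (hg : Nice g) {k : ℕ}
    (hk : 0 < k) : ∃ i < k, ∑ v ∈ V, qs (cell H v) / W1 H V *
      nsq (act (aC (cell H v)) (act (OW H V i) g)) ≤ nsq g / k := by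
  have h1 : ∀ i : ℕ, ∑ j ∈ range i, ∑ v ∈ V, qs (cell H v) / W1 H V *
      nsq (act (aC (cell H v)) (act (OW H V j) g)) ≤ nsq g - nsq (act (OW H V i) g) := by
    intro i
    induction i with
    | zero =>
      have e : act (OW H V 0) g = g := by
        funext y
        exact act_one g y
      rw [e]
      simp
    | succ i ih =>
      rw [Finset.sum_range_succ]
      have h2 := energy_step h (nice_act (OW H V i) hg)
      have e : act (OW H V (i + 1)) g =
          fun y => act (OW H V i) g y - act (AA H V) (act (OW H V i) g) y := by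
        funext y
        exact act_OW_succ H V i g y
      rw [e]
      linarith
  have h2 : 0 ≤ nsq (act (OW H V k) g) := integral_nonneg fun y => sq_nonneg _
  have h3 : ∑ j ∈ range k, ∑ v ∈ V, qs (cell H v) / W1 H V *
      nsq (act (aC (cell H v)) (act (OW H V j) g)) ≤ ∑ _j ∈ range k, nsq g / k := by
    rw [Finset.sum_const, Finset.card_range, nsmul_eq_mul]
    have hk' : (k : ℝ) ≠ 0 := by positivity
    rw [mul_div_cancel₀ _ hk']
    linarith [h1 k]
  obtain ⟨i, hi, h4⟩ := Finset.exists_le_of_sum_le (Finset.nonempty_range_iff.2 hk.ne') h3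
  exact ⟨i, Finset.mem_range.1 hi, h4⟩

end Pool.Agent.MOM
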