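import Pool.Agent.MOM.An.Op

/-!
MOM (MP_2b7f8f_an): the window function `gX`.

`gX` is supported in `[log X, log (lam X)]`, bounded by 1, measurable; `∫ ‖gX‖² ≤ log lam ≤ 1`.
-/

set_option autoImplicit false

namespace Pool.Agent.MOM

open Finset MeasureTheory

private theorem gX_norm {F : ℝ → ℂ} (hF : Sampled F) (lam X y : ℝ) : ‖gX F lam X y‖ ≤ 1 := by
  unfold gX
  split_ifs
  · exact hF.bdd _
  · rw [norm_zero]
    exact zero_le_one

private theorem gX_zero (F : ℝ → ℂ) {lam X : ℝ} (hl : 1 < lam) (hX : 0 < X) :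
    ∀ y, (y < Real.log X ∨ Real.log (lam * X) < y) → gX F lam X y = 0 := by
  intro y hy
  have hlX : 0 < lam * X := mul_pos (by linarith) hX
  unfold gX
  rw [if_neg]
  rintro ⟨h1, h2⟩
  rcases hy with h | h
  · have h3 : Real.exp y < X := (Real.lt_log_iff_exp_lt hX).1 h
    linarith
  · have h3 : lam * X < Real.exp y := (Real.log_lt_iff_lt_exp hlX).1 h
    linarith

theorem gX_nice {F : ℝ → ℂ} (hF : Sampled F) {lam X : ℝ} (hl : 1 < lam) (hX : 0 < X) :
    Nice (gX F lam X) := by
  refine ⟨?_, ⟨1, gX_norm hF lam X⟩, ⟨max |Real.log X| |Real.log (lam * X)|, fun y hy => ?_⟩⟩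
  · have h1 : MeasurableSet {y : ℝ | X < Real.exp y ∧ Real.exp y ≤ lam * X} :=
      (measurableSet_lt measurable_const Real.measurable_exp).inter
        (measurableSet_le Real.measurable_exp measurable_const)
    exact Measurable.ite h1 (hF.meas.comp Real.measurable_exp) measurable_const
  · apply gX_zero F hl hX
    by_contra h
    rw [not_or, not_lt, not_lt] at h
    have h2 := abs_le_max_abs_abs h.1 h.2
    linarith

theorem norm_gX_le {F : ℝ → ℂ} (hF : Sampled F) (lam X y : ℝ) : ‖gX F lam X y‖ ≤ 1 :=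
  gX_norm hF lam X y

theorem gX_eq_zero (F : ℝ → ℂ) {lam X : ℝ} (hl : 1 < lam) (hX : 0 < X) :
    ∀ y, (y < Real.log X ∨ Real.log (lam * X) < y) → gX F lam X y = 0 :=
  gX_zero F hl hX

theorem nsq_gX_le {F : ℝ → ℂ} (hF : Sampled F) {lam X : ℝ} (hl : 1 < lam) (hl2 : lam ≤ 2)
    (hX : 0 < X) : nsq (gX F lam X) ≤ 1 := by
  unfold nsq
  set I : Set ℝ := Set.Icc (Real.log X) (Real.log (lam * X)) with hI
  have hl0 : 0 < lam := by linarith
  have h1 : Integrable (I.indicator fun _ : ℝ => (1 : ℝ)) := by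
    rw [integrable_indicator_iff measurableSet_Icc]
    exact integrableOn_const (by simp [hI])
  have h2 : ∫ y, ‖gX F lam X y‖ ^ 2 ≤ ∫ y, I.indicator (fun _ : ℝ => (1 : ℝ)) y := by
    refine integral_mono_of_nonneg (Filter.Eventually.of_forall fun y => sq_nonneg _) h1
      (Filter.Eventually.of_forall fun y => ?_)
    show ‖gX F lam X y‖ ^ 2 ≤ I.indicator (fun _ : ℝ => (1 : ℝ)) y
    by_cases hy : y ∈ I
    · rw [Set.indicator_of_mem hy]
      exact pow_le_one₀ (norm_nonneg _) (gX_norm hF lam X y)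
    · rw [Set.indicator_of_notMem hy, gX_zero F hl hX y ?_, norm_zero]
      · norm_num
      · by_contra h
        rw [not_or, not_lt, not_lt] at h
        exact hy h
  refine h2.trans ?_
  rw [integral_indicator measurableSet_Icc, setIntegral_const, smul_eq_mul, mul_one,
    Real.volume_real_Icc, Real.log_mul hl0.ne' hX.ne']
  have h3 : Real.log lam ≤ lam - 1 := Real.log_le_sub_one_of_pos hl0
  exact max_le (by linarith) zero_le_one

end Pool.Agent.MOM
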