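import Pool.Agent.MOM.Defs
import Pool.Agent.MOM.NT.MVT

/-!
MOM (MP_2b7f8f_an), section 2 (A): bounds for the Gaussian weighted mean square of `M_X`.

PROOFS. `∑_{X < n ≤ lam X} 1/n² ≤ (1/X) ∑ 1/n ≤ 2/X` for `X ≥ 1` (at most `X + 1 ≤ 2X` integers).
`gauss_mean`: `mvt_gauss` with `T = X/ρ`, `N = 2X`: `≤ C (X/ρ + 2X) 2/X ≤ 6C/ρ`.
`gauss_tail`: for `|t| > C1 X`, `(ρ/X)² t² ≥ (ρ/X)² t²/2 + ρ² C1²/2`, and `mvt_gauss` with
`T = √2 X/ρ`.
`gauss_integrable`: `mvt_gauss` (first part) or directly: `MX` is bounded and continuous.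
-/

set_option autoImplicit false

namespace Pool.Agent.MOM

open Finset MeasureTheory

private theorem tail_mem {x y : ℝ} {n : ℕ} (h : n ∈ win x y) : 0 < n := by
  unfold win at h
  rw [Finset.mem_Ioc] at h
  omega

private theorem tail_sum {lam X : ℝ} (hl : lam ≤ 2) (hX : 1 ≤ X) :
    ∑ n ∈ win X (lam * X), ‖mu n‖ ^ 2 / (n : ℝ) ^ 2 ≤ 2 / X := by
  have hX0 : 0 < X := by linarith
  have h1 : ∀ n ∈ win X (lam * X), ‖mu n‖ ^ 2 / (n : ℝ) ^ 2 ≤ 1 / X ^ 2 := by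
    intro n hn
    have h2 := ((mem_win hX0.le).1 hn).1
    have h3 : ‖mu n‖ ^ 2 ≤ 1 := pow_le_one₀ (norm_nonneg _) (norm_mu_le n)
    exact div_le_div₀ zero_le_one h3 (by positivity) (pow_le_pow_left₀ hX0.le h2.le 2)
  refine (Finset.sum_le_card_nsmul _ _ _ h1).trans ?_
  have h2 : ((win X (lam * X)).card : ℝ) ≤ 2 * X := by
    unfold win
    rw [Nat.card_Ioc]
    have h3 : ((⌊lam * X⌋₊ - ⌊X⌋₊ : ℕ) : ℝ) ≤ (⌊2 * X⌋₊ : ℝ) := by
      have h4 : lam * X ≤ 2 * X := mul_le_mul_of_nonneg_right hl hX0.le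
      have h5 := Nat.floor_mono h4
      exact_mod_cast (Nat.sub_le _ _).trans h5
    exact h3.trans (Nat.floor_le (by positivity))
  rw [nsmul_eq_mul]
  refine (mul_le_mul_of_nonneg_right h2 (by positivity)).trans (le_of_eq ?_)
  field_simp

private theorem tail_bound {lam X : ℝ} (hl : lam ≤ 2) (hX : 1 ≤ X) {n : ℕ}
    (hn : n ∈ win X (lam * X)) : 0 < n ∧ (n : ℝ) ≤ 2 * X := by
  have hX0 : 0 < X := by linarith
  exact ⟨tail_mem hn, ((mem_win hX0.le).1 hn).2.trans (mul_le_mul_of_nonneg_right hl hX0.le)⟩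

theorem gauss_integrable (lam X c : ℝ) (hc : 0 < c) :
    Integrable fun t => ‖MX lam X t‖ ^ 2 * Real.exp (-(c * t ^ 2)) := by
  obtain ⟨C, -, h⟩ := mvt_gauss
  have h1 := (h (win X (lam * X)) mu (⌊lam * X⌋₊ + 1) (1 / Real.sqrt c) (by positivity)
    (by positivity) (fun n hn => ⟨tail_mem hn, by
      unfold win at hn
      rw [Finset.mem_Ioc] at hn
      have h2 : (n : ℝ) ≤ ⌊lam * X⌋₊ := by exact_mod_cast hn.2
      linarith⟩)).1
  refine h1.congr (Filter.Eventually.of_forall fun t => ?_)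
  have e : (t / (1 / Real.sqrt c)) ^ 2 = c * t ^ 2 := by
    rw [div_div_eq_mul_div, div_one, mul_pow, Real.sq_sqrt hc.le, mul_comm]
  simp only [e]
  rfl

theorem gauss_mean : ∃ C : ℝ, 0 < C ∧ ∀ lam X ρ : ℝ, 1 < lam → lam ≤ 2 → 1 ≤ X → 0 < ρ → ρ ≤ 1 →
    ∫ t, ‖MX lam X t‖ ^ 2 * Real.exp (-((ρ / X) ^ 2 * t ^ 2)) ≤ C / ρ := by
  obtain ⟨C, hC, h⟩ := mvt_gauss
  refine ⟨6 * C, by positivity, fun lam X ρ _ hl hX hρ hρ1 => ?_⟩
  have hX0 : 0 < X := by linarith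
  have h1 := (h (win X (lam * X)) mu (2 * X) (X / ρ) (by positivity) (by positivity)
    (fun n hn => tail_bound hl hX hn)).2
  have e : ∀ t : ℝ, ‖dp (win X (lam * X)) mu t‖ ^ 2 * Real.exp (-(t / (X / ρ)) ^ 2) =
      ‖MX lam X t‖ ^ 2 * Real.exp (-((ρ / X) ^ 2 * t ^ 2)) := by
    intro t
    have e1 : (t / (X / ρ)) ^ 2 = (ρ / X) ^ 2 * t ^ 2 := by
      rw [div_div_eq_mul_div]
      ring
    rw [e1]
    rfl
  simp only [e] at h1
  refine h1.trans ?_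
  have h2 := tail_sum hl hX
  refine (mul_le_mul_of_nonneg_left h2 (by positivity)).trans ?_
  have e2 : C * (X / ρ + 2 * X) * (2 / X) = 2 * C / ρ + 4 * C := by
    field_simp
    ring
  have e3 : 6 * C / ρ = 2 * C / ρ + 4 * C / ρ := by ring
  rw [e2, e3]
  have h3 : 4 * C ≤ 4 * C / ρ := by
    rw [le_div_iff₀ hρ]
    have := mul_le_mul_of_nonneg_left hρ1 (by positivity : 0 ≤ 4 * C)
    linarith
  linarith

theorem gauss_tail : ∃ C : ℝ, 0 < C ∧ ∀ lam X ρ C1 : ℝ, 1 < lam → lam ≤ 2 → 1 ≤ X → 0 < ρ →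
    ρ ≤ 1 → 0 < C1 →
    ∫ t in {t : ℝ | C1 * X < |t|}, ‖MX lam X t‖ ^ 2 * Real.exp (-((ρ / X) ^ 2 * t ^ 2)) ≤
      C / ρ * Real.exp (-(ρ ^ 2 * C1 ^ 2 / 2)) := by
  obtain ⟨C, hC, h⟩ := mvt_gauss
  refine ⟨8 * C, by positivity, fun lam X ρ C1 _ hl hX hρ hρ1 hC1 => ?_⟩
  have hX0 : 0 < X := by linarith
  have hm : MeasurableSet {t : ℝ | C1 * X < |t|} :=
    measurableSet_lt measurable_const (continuous_abs.measurable)
  have hs2 : 0 < Real.sqrt 2 := Real.sqrt_pos.2 (by norm_num)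
  have h1 := (h (win X (lam * X)) mu (2 * X) (Real.sqrt 2 * X / ρ) (by positivity)
    (by positivity) (fun n hn => tail_bound hl hX hn)).2
  have e : ∀ t : ℝ, ‖dp (win X (lam * X)) mu t‖ ^ 2 *
      Real.exp (-(t / (Real.sqrt 2 * X / ρ)) ^ 2) =
      ‖MX lam X t‖ ^ 2 * Real.exp (-((ρ / X) ^ 2 / 2 * t ^ 2)) := by
    intro t
    have e1 : (t / (Real.sqrt 2 * X / ρ)) ^ 2 = (ρ / X) ^ 2 / 2 * t ^ 2 := by
      rw [div_div_eq_mul_div, div_pow, mul_pow, mul_pow, Real.sq_sqrt (by norm_num : (0:ℝ) ≤ 2)]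
      field_simp
    rw [e1]
    rfl
  simp only [e] at h1
  have hint1 := gauss_integrable lam X ((ρ / X) ^ 2) (by positivity)
  have hint2 := gauss_integrable lam X ((ρ / X) ^ 2 / 2) (by positivity)
  have h2 : ∫ t in {t : ℝ | C1 * X < |t|}, ‖MX lam X t‖ ^ 2 *
      Real.exp (-((ρ / X) ^ 2 * t ^ 2)) ≤
      ∫ t in {t : ℝ | C1 * X < |t|}, Real.exp (-(ρ ^ 2 * C1 ^ 2 / 2)) *
        (‖MX lam X t‖ ^ 2 * Real.exp (-((ρ / X) ^ 2 / 2 * t ^ 2))) := by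
    refine setIntegral_mono_on hint1.integrableOn (hint2.const_mul _).integrableOn hm ?_
    intro t ht
    have ht' : C1 * X < |t| := ht
    have h3 : (C1 * X) ^ 2 ≤ t ^ 2 := by
      rw [← sq_abs t]
      exact pow_le_pow_left₀ (by positivity) ht'.le 2
    have h4 : Real.exp (-((ρ / X) ^ 2 * t ^ 2)) ≤
        Real.exp (-(ρ ^ 2 * C1 ^ 2 / 2)) * Real.exp (-((ρ / X) ^ 2 / 2 * t ^ 2)) := by
      rw [← Real.exp_add]
      apply Real.exp_le_exp.2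
      have h5 : ρ ^ 2 * C1 ^ 2 ≤ (ρ / X) ^ 2 * t ^ 2 := by
        have h6 := mul_le_mul_of_nonneg_left h3 (by positivity : 0 ≤ (ρ / X) ^ 2)
        refine le_trans (le_of_eq ?_) h6
        field_simp
      linarith
    calc ‖MX lam X t‖ ^ 2 * Real.exp (-((ρ / X) ^ 2 * t ^ 2))
        ≤ ‖MX lam X t‖ ^ 2 *
          (Real.exp (-(ρ ^ 2 * C1 ^ 2 / 2)) * Real.exp (-((ρ / X) ^ 2 / 2 * t ^ 2))) :=
          mul_le_mul_of_nonneg_left h4 (by positivity)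
      _ = Real.exp (-(ρ ^ 2 * C1 ^ 2 / 2)) *
        (‖MX lam X t‖ ^ 2 * Real.exp (-((ρ / X) ^ 2 / 2 * t ^ 2))) := by ring
  refine h2.trans ?_
  rw [integral_const_mul, mul_comm (8 * C / ρ)]
  refine mul_le_mul_of_nonneg_left ?_ (Real.exp_pos _).le
  have h3 : ∫ t in {t : ℝ | C1 * X < |t|}, ‖MX lam X t‖ ^ 2 *
      Real.exp (-((ρ / X) ^ 2 / 2 * t ^ 2)) ≤
      ∫ t, ‖MX lam X t‖ ^ 2 * Real.exp (-((ρ / X) ^ 2 / 2 * t ^ 2)) :=
    setIntegral_le_integral hint2 (Filter.Eventually.of_forall fun t => by positivity)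
  refine h3.trans (h1.trans ?_)
  have h4 := tail_sum hl hX
  refine (mul_le_mul_of_nonneg_left h4 (by positivity)).trans ?_
  have hs : Real.sqrt 2 ≤ 2 := by
    rw [Real.sqrt_le_left (by norm_num)]
    norm_num
  have e2 : C * (Real.sqrt 2 * X / ρ + 2 * X) * (2 / X) = 2 * Real.sqrt 2 * C / ρ + 4 * C := by
    field_simp
    ring
  have e3 : 8 * C / ρ = 4 * C / ρ + 4 * C / ρ := by ring
  rw [e2, e3]
  have h5 : 4 * C ≤ 4 * C / ρ := by
    rw [le_div_iff₀ hρ]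
    have := mul_le_mul_of_nonneg_left hρ1 (by positivity : 0 ≤ 4 * C)
    linarith
  have h6 : 2 * Real.sqrt 2 * C / ρ ≤ 4 * C / ρ := by
    refine div_le_div_of_nonneg_right ?_ hρ.le
    have := mul_le_mul_of_nonneg_right hs hC.le
    linarith
  linarith

end Pool.Agent.MOM
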