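import Pool.Agent.MOM.An.OpB
import Pool.Agent.MOM.An.Tail

/-!
MOM (MP_2b7f8f_an), section 2 (A): the pointwise bound of the multiplier, integrated.

PROOF of `jbound`: pointwise, with `α = al H V t`, `m = 1 - (1-α)^i` (`mult_le`): if `α ≤ κ` then
`m² ≤ (kκ)²`; if `α > κ` then `m² ≤ 1 ≤ (2/κ) ∑_v w_v 1[κ/2 < ‖a_v(t)‖²]` (`al_big`). Integrate
(all functions are continuous, or indicator functions of open sets times integrable functions;
`gauss_integrable`).
-/

set_option autoImplicit false

namespace Pool.Agent.MOM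

open Finset MeasureTheory

private theorem continuous_ft' (L : List (ℝ × ℝ)) : Continuous (ft L) := by
  induction L with
  | nil =>
    have : ft [] = fun _ => 0 := by
      funext t
      simp [ft]
    rw [this]
    exact continuous_const
  | cons x L ih =>
    have : ft (x :: L) = fun t =>
        (x.1 : ℂ) * Complex.exp (((t * x.2 : ℝ) : ℂ) * Complex.I) + ft L t := by
      funext t
      exact ft_cons x L t
    rw [this]
    refine Continuous.add ?_ ih
    fun_prop

theorem jbound {H : ℕ} {V : Finset ℕ} (h : Good H V) {κ : ℝ} (hκ : 0 < κ) (i k : ℕ)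
    (hik : i ≤ k) (lam X c : ℝ) (hc : 0 < c) :
    ∫ t, ‖((1 - (1 - al H V t) ^ i : ℝ) : ℂ)‖ ^ 2 * ‖MX lam X t‖ ^ 2 *
        Real.exp (-(c * t ^ 2)) ≤
      (k * κ) ^ 2 * (∫ t, ‖MX lam X t‖ ^ 2 * Real.exp (-(c * t ^ 2))) +
      2 / κ * ∑ v ∈ V, qs (cell H v) / W1 H V *
        ∫ t in {t : ℝ | κ / 2 < ‖ft (aC (cell H v)) t‖ ^ 2},
          ‖MX lam X t‖ ^ 2 * Real.exp (-(c * t ^ 2)) := by
  have hF := gauss_integrable lam X c hc
  set F : ℝ → ℝ := fun t => ‖MX lam X t‖ ^ 2 * Real.exp (-(c * t ^ 2)) with hFdef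
  have hF0 : ∀ t, 0 ≤ F t := fun t => by
    simp only [hFdef]
    positivity
  set S : ℕ → Set ℝ := fun v => {t : ℝ | κ / 2 < ‖ft (aC (cell H v)) t‖ ^ 2} with hS
  have hSm : ∀ v, MeasurableSet (S v) := fun v => by
    refine (isOpen_lt continuous_const ?_).measurableSet
    exact ((continuous_ft' _).norm).pow 2
  have hw : ∀ v ∈ V, 0 ≤ qs (cell H v) / W1 H V := fun v hv =>
    div_nonneg (h.pos v hv).le (W1_pos h).le
  have hI : ∀ v, ∫ t in S v, F t = ∫ t, (S v).indicator F t := fun v =>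
    (integral_indicator (hSm v)).symm
  have hint : ∀ v ∈ V, Integrable fun t => qs (cell H v) / W1 H V * (S v).indicator F t :=
    fun v _ => (hF.indicator (hSm v)).const_mul _
  have hR : (k * κ) ^ 2 * (∫ t, F t) +
      2 / κ * ∑ v ∈ V, qs (cell H v) / W1 H V * ∫ t in S v, F t =
      ∫ t, ((k * κ) ^ 2 * F t +
        2 / κ * ∑ v ∈ V, qs (cell H v) / W1 H V * (S v).indicator F t) := by
    rw [integral_add (hF.const_mul _) ((integrable_finsetSum _ hint).const_mul _),
      integral_const_mul, integral_const_mul, integral_finsetSum _ hint]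
    congr 2
    refine Finset.sum_congr rfl fun v _ => ?_
    rw [integral_const_mul, hI]
  rw [hR]
  refine integral_mono_of_nonneg (Filter.Eventually.of_forall fun t => ?_)
    ((hF.const_mul _).add ((integrable_finsetSum _ hint).const_mul _))
    (Filter.Eventually.of_forall fun t => ?_)
  · simp only [Pi.zero_apply]
    positivity
  · simp only
    have ha0 := al_nonneg h t
    have ha1 := al_le_one h t
    obtain ⟨hm0, hm1, hm2⟩ := mult_le ha0 ha1 i
    set m : ℝ := 1 - (1 - al H V t) ^ i with hm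
    have hn : ‖((m : ℝ) : ℂ)‖ ^ 2 = m ^ 2 := by
      rw [Complex.norm_real, Real.norm_eq_abs, sq_abs]
    rw [hn, mul_assoc]
    change m ^ 2 * F t ≤ _
    have hsum0 : 0 ≤ ∑ v ∈ V, qs (cell H v) / W1 H V * (S v).indicator F t :=
      Finset.sum_nonneg fun v hv => mul_nonneg (hw v hv)
        (Set.indicator_nonneg (fun x _ => hF0 x) t)
    have h2κ : 0 ≤ 2 / κ := by positivity
    rcases le_or_gt (al H V t) κ with hle | hgt
    · have h1 : m ≤ k * κ := by
        refine hm2.trans ?_
        have h3 : (i : ℝ) ≤ k := by exact_mod_cast hik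
        exact mul_le_mul h3 hle ha0 (by positivity)
      have h2 : m ^ 2 * F t ≤ (k * κ) ^ 2 * F t :=
        mul_le_mul_of_nonneg_right (pow_le_pow_left₀ hm0 h1 2) (hF0 t)
      have h4 := mul_nonneg h2κ hsum0
      linarith
    · have h1 : m ^ 2 ≤ 1 := pow_le_one₀ hm0 hm1
      have h2 : m ^ 2 * F t ≤ 1 * F t := mul_le_mul_of_nonneg_right h1 (hF0 t)
      have h3 := al_big h hκ hgt
      have h4 : ∑ v ∈ V, qs (cell H v) / W1 H V * (S v).indicator F t =
          (∑ v ∈ V.filter (fun v => κ / 2 < ‖ft (aC (cell H v)) t‖ ^ 2),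
            qs (cell H v) / W1 H V) * F t := by
        rw [Finset.sum_filter, Finset.sum_mul]
        refine Finset.sum_congr rfl fun v _ => ?_
        by_cases hv : κ / 2 < ‖ft (aC (cell H v)) t‖ ^ 2
        · rw [if_pos hv, Set.indicator_of_mem (show t ∈ S v from hv)]
        · rw [if_neg hv, Set.indicator_of_notMem (show t ∉ S v from hv)]
          ring
      rw [h4]
      have h5 := mul_le_mul_of_nonneg_right h3 (hF0 t)
      have h6 : 0 ≤ (k * κ) ^ 2 * F t := mul_nonneg (sq_nonneg _) (hF0 t)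
      have h7 : 2 / κ * ((∑ v ∈ V.filter (fun v => κ / 2 < ‖ft (aC (cell H v)) t‖ ^ 2),
          qs (cell H v) / W1 H V) * F t) = 2 / κ * (∑ v ∈ V.filter
          (fun v => κ / 2 < ‖ft (aC (cell H v)) t‖ ^ 2), qs (cell H v) / W1 H V) * F t := by
        ring
      rw [h7]
      linarith

end Pool.Agent.MOM
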