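import Pool.Agent.MOM.Sampled

/-!
MOM (MP_2b7f8f_an), section 2: finite combinations of translations, represented by lists of pairs
`(c, b)` (coefficient, shift): `act L g y = ∑ c g(y+b)`, `ft L t = ∑ c e^{itb}`, `mass L = ∑ |c|`.
-/

set_option autoImplicit false

namespace Pool.Agent.MOM

open Finset MeasureTheory

/-- `act L g y = ∑ c g(y+b)`. -/
noncomputable def act (L : List (ℝ × ℝ)) (g : ℝ → ℂ) (y : ℝ) : ℂ :=
  (L.map fun x => (x.1 : ℂ) * g (y + x.2)).sum

/-- `ft L t = ∑ c e^{itb}`. -/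
noncomputable def ft (L : List (ℝ × ℝ)) (t : ℝ) : ℂ :=
  (L.map fun x => (x.1 : ℂ) * Complex.exp (((t * x.2 : ℝ) : ℂ) * Complex.I)).sum

/-- `mass L = ∑ |c|`. -/
noncomputable def mass (L : List (ℝ × ℝ)) : ℝ := (L.map fun x => |x.1|).sum

/-- Product (composition). -/
noncomputable def mulC (L M : List (ℝ × ℝ)) : List (ℝ × ℝ) :=
  L.flatMap fun x => M.map fun y => (x.1 * y.1, x.2 + y.2)

/-- Multiplication by a scalar. -/
noncomputable def sclC (c : ℝ) (L : List (ℝ × ℝ)) : List (ℝ × ℝ) := L.map fun x => (c * x.1, x.2)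

/-- The adjoint. -/
noncomputable def revC (L : List (ℝ × ℝ)) : List (ℝ × ℝ) := L.map fun x => (x.1, -x.2)

/-- All shifts are at most `R` in absolute value. -/
def shiftLe (L : List (ℝ × ℝ)) (R : ℝ) : Prop := ∀ x ∈ L, |x.2| ≤ R

theorem act_nil (g : ℝ → ℂ) (y : ℝ) : act [] g y = 0 := by simp [act]

theorem act_cons (x : ℝ × ℝ) (L : List (ℝ × ℝ)) (g : ℝ → ℂ) (y : ℝ) :
    act (x :: L) g y = (x.1 : ℂ) * g (y + x.2) + act L g y := by simp [act]

theorem act_append (L M : List (ℝ × ℝ)) (g : ℝ → ℂ) (y : ℝ) :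
    act (L ++ M) g y = act L g y + act M g y := by simp [act]

theorem act_sclC (c : ℝ) (L : List (ℝ × ℝ)) (g : ℝ → ℂ) (y : ℝ) :
    act (sclC c L) g y = (c : ℂ) * act L g y := by
  induction L with
  | nil => simp [act, sclC]
  | cons x L ih =>
    have h1 : sclC c (x :: L) = (c * x.1, x.2) :: sclC c L := rfl
    rw [h1, act_cons, act_cons, ih]
    push_cast
    ring

theorem act_map_shift (M : List (ℝ × ℝ)) (c b : ℝ) (g : ℝ → ℂ) (y : ℝ) :
    act (M.map fun z => (c * z.1, b + z.2)) g y = (c : ℂ) * act M g (y + b) := by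
  induction M with
  | nil => simp [act]
  | cons z M ih =>
    rw [List.map_cons, act_cons, act_cons, ih]
    have h1 : y + (b + z.2) = y + b + z.2 := by ring
    simp only [h1]
    push_cast
    ring

theorem act_mulC (L M : List (ℝ × ℝ)) (g : ℝ → ℂ) (y : ℝ) :
    act (mulC L M) g y = act L (act M g) y := by
  induction L with
  | nil => simp [act, mulC]
  | cons x L ih =>
    have h1 : mulC (x :: L) M = (M.map fun z => (x.1 * z.1, x.2 + z.2)) ++ mulC L M := by
      simp [mulC]
    rw [h1, act_append, ih, act_cons, act_map_shift]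

theorem act_one (g : ℝ → ℂ) (y : ℝ) : act [(1, 0)] g y = g y := by simp [act]

theorem ft_append (L M : List (ℝ × ℝ)) (t : ℝ) : ft (L ++ M) t = ft L t + ft M t := by
  simp [ft]

theorem ft_cons (x : ℝ × ℝ) (L : List (ℝ × ℝ)) (t : ℝ) :
    ft (x :: L) t = (x.1 : ℂ) * Complex.exp (((t * x.2 : ℝ) : ℂ) * Complex.I) + ft L t := by
  simp [ft]

theorem ft_sclC (c : ℝ) (L : List (ℝ × ℝ)) (t : ℝ) : ft (sclC c L) t = (c : ℂ) * ft L t := by
  induction L with
  | nil => simp [ft, sclC]
  | cons x L ih =>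
    have h1 : sclC c (x :: L) = (c * x.1, x.2) :: sclC c L := rfl
    rw [h1, ft_cons, ft_cons, ih]
    push_cast
    ring

theorem ft_mulC (L M : List (ℝ × ℝ)) (t : ℝ) : ft (mulC L M) t = ft L t * ft M t := by
  induction L with
  | nil => simp [ft, mulC]
  | cons x L ih =>
    have h1 : mulC (x :: L) M = (M.map fun z => (x.1 * z.1, x.2 + z.2)) ++ mulC L M := by
      simp [mulC]
    have h2 : ft (M.map fun z => (x.1 * z.1, x.2 + z.2)) t =
        (x.1 : ℂ) * Complex.exp (((t * x.2 : ℝ) : ℂ) * Complex.I) * ft M t := by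
      clear ih h1
      induction M with
      | nil => simp [ft]
      | cons z M ih2 =>
        rw [List.map_cons, ft_cons, ft_cons, ih2]
        have h3 : Complex.exp (((t * (x.2 + z.2) : ℝ) : ℂ) * Complex.I) =
            Complex.exp (((t * x.2 : ℝ) : ℂ) * Complex.I) *
              Complex.exp (((t * z.2 : ℝ) : ℂ) * Complex.I) := by
          rw [← Complex.exp_add]
          congr 1
          push_cast
          ring
        simp only [h3]
        push_cast
        ring
    rw [h1, ft_append, ih, ft_cons, h2]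
    ring

theorem ft_one (t : ℝ) : ft [(1, 0)] t = 1 := by simp [ft]

theorem ft_revC (L : List (ℝ × ℝ)) (t : ℝ) : ft (revC L) t = (starRingEnd ℂ) (ft L t) := by
  induction L with
  | nil => simp [ft, revC]
  | cons x L ih =>
    have h1 : revC (x :: L) = (x.1, -x.2) :: revC L := rfl
    rw [h1, ft_cons, ft_cons, ih, map_add, map_mul, Complex.conj_ofReal, ← Complex.exp_conj]
    congr 3
    rw [map_mul, Complex.conj_ofReal, Complex.conj_I]
    push_cast
    ring

theorem mass_nonneg (L : List (ℝ × ℝ)) : 0 ≤ mass L := by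
  unfold mass
  refine List.sum_nonneg ?_
  intro x hx
  rw [List.mem_map] at hx
  obtain ⟨y, -, rfl⟩ := hx
  exact abs_nonneg _

theorem mass_cons (x : ℝ × ℝ) (L : List (ℝ × ℝ)) : mass (x :: L) = |x.1| + mass L := by
  simp [mass]

theorem mass_append (L M : List (ℝ × ℝ)) : mass (L ++ M) = mass L + mass M := by simp [mass]

theorem mass_sclC (c : ℝ) (L : List (ℝ × ℝ)) : mass (sclC c L) = |c| * mass L := by
  induction L with
  | nil => simp [mass, sclC]
  | cons x L ih =>
    have h1 : sclC c (x :: L) = (c * x.1, x.2) :: sclC c L := rfl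
    rw [h1, mass_cons, mass_cons, ih, abs_mul]
    ring

theorem mass_mulC (L M : List (ℝ × ℝ)) : mass (mulC L M) = mass L * mass M := by
  induction L with
  | nil => simp [mass, mulC]
  | cons x L ih =>
    have h1 : mulC (x :: L) M = (M.map fun z => (x.1 * z.1, x.2 + z.2)) ++ mulC L M := by
      simp [mulC]
    have h2 : mass (M.map fun z => (x.1 * z.1, x.2 + z.2)) = |x.1| * mass M := by
      clear ih h1
      induction M with
      | nil => simp [mass]
      | cons z M ih2 =>
        rw [List.map_cons, mass_cons, mass_cons, ih2, abs_mul]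
        ring
    rw [h1, mass_append, ih, mass_cons, h2]
    ring

theorem mass_revC (L : List (ℝ × ℝ)) : mass (revC L) = mass L := by
  unfold mass revC
  rw [List.map_map]
  rfl

theorem shiftLe_append {L M : List (ℝ × ℝ)} {R : ℝ} (hL : shiftLe L R) (hM : shiftLe M R) :
    shiftLe (L ++ M) R := by
  intro x hx
  rcases List.mem_append.1 hx with h | h
  · exact hL x h
  · exact hM x h

theorem shiftLe_mono {L : List (ℝ × ℝ)} {R R' : ℝ} (h : shiftLe L R) (hR : R ≤ R') :
    shiftLe L R' := fun x hx => (h x hx).trans hR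

theorem shiftLe_sclC {L : List (ℝ × ℝ)} {R : ℝ} (h : shiftLe L R) (c : ℝ) :
    shiftLe (sclC c L) R := by
  intro x hx
  unfold sclC at hx
  rw [List.mem_map] at hx
  obtain ⟨y, hy, rfl⟩ := hx
  exact h y hy

theorem shiftLe_mulC {L M : List (ℝ × ℝ)} {R R' : ℝ} (hL : shiftLe L R) (hM : shiftLe M R') :
    shiftLe (mulC L M) (R + R') := by
  intro x hx
  unfold mulC at hx
  rw [List.mem_flatMap] at hx
  obtain ⟨y, hy, hx⟩ := hx
  rw [List.mem_map] at hx
  obtain ⟨z, hz, rfl⟩ := hx
  exact (abs_add_le _ _).trans (add_le_add (hL y hy) (hM z hz))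

theorem norm_act_le (L : List (ℝ × ℝ)) (g : ℝ → ℂ) {B : ℝ} (hg : ∀ y, ‖g y‖ ≤ B) (y : ℝ) :
    ‖act L g y‖ ≤ mass L * B := by
  induction L with
  | nil => simp [act, mass]
  | cons x L ih =>
    rw [act_cons, mass_cons, add_mul]
    refine (norm_add_le _ _).trans (add_le_add ?_ ih)
    rw [norm_mul, Complex.norm_real, Real.norm_eq_abs]
    exact mul_le_mul_of_nonneg_left (hg _) (abs_nonneg _)

theorem measurable_act (L : List (ℝ × ℝ)) {g : ℝ → ℂ} (hg : Measurable g) :
    Measurable (act L g) := by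
  induction L with
  | nil =>
    have : act [] g = fun _ => 0 := by
      funext y
      exact act_nil g y
    rw [this]
    exact measurable_const
  | cons x L ih =>
    have : act (x :: L) g = fun y => (x.1 : ℂ) * g (y + x.2) + act L g y := by
      funext y
      exact act_cons x L g y
    rw [this]
    exact (measurable_const.mul (hg.comp (measurable_id.add_const _))).add ih

/-- If `g` vanishes outside `[α, β]` then `act L g` vanishes outside `[α - R, β + R]`. -/
theorem act_eq_zero {L : List (ℝ × ℝ)} {R : ℝ} (hL : shiftLe L R) {g : ℝ → ℂ} {α β : ℝ}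
    (hg : ∀ y, (y < α ∨ β < y) → g y = 0) {y : ℝ} (hy : y < α - R ∨ β + R < y) :
    act L g y = 0 := by
  induction L with
  | nil => exact act_nil g y
  | cons x L ih =>
    have h1 : |x.2| ≤ R := hL x (List.mem_cons_self)
    have h2 := abs_le.1 h1
    rw [act_cons, ih fun z hz => hL z (List.mem_cons_of_mem _ hz), add_zero, hg, mul_zero]
    rcases hy with h | h
    · left
      linarith [h2.2]
    · right
      linarith [h2.1]

/-- The window function `g_X(y) = F(e^y) 1_{X < e^y ≤ lam X}`. -/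
noncomputable def gX (F : ℝ → ℂ) (lam X y : ℝ) : ℂ :=
  if X < Real.exp y ∧ Real.exp y ≤ lam * X then F (Real.exp y) else 0

/-- `m(y) = ∑_{X < n ≤ lam X} μ(n)/n η_s(y - log n)`. -/
noncomputable def mm (lam X s y : ℝ) : ℂ :=
  ∑ n ∈ win X (lam * X), mu n / (n : ℂ) * (eta s (y - Real.log n) : ℂ)

/-- The averaging operator of a set of primes: `q^{-1} ∑_{p ∈ S} (1/p) g(y + log p)`. -/
noncomputable def aC (S : Finset ℕ) : List (ℝ × ℝ) :=
  S.toList.map fun p => (1 / (qs S * p), Real.log p)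

/-- `W1 = ∑_{v ∈ V} q_v`. -/
noncomputable def W1 (H : ℕ) (V : Finset ℕ) : ℝ := ∑ v ∈ V, qs (cell H v)

/-- The operator `AA = ∑_v w_v A_v^* A_v`, `w_v = q_v/W1`. -/
noncomputable def AA (H : ℕ) (V : Finset ℕ) : List (ℝ × ℝ) :=
  V.toList.flatMap fun v =>
    sclC (qs (cell H v) / W1 H V) (mulC (revC (aC (cell H v))) (aC (cell H v)))

/-- `1 - AA`. -/
noncomputable def BB (H : ℕ) (V : Finset ℕ) : List (ℝ × ℝ) := [(1, 0)] ++ sclC (-1) (AA H V)

/-- `OW i = (1 - AA)^i`. -/
noncomputable def OW (H : ℕ) (V : Finset ℕ) : ℕ → List (ℝ × ℝ)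
  | 0 => [(1, 0)]
  | i + 1 => mulC (BB H V) (OW H V i)

/-- `α(t) = ∑_v w_v |a_v(t)|²`. -/
noncomputable def al (H : ℕ) (V : Finset ℕ) (t : ℝ) : ℝ :=
  ∑ v ∈ V, qs (cell H v) / W1 H V * ‖ft (aC (cell H v)) t‖ ^ 2

/-- `‖g‖_2²`. -/
noncomputable def nsq (g : ℝ → ℂ) : ℝ := ∫ y, ‖g y‖ ^ 2

/-- Bounded measurable functions of bounded support. -/
structure Nice (g : ℝ → ℂ) : Prop where
  meas : Measurable g
  bdd : ∃ B : ℝ, ∀ y, ‖g y‖ ≤ B
  supp : ∃ R : ℝ, ∀ y, R < |y| → g y = 0

end Pool.Agent.MOM
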