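import Pool.Agent.MOM.An.Op

/-!
MOM (MP_2b7f8f_an), section 2: basic facts on the operators `aC`, `AA`, `BB`, `OW` of `An/Op.lean`.
`Good H V` = resolution `H ≥ 1`, `V` nonempty, all cells of `V` nonempty.

PROOFS. `mass_aC`: `∑ (1/q)(1/p) = 1`; all coefficients are nonnegative. `shift_AA`: for
`p, p' ∈ cell H v`, `|log p - log p'| ≤ 1/H` (`mem_cell`, take logarithms). `mass_AA`:
`mass = ∑ w_v · 1 · 1 = 1`. `mass_WW`, `shift_WW`, `ft_WW`: induction with `mass_mulC`,
`shiftLe_mulC`, `ft_mulC`; `ft (AA) t = ∑ w_v conj(ft aC) ft aC = al H V t` by `ft_revC`.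
`al` lies in `[0,1]` since `‖ft (aC S) t‖ ≤ mass (aC S) = 1` and `∑ w_v = 1`.
`ft_aC`: `ft (aC S) t = conj (dp S 1 t) / qs S`. `mult_le`: for `0 ≤ α ≤ 1`:
`0 ≤ 1 - (1-α)^i ≤ min(1, iα)` (Bernoulli). `al_big`: if `κ < al` then, since the `v` with
`‖a_v‖² ≤ κ/2` contribute at most `κ/2`, the others contribute more than `κ/2` and at most their weight.
-/

set_option autoImplicit false

namespace Pool.Agent.MOM

open Finset MeasureTheory

/-- Nondegeneracy of the parameters. -/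
structure Good (H : ℕ) (V : Finset ℕ) : Prop where
  one_le : 1 ≤ H
  ne : V.Nonempty
  pos : ∀ v ∈ V, 0 < qs (cell H v)

theorem W1_pos {H : ℕ} {V : Finset ℕ} (h : Good H V) : 0 < W1 H V := by
  unfold W1
  exact Finset.sum_pos h.pos h.ne

theorem sum_w {H : ℕ} {V : Finset ℕ} (h : Good H V) :
    ∑ v ∈ V, qs (cell H v) / W1 H V = 1 := by
  rw [← Finset.sum_div]
  exact div_self (W1_pos h).ne'

private theorem aC_eq (S : Finset ℕ) : aC S =
    S.toList.map fun p : ℕ => ((1 / (qs S * (p : ℝ)), Real.log (p : ℝ)) : ℝ × ℝ) := by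
  unfold aC
  generalize S.toList = l
  induction l with
  | nil => rfl
  | cons a l ih =>
    rw [List.map_cons, ← ih]
    rfl

theorem aC_nonneg (S : Finset ℕ) : ∀ x ∈ aC S, 0 ≤ x.1 := by
  intro x hx
  rw [aC_eq, List.mem_map] at hx
  obtain ⟨p, -, rfl⟩ := hx
  have := qs_nonneg S
  show 0 ≤ 1 / (qs S * p)
  positivity

theorem mass_aC {S : Finset ℕ} (hS : 0 < qs S) : mass (aC S) = 1 := by
  rw [aC_eq]
  unfold mass
  rw [List.map_map]
  have h1 : (S.toList.map ((fun x : ℝ × ℝ => |x.1|) ∘ fun p : ℕ =>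
      ((1 / (qs S * p), Real.log p) : ℝ × ℝ))).sum =
      ∑ p ∈ S, (fun p : ℕ => |1 / (qs S * (p : ℝ))|) p := by
    rw [← Finset.sum_map_toList]
    rfl
  rw [h1]
  have h2 : ∀ p ∈ S, |1 / (qs S * (p : ℝ))| = (1 / qs S) * (1 / (p : ℝ)) := by
    intro p _
    rw [abs_of_nonneg (by positivity)]
    rw [one_div_mul_one_div_rev, mul_comm (p : ℝ)]
  rw [Finset.sum_congr rfl h2, ← Finset.mul_sum]
  show 1 / qs S * qs S = 1
  field_simp

theorem ft_aC (S : Finset ℕ) (t : ℝ) :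
    ft (aC S) t = (starRingEnd ℂ) (dp S (fun _ => 1) t) / (qs S : ℂ) := by
  rw [aC_eq]
  unfold ft dp
  rw [List.map_map]
  have h1 : (S.toList.map ((fun x : ℝ × ℝ => (x.1 : ℂ) *
      Complex.exp (((t * x.2 : ℝ) : ℂ) * Complex.I)) ∘ fun p : ℕ =>
      ((1 / (qs S * p), Real.log p) : ℝ × ℝ))).sum =
      ∑ p ∈ S, (fun p : ℕ => ((1 / (qs S * (p : ℝ)) : ℝ) : ℂ) *
        Complex.exp (((t * Real.log p : ℝ) : ℂ) * Complex.I)) p := by
    rw [← Finset.sum_map_toList]
    rfl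
  rw [h1, map_sum, Finset.sum_div]
  refine Finset.sum_congr rfl fun p _ => ?_
  simp only [map_mul, map_div₀, map_one, map_natCast]
  have h2 : (starRingEnd ℂ) (ph t p) =
      Complex.exp (((t * Real.log p : ℝ) : ℂ) * Complex.I) := by
    unfold ph
    rw [← Complex.exp_conj, map_mul, Complex.conj_ofReal, Complex.conj_I]
    congr 1
    push_cast
    ring
  rw [h2]
  push_cast
  rw [one_div, mul_inv]
  ring

private theorem mass_flatMap (l : List ℕ) (f : ℕ → List (ℝ × ℝ)) :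
    mass (l.flatMap f) = (l.map fun v => mass (f v)).sum := by
  induction l with
  | nil => simp [mass]
  | cons a l ih => rw [List.flatMap_cons, mass_append, ih, List.map_cons, List.sum_cons]

private theorem ft_flatMap (l : List ℕ) (f : ℕ → List (ℝ × ℝ)) (t : ℝ) :
    ft (l.flatMap f) t = (l.map fun v => ft (f v) t).sum := by
  induction l with
  | nil => simp [ft]
  | cons a l ih => rw [List.flatMap_cons, ft_append, ih, List.map_cons, List.sum_cons]

theorem mass_AA {H : ℕ} {V : Finset ℕ} (h : Good H V) : mass (AA H V) = 1 := by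
  unfold AA
  rw [mass_flatMap, Finset.sum_map_toList, ← sum_w h]
  refine Finset.sum_congr rfl fun v hv => ?_
  rw [mass_sclC, mass_mulC, mass_revC, mass_aC (h.pos v hv), mul_one, mul_one]
  exact abs_of_nonneg (div_nonneg (qs_nonneg _) (W1_pos h).le)

theorem shift_AA {H : ℕ} {V : Finset ℕ} (h : Good H V) : shiftLe (AA H V) (1 / (H : ℝ)) := by
  intro x hx
  unfold AA at hx
  rw [List.mem_flatMap] at hx
  obtain ⟨v, -, hx⟩ := hx
  unfold sclC at hx
  rw [List.mem_map] at hx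
  obtain ⟨y, hy, rfl⟩ := hx
  unfold mulC at hy
  rw [List.mem_flatMap] at hy
  obtain ⟨z, hz, hy⟩ := hy
  rw [List.mem_map] at hy
  obtain ⟨w, hw, rfl⟩ := hy
  unfold revC at hz
  rw [List.mem_map] at hz
  obtain ⟨z', hz', rfl⟩ := hz
  rw [aC_eq, List.mem_map] at hz' hw
  obtain ⟨p, hp, rfl⟩ := hz'
  obtain ⟨p', hp', rfl⟩ := hw
  rw [Finset.mem_toList, mem_cell] at hp hp'
  obtain ⟨⟨a1, a2⟩, a3⟩ := hp
  obtain ⟨⟨b1, b2⟩, b3⟩ := hp'
  have hp0 : (0 : ℝ) < p := by exact_mod_cast a3.pos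
  have hp0' : (0 : ℝ) < p' := by exact_mod_cast b3.pos
  have c1 : (v : ℝ) / H ≤ Real.log p := (Real.le_log_iff_exp_le hp0).2 a1
  have c2 : Real.log p < ((v : ℝ) + 1) / H := (Real.log_lt_iff_lt_exp hp0).2 a2
  have d1 : (v : ℝ) / H ≤ Real.log p' := (Real.le_log_iff_exp_le hp0').2 b1
  have d2 : Real.log p' < ((v : ℝ) + 1) / H := (Real.log_lt_iff_lt_exp hp0').2 b2
  have e : ((v : ℝ) + 1) / H = (v : ℝ) / H + 1 / H := by ring
  show |(-Real.log p + Real.log p')| ≤ 1 / (H : ℝ)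
  rw [abs_le]
  constructor <;> linarith

theorem ft_AA (H : ℕ) (V : Finset ℕ) (t : ℝ) : ft (AA H V) t = (al H V t : ℂ) := by
  unfold AA al
  rw [ft_flatMap, Finset.sum_map_toList]
  push_cast
  refine Finset.sum_congr rfl fun v _ => ?_
  rw [ft_sclC, ft_mulC, ft_revC, Complex.conj_mul']
  push_cast
  ring

private theorem norm_ft_le (L : List (ℝ × ℝ)) (t : ℝ) : ‖ft L t‖ ≤ mass L := by
  induction L with
  | nil => simp [ft, mass]
  | cons x L ih =>
    rw [ft_cons, mass_cons]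
    refine (norm_add_le _ _).trans (add_le_add ?_ ih)
    rw [norm_mul, Complex.norm_exp_ofReal_mul_I, mul_one, Complex.norm_real, Real.norm_eq_abs]

theorem al_nonneg {H : ℕ} {V : Finset ℕ} (h : Good H V) (t : ℝ) : 0 ≤ al H V t := by
  unfold al
  refine Finset.sum_nonneg fun v _ => ?_
  have h1 := (W1_pos h).le
  have h2 := qs_nonneg (cell H v)
  positivity

private theorem ft_sq_le {H : ℕ} {V : Finset ℕ} (h : Good H V) (t : ℝ) {v : ℕ} (hv : v ∈ V) :
    ‖ft (aC (cell H v)) t‖ ^ 2 ≤ 1 := by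
  have h1 : ‖ft (aC (cell H v)) t‖ ≤ 1 := (norm_ft_le _ _).trans_eq (mass_aC (h.pos v hv))
  exact pow_le_one₀ (norm_nonneg _) h1

theorem al_le_one {H : ℕ} {V : Finset ℕ} (h : Good H V) (t : ℝ) : al H V t ≤ 1 := by
  unfold al
  rw [← sum_w h]
  refine Finset.sum_le_sum fun v hv => ?_
  have h2 : 0 ≤ qs (cell H v) / W1 H V := div_nonneg (qs_nonneg _) (W1_pos h).le
  exact mul_le_of_le_one_right h2 (ft_sq_le h t hv)

private theorem mass_BB {H : ℕ} {V : Finset ℕ} (h : Good H V) : mass (BB H V) = 2 := by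
  unfold BB
  rw [mass_append, mass_sclC, mass_AA h]
  simp [mass]
  norm_num

theorem mass_WW {H : ℕ} {V : Finset ℕ} (h : Good H V) (i : ℕ) : mass (OW H V i) ≤ 2 ^ i := by
  induction i with
  | zero => simp [OW, mass]
  | succ i ih =>
    show mass (mulC (BB H V) (OW H V i)) ≤ 2 ^ (i + 1)
    rw [mass_mulC, mass_BB h, pow_succ]
    linarith

theorem shift_WW {H : ℕ} {V : Finset ℕ} (h : Good H V) (i : ℕ) :
    shiftLe (OW H V i) ((i : ℝ) / H) := by
  induction i with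
  | zero =>
    intro x hx
    have h1 : x = (1, 0) := by simpa [OW] using hx
    subst h1
    simp
  | succ i ih =>
    show shiftLe (mulC (BB H V) (OW H V i)) _
    have h0 : shiftLe (BB H V) (1 / (H : ℝ)) := by
      unfold BB
      refine shiftLe_append ?_ (shiftLe_sclC (shift_AA h) _)
      intro x hx
      have h1 : x = (1, 0) := by simpa using hx
      subst h1
      simp
    refine shiftLe_mono (shiftLe_mulC h0 ih) (le_of_eq ?_)
    push_cast
    ring

theorem ft_WW (H : ℕ) (V : Finset ℕ) (i : ℕ) (t : ℝ) :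
    ft (OW H V i) t = ((1 - al H V t) ^ i : ℝ) := by
  induction i with
  | zero => simp [OW, ft]
  | succ i ih =>
    show ft (mulC (BB H V) (OW H V i)) t = _
    have h0 : ft (BB H V) t = ((1 - al H V t : ℝ) : ℂ) := by
      unfold BB
      rw [ft_append, ft_one, ft_sclC, ft_AA]
      push_cast
      ring
    rw [ft_mulC, ih, h0]
    push_cast
    ring

theorem act_OW_succ (H : ℕ) (V : Finset ℕ) (i : ℕ) (g : ℝ → ℂ) (y : ℝ) :
    act (OW H V (i + 1)) g y = act (OW H V i) g y - act (AA H V) (act (OW H V i) g) y := by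
  show act (mulC (BB H V) (OW H V i)) g y = _
  rw [act_mulC]
  unfold BB
  rw [act_append, act_one, act_sclC]
  push_cast
  ring

theorem mult_le {a : ℝ} (h0 : 0 ≤ a) (h1 : a ≤ 1) (i : ℕ) :
    0 ≤ 1 - (1 - a) ^ i ∧ 1 - (1 - a) ^ i ≤ 1 ∧ 1 - (1 - a) ^ i ≤ i * a := by
  have h2 : (1 - a) ^ i ≤ 1 := pow_le_one₀ (by linarith) (by linarith)
  have h3 : 0 ≤ (1 - a) ^ i := pow_nonneg (by linarith) _
  have h4 := one_add_mul_le_pow (a := -a) (by linarith) i
  have h5 : (1 : ℝ) + -a = 1 - a := by ring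
  rw [h5] at h4
  refine ⟨by linarith, by linarith, by linarith⟩

theorem al_big {H : ℕ} {V : Finset ℕ} (h : Good H V) {κ : ℝ} (hκ : 0 < κ) {t : ℝ}
    (ht : κ < al H V t) :
    1 ≤ 2 / κ * ∑ v ∈ V.filter (fun v => κ / 2 < ‖ft (aC (cell H v)) t‖ ^ 2),
      qs (cell H v) / W1 H V := by
  have hw : ∀ v, 0 ≤ qs (cell H v) / W1 H V := fun v =>
    div_nonneg (qs_nonneg _) (W1_pos h).le
  have h1 : al H V t ≤ (∑ v ∈ V.filter (fun v => κ / 2 < ‖ft (aC (cell H v)) t‖ ^ 2),
      qs (cell H v) / W1 H V) + κ / 2 := by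
    unfold al
    rw [← Finset.sum_filter_add_sum_filter_not V
      (fun v => κ / 2 < ‖ft (aC (cell H v)) t‖ ^ 2)]
    refine add_le_add ?_ ?_
    · refine Finset.sum_le_sum fun v hv => ?_
      exact mul_le_of_le_one_right (hw v) (ft_sq_le h t (Finset.mem_filter.1 hv).1)
    · have h2 : ∀ v ∈ V.filter (fun v => ¬ κ / 2 < ‖ft (aC (cell H v)) t‖ ^ 2),
          qs (cell H v) / W1 H V * ‖ft (aC (cell H v)) t‖ ^ 2 ≤
            qs (cell H v) / W1 H V * (κ / 2) := by
        intro v hv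
        exact mul_le_mul_of_nonneg_left (not_lt.1 (Finset.mem_filter.1 hv).2) (hw v)
      refine (Finset.sum_le_sum h2).trans ?_
      refine (Finset.sum_le_sum_of_subset_of_nonneg (Finset.filter_subset _ _)
        fun v _ _ => mul_nonneg (hw v) (by linarith)).trans ?_
      rw [← Finset.sum_mul, sum_w h, one_mul]
  have h2 : κ / 2 ≤ ∑ v ∈ V.filter (fun v => κ / 2 < ‖ft (aC (cell H v)) t‖ ^ 2),
      qs (cell H v) / W1 H V := by linarith
  calc (1 : ℝ) = 2 / κ * (κ / 2) := by field_simp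
    _ ≤ _ := mul_le_mul_of_nonneg_left h2 (by positivity)

end Pool.Agent.MOM
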