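import Pool.Agent.MOM.An.Parseval
import Pool.Agent.MOM.An.GX

/-!
MOM (MP_2b7f8f_an), section 2 (A): the comparison of `∫ (act L g) m` with a mean square of
`M_X`.

PROOF of `pair_le`: `∫ (act L g) m = ∫ g (act (revC L) m)` (translation invariance, induction on
`L`; all functions are integrable: `g` is bounded of bounded support, `m` is continuous),
Cauchy-Schwarz (`∫ ‖g‖² ≤ 1`), and
`act (revC L) m (y) = ∑_n ∑_{(c,b) ∈ L} (μ(n)/n) c η_s(y - b - log n)` is a finite sum of
Gaussians with `∑ a_j e^{-ity_j} = MX lam X t · conj (ft L t)` (index set: pairs of `n` and a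
position in `L`). So
`‖∫ (act L g) m‖² ≤ nsq g · (1/2π) ∫ ‖ft L t‖² ‖MX lam X t‖² e^{-s²t²} dt`.
-/

set_option autoImplicit false

namespace Pool.Agent.MOM

open Finset MeasureTheory

theorem pair_mm_continuous (lam X s : ℝ) : Continuous (mm lam X s) := by
  unfold mm
  refine continuous_finsetSum _ fun n _ => continuous_const.mul ?_
  exact Complex.continuous_ofReal.comp
    ((continuous_eta s).comp (continuous_id.sub continuous_const))

theorem pair_act_continuous (L : List (ℝ × ℝ)) {m : ℝ → ℂ} (hm : Continuous m) :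
    Continuous (act L m) := by
  induction L with
  | nil =>
    have : act [] m = fun _ => 0 := by
      funext y
      exact act_nil m y
    rw [this]
    exact continuous_const
  | cons x L ih =>
    have : act (x :: L) m = fun y => (x.1 : ℂ) * m (y + x.2) + act L m y := by
      funext y
      exact act_cons x L m y
    rw [this]
    exact (continuous_const.mul (hm.comp (continuous_id.add continuous_const))).add ih

theorem pair_integrable {g : ℝ → ℂ} (hg : Nice g) {m : ℝ → ℂ} (hm : Continuous m) :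
    Integrable fun y => g y * m y := by
  obtain ⟨B, hB⟩ := hg.bdd
  obtain ⟨R, hR⟩ := hg.supp
  have hc : IsCompact (Set.Icc (-R) R) := isCompact_Icc
  obtain ⟨C, hC⟩ := hc.exists_bound_of_continuousOn hm.continuousOn
  have h1 : IntegrableOn (fun y => g y * m y) (Set.Icc (-R) R) := by
    refine Measure.integrableOn_of_bounded (M := B * C) hc.measure_lt_top.ne
      (hg.meas.mul hm.measurable).aestronglyMeasurable ?_
    rw [ae_restrict_iff' measurableSet_Icc]
    refine Filter.Eventually.of_forall fun y hy => ?_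
    rw [norm_mul]
    have h0 : 0 ≤ B := (norm_nonneg (g y)).trans (hB y)
    exact mul_le_mul (hB y) (hC y hy) (norm_nonneg _) h0
  refine h1.integrable_of_forall_notMem_eq_zero fun y hy => ?_
  have h2 : R < |y| := by
    by_contra h
    exact hy (abs_le.1 (not_lt.1 h))
  rw [hR y h2, zero_mul]

theorem pair_shift_nice {g : ℝ → ℂ} (hg : Nice g) (b : ℝ) : Nice fun y => g (y + b) := by
  obtain ⟨B, hB⟩ := hg.bdd
  obtain ⟨R, hR⟩ := hg.supp
  refine ⟨hg.meas.comp (measurable_id.add_const _), ⟨B, fun y => hB _⟩,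
    ⟨R + |b|, fun y hy => hR _ ?_⟩⟩
  have h1 : |y| ≤ |y + b| + |b| := by
    have h2 : y = (y + b) + (-b) := by ring
    calc |y| = |(y + b) + (-b)| := by rw [← h2]
      _ ≤ |y + b| + |(-b)| := abs_add_le _ _
      _ = |y + b| + |b| := by rw [abs_neg]
  linarith

theorem pair_act_integrable {g : ℝ → ℂ} (hg : Nice g) {m : ℝ → ℂ} (hm : Continuous m)
    (L : List (ℝ × ℝ)) : Integrable fun y => act L g y * m y := by
  induction L with
  | nil =>
    have : (fun y => act [] g y * m y) = fun _ => 0 := by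
      funext y
      rw [act_nil, zero_mul]
    rw [this]
    exact integrable_zero _ _ _
  | cons x L ih =>
    have : (fun y => act (x :: L) g y * m y) =
        fun y => (x.1 : ℂ) * (g (y + x.2) * m y) + act L g y * m y := by
      funext y
      rw [act_cons]
      ring
    rw [this]
    exact ((pair_integrable (pair_shift_nice hg x.2) hm).const_mul _).add ih

theorem pair_adjoint {g : ℝ → ℂ} (hg : Nice g) {m : ℝ → ℂ} (hm : Continuous m)
    (L : List (ℝ × ℝ)) :
    ∫ y, act L g y * m y = ∫ y, g y * act (revC L) m y := by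
  induction L with
  | nil => simp [act, revC]
  | cons x L ih =>
    have h1 : revC (x :: L) = (x.1, -x.2) :: revC L := rfl
    have h2 : (fun y => act (x :: L) g y * m y) =
        fun y => (x.1 : ℂ) * (g (y + x.2) * m y) + act L g y * m y := by
      funext y
      rw [act_cons]
      ring
    have h3 : (fun y => g y * act (revC (x :: L)) m y) =
        fun y => (x.1 : ℂ) * (g y * m (y + -x.2)) + g y * act (revC L) m y := by
      funext y
      rw [h1, act_cons]
      ring
    have hi1 := pair_integrable (pair_shift_nice hg x.2) hm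
    have hi2 := pair_act_integrable hg hm L
    have hi3 : Integrable fun y => g y * m (y + -x.2) :=
      pair_integrable hg (hm.comp (continuous_id.add continuous_const))
    have hi4 : Integrable fun y => g y * act (revC L) m y :=
      pair_integrable hg (pair_act_continuous _ hm)
    rw [h2, h3, integral_add (hi1.const_mul _) hi2, integral_add (hi3.const_mul _) hi4,
      integral_const_mul, integral_const_mul, ih]
    congr 2
    have h4 := integral_add_right_eq_self (μ := volume) (fun y => g y * m (y + -x.2)) x.2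
    rw [← h4]
    refine integral_congr_ae (Filter.Eventually.of_forall fun y => ?_)
    have h5 : y + x.2 + -x.2 = y := by ring
    simp only [h5]

theorem pair_cs {f h : ℝ → ℂ} (hf : Measurable f) (hh : Measurable h)
    (hf2 : Integrable fun y => ‖f y‖ ^ 2) (hh2 : Integrable fun y => ‖h y‖ ^ 2) :
    ‖∫ y, f y * h y‖ ^ 2 ≤ (∫ y, ‖f y‖ ^ 2) * ∫ y, ‖h y‖ ^ 2 := by
  have hfL : MemLp f (ENNReal.ofReal 2) := by
    rw [show ENNReal.ofReal 2 = 2 by norm_num]
    exact (memLp_two_iff_integrable_sq_norm hf.aestronglyMeasurable).2 hf2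
  have hhL : MemLp h (ENNReal.ofReal 2) := by
    rw [show ENNReal.ofReal 2 = 2 by norm_num]
    exact (memLp_two_iff_integrable_sq_norm hh.aestronglyMeasurable).2 hh2
  have hpq : (2 : ℝ).HolderConjugate 2 := Real.HolderConjugate.two_two
  have h1 := integral_mul_norm_le_Lp_mul_Lq hpq hfL hhL
  have h2 : ‖∫ y, f y * h y‖ ≤ ∫ y, ‖f y‖ * ‖h y‖ := by
    refine (norm_integral_le_integral_norm _).trans (le_of_eq ?_)
    simp only [norm_mul]
  have h3 := h2.trans h1
  have h4 : ∀ k : ℝ → ℂ, (fun y => ‖k y‖ ^ (2 : ℝ)) = fun y => ‖k y‖ ^ 2 := by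
    intro k
    funext y
    exact Real.rpow_two _
  rw [h4 f, h4 h, ← Real.sqrt_eq_rpow, ← Real.sqrt_eq_rpow] at h3
  have h5 : 0 ≤ ∫ y, ‖f y‖ ^ 2 := integral_nonneg fun y => by positivity
  have h6 : 0 ≤ ∫ y, ‖h y‖ ^ 2 := integral_nonneg fun y => by positivity
  calc ‖∫ y, f y * h y‖ ^ 2
      ≤ (Real.sqrt (∫ y, ‖f y‖ ^ 2) * Real.sqrt (∫ y, ‖h y‖ ^ 2)) ^ 2 :=
        pow_le_pow_left₀ (norm_nonneg _) h3 2
    _ = (∫ y, ‖f y‖ ^ 2) * ∫ y, ‖h y‖ ^ 2 := by
        rw [mul_pow, Real.sq_sqrt h5, Real.sq_sqrt h6]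

theorem pair_eta_integrable {s : ℝ} (hs : 0 < s) (b : ℝ) :
    Integrable fun x => eta s (x - b) := by
  have h1 : Integrable fun x => eta s x := by
    unfold eta
    refine Integrable.const_mul ?_ _
    have h2 := integrable_exp_neg_mul_sq (b := (2 * s ^ 2)⁻¹) (by positivity)
    refine h2.congr (Filter.Eventually.of_forall fun x => ?_)
    show Real.exp (-(2 * s ^ 2)⁻¹ * x ^ 2) = Real.exp (-(x ^ 2) / (2 * s ^ 2))
    congr 1
    field_simp
  exact h1.comp_sub_right b

theorem pair_eta_le {s : ℝ} (hs : 0 < s) (y : ℝ) :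
    eta s y ≤ (s * Real.sqrt (2 * Real.pi))⁻¹ := by
  unfold eta
  have h1 : 0 ≤ (s * Real.sqrt (2 * Real.pi))⁻¹ := by positivity
  refine mul_le_of_le_one_right h1 ?_
  rw [Real.exp_le_one_iff]
  have h2 : 0 ≤ y ^ 2 / (2 * s ^ 2) := by positivity
  rw [neg_div]
  linarith

theorem pair_sq_integrable {ι : Type} (J : Finset ι) (a : ι → ℂ) (y : ι → ℝ) {s : ℝ}
    (hs : 0 < s) :
    Integrable fun x => ‖∑ j ∈ J, a j * (eta s (x - y j) : ℂ)‖ ^ 2 := by
  have h1 : Integrable fun x => ∑ j ∈ J, a j * (eta s (x - y j) : ℂ) :=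
    integrable_finsetSum _ fun j _ => ((pair_eta_integrable hs (y j)).ofReal).const_mul _
  have h2 : ∀ x, ‖∑ j ∈ J, a j * (eta s (x - y j) : ℂ)‖ ≤
      ∑ j ∈ J, ‖a j‖ * (s * Real.sqrt (2 * Real.pi))⁻¹ := by
    intro x
    refine (norm_sum_le _ _).trans (Finset.sum_le_sum fun j _ => ?_)
    rw [norm_mul, Complex.norm_real, Real.norm_eq_abs, abs_of_nonneg (eta_nonneg hs.le _)]
    exact mul_le_mul_of_nonneg_left (pair_eta_le hs _) (norm_nonneg _)
  have h3 := h1.norm.bdd_mul (c := ∑ j ∈ J, ‖a j‖ * (s * Real.sqrt (2 * Real.pi))⁻¹)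
    h1.norm.aestronglyMeasurable (Filter.Eventually.of_forall fun x => by
      rw [norm_norm]
      exact h2 x)
  refine h3.congr (Filter.Eventually.of_forall fun x => ?_)
  simp only [sq]

theorem pair_le {F : ℝ → ℂ} (hF : Sampled F) {lam X s : ℝ} (hl : 1 < lam) (hl2 : lam ≤ 2)
    (hX : 0 < X) (hs : 0 < s) (L : List (ℝ × ℝ)) :
    ‖∫ y, act L (gX F lam X) y * mm lam X s y‖ ^ 2 ≤ (2 * Real.pi)⁻¹ *
      ∫ t, ‖ft L t‖ ^ 2 * ‖MX lam X t‖ ^ 2 * Real.exp (-(s ^ 2 * t ^ 2)) := by
  have hg := gX_nice hF hl hX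
  have hm := pair_mm_continuous lam X s
  rw [pair_adjoint hg hm L]
  set M := revC L with hM
  let J : Finset (ℕ × Fin M.length) := (win X (lam * X)) ×ˢ Finset.univ
  let a : ℕ × Fin M.length → ℂ := fun j => ((M[j.2.1]).1 : ℂ) * (mu j.1 / (j.1 : ℂ))
  let z : ℕ × Fin M.length → ℝ := fun j => Real.log j.1 - (M[j.2.1]).2
  have hrep : ∀ y, act M (mm lam X s) y = ∑ j ∈ J, a j * (eta s (y - z j) : ℂ) := by
    intro y
    have h1 : act M (mm lam X s) y =
        ∑ i : Fin M.length, ((M[i.1]).1 : ℂ) * mm lam X s (y + (M[i.1]).2) := by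
      unfold act
      rw [← Fin.sum_univ_fun_getElem]
    rw [h1]
    show _ = ∑ j ∈ (win X (lam * X)) ×ˢ Finset.univ, a j * (eta s (y - z j) : ℂ)
    rw [Finset.sum_product_right]
    refine Finset.sum_congr rfl fun i _ => ?_
    unfold mm
    rw [Finset.mul_sum]
    refine Finset.sum_congr rfl fun n _ => ?_
    have h2 : y - z (n, i) = y + (M[i.1]).2 - Real.log n := by
      show y - (Real.log n - (M[i.1]).2) = _
      ring
    rw [h2]
    show _ = ((M[i.1]).1 : ℂ) * (mu n / (n : ℂ)) * _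
    ring
  have hfou : ∀ t, ∑ j ∈ J, a j * Complex.exp (((-(t * z j) : ℝ) : ℂ) * Complex.I) =
      ft M t * MX lam X t := by
    intro t
    show ∑ j ∈ (win X (lam * X)) ×ˢ Finset.univ, _ = _
    rw [Finset.sum_product_right]
    unfold ft MX dp
    rw [← Fin.sum_univ_fun_getElem, Finset.sum_mul]
    refine Finset.sum_congr rfl fun i _ => ?_
    rw [Finset.mul_sum]
    refine Finset.sum_congr rfl fun n _ => ?_
    have h2 : Complex.exp (((-(t * z (n, i)) : ℝ) : ℂ) * Complex.I) =
        Complex.exp (((t * (M[i.1]).2 : ℝ) : ℂ) * Complex.I) * ph t n := by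
      unfold ph
      rw [← Complex.exp_add]
      congr 1
      have h3 : -(t * z (n, i)) = t * (M[i.1]).2 + -(t * Real.log n) := by
        show -(t * (Real.log n - (M[i.1]).2)) = _
        ring
      rw [h3]
      push_cast
      ring
    rw [h2]
    show ((M[i.1]).1 : ℂ) * (mu n / (n : ℂ)) * _ = _
    ring
  have hpar := parseval_gauss J a z hs
  have hsq := pair_sq_integrable J a z hs
  have h1 : (fun x => ‖∑ j ∈ J, a j * (eta s (x - z j) : ℂ)‖ ^ 2) =
      fun x => ‖act M (mm lam X s) x‖ ^ 2 := by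
    funext x
    rw [hrep x]
  rw [h1] at hpar hsq
  have h2 : ∀ t, ‖∑ j ∈ J, a j * Complex.exp (((-(t * z j) : ℝ) : ℂ) * Complex.I)‖ ^ 2 *
      Real.exp (-(s ^ 2 * t ^ 2)) =
      ‖ft L t‖ ^ 2 * ‖MX lam X t‖ ^ 2 * Real.exp (-(s ^ 2 * t ^ 2)) := by
    intro t
    rw [hfou t, norm_mul, hM, ft_revC, RCLike.norm_conj, mul_pow]
  simp only [h2] at hpar
  rw [← hpar]
  have hgi : Integrable fun y => ‖gX F lam X y‖ ^ 2 := by
    obtain ⟨B, hB⟩ := hg.bdd
    obtain ⟨R, hR⟩ := hg.supp
    have h3 : IntegrableOn (fun y => ‖gX F lam X y‖ ^ 2) (Set.Icc (-R) R) := by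
      refine Measure.integrableOn_of_bounded (M := B ^ 2) isCompact_Icc.measure_lt_top.ne
        (hg.meas.norm.pow_const 2).aestronglyMeasurable ?_
      refine Filter.Eventually.of_forall fun y => ?_
      rw [norm_pow, norm_norm]
      exact pow_le_pow_left₀ (norm_nonneg _) (hB y) 2
    refine h3.integrable_of_forall_notMem_eq_zero fun y hy => ?_
    have h4 : R < |y| := by
      by_contra h
      exact hy (abs_le.1 (not_lt.1 h))
    rw [hR y h4]
    simp
  have hcs := pair_cs hg.meas (pair_act_continuous M hm).measurable hgi hsq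
  refine hcs.trans ?_
  have h5 : 0 ≤ ∫ y, ‖act M (mm lam X s) y‖ ^ 2 := integral_nonneg fun y => by positivity
  have h6 : (∫ y, ‖gX F lam X y‖ ^ 2) ≤ 1 := nsq_gX_le hF hl hl2 hX
  calc (∫ y, ‖gX F lam X y‖ ^ 2) * ∫ y, ‖act M (mm lam X s) y‖ ^ 2
      ≤ 1 * ∫ y, ‖act M (mm lam X s) y‖ ^ 2 := mul_le_mul_of_nonneg_right h6 h5
    _ = _ := one_mul _

end Pool.Agent.MOM
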