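import Pool.Agent.MOM.An.Op

/-!
MOM (MP_2b7f8f_an): Parseval for finite sums of translated Gaussians.

PROOF. `∫ η_s(x-a) η_s(x-b) dx = (2s√π)^{-1} e^{-(a-b)²/(4s²)}` (complete the square, Gaussian
integral) and `(1/2π) ∫ e^{-i(a-b)t} e^{-s²t²} dt = (1/2π)(√π/s) e^{-(a-b)²/(4s²)}`, the same number
(Mathlib: Fourier transform of a Gaussian). Expand both squares (finite double sums).
-/

set_option autoImplicit false

namespace Pool.Agent.MOM

open Finset MeasureTheory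

/-- the common value -/
private noncomputable def kd (s d : ℝ) : ℝ :=
  (2 * s * Real.sqrt Real.pi)⁻¹ * Real.exp (-(d ^ 2) / (4 * s ^ 2))

private theorem eta_mul {s : ℝ} (hs : 0 < s) (a b x : ℝ) : eta s (x - a) * eta s (x - b) =
    (2 * Real.pi * s ^ 2)⁻¹ * Real.exp (-((a - b) ^ 2) / (4 * s ^ 2)) *
      Real.exp (-(1 / s ^ 2) * (x - (a + b) / 2) ^ 2) := by
  unfold eta
  have h1 : Real.sqrt (2 * Real.pi) * Real.sqrt (2 * Real.pi) = 2 * Real.pi :=
    Real.mul_self_sqrt (by positivity)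
  have h2 : (s * Real.sqrt (2 * Real.pi))⁻¹ * (s * Real.sqrt (2 * Real.pi))⁻¹ =
      (2 * Real.pi * s ^ 2)⁻¹ := by
    rw [← mul_inv]
    congr 1
    linear_combination s ^ 2 * h1
  have h3 : Real.exp (-((x - a) ^ 2) / (2 * s ^ 2)) * Real.exp (-((x - b) ^ 2) / (2 * s ^ 2)) =
      Real.exp (-((a - b) ^ 2) / (4 * s ^ 2)) *
        Real.exp (-(1 / s ^ 2) * (x - (a + b) / 2) ^ 2) := by
    rw [← Real.exp_add, ← Real.exp_add]
    congr 1
    field_simp
    ring
  rw [mul_mul_mul_comm, h2, h3, ← mul_assoc]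

private theorem integrable_etaeta {s : ℝ} (hs : 0 < s) (a b : ℝ) :
    Integrable fun x => eta s (x - a) * eta s (x - b) := by
  have h1 : (fun x => eta s (x - a) * eta s (x - b)) = fun x =>
      (2 * Real.pi * s ^ 2)⁻¹ * Real.exp (-((a - b) ^ 2) / (4 * s ^ 2)) *
      Real.exp (-(1 / s ^ 2) * (x - (a + b) / 2) ^ 2) := funext fun x => eta_mul hs a b x
  rw [h1]
  have h2 : 0 < 1 / s ^ 2 := by positivity
  exact ((integrable_exp_neg_mul_sq h2).comp_sub_right _).const_mul _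

private theorem integral_etaeta {s : ℝ} (hs : 0 < s) (a b : ℝ) :
    ∫ x, eta s (x - a) * eta s (x - b) = kd s (a - b) := by
  have h1 : (fun x => eta s (x - a) * eta s (x - b)) = fun x =>
      (2 * Real.pi * s ^ 2)⁻¹ * Real.exp (-((a - b) ^ 2) / (4 * s ^ 2)) *
      Real.exp (-(1 / s ^ 2) * (x - (a + b) / 2) ^ 2) := funext fun x => eta_mul hs a b x
  rw [h1, integral_const_mul,
    integral_sub_right_eq_self (fun x => Real.exp (-(1 / s ^ 2) * x ^ 2)), integral_gaussian]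
  have h2 : Real.sqrt (Real.pi / (1 / s ^ 2)) = Real.sqrt Real.pi * s := by
    rw [div_div_eq_mul_div, div_one, Real.sqrt_mul Real.pi_pos.le, Real.sqrt_sq hs.le]
  rw [h2]
  unfold kd
  have h3 : Real.sqrt Real.pi * Real.sqrt Real.pi = Real.pi :=
    Real.mul_self_sqrt Real.pi_pos.le
  have h4 : 0 < Real.sqrt Real.pi := Real.sqrt_pos.2 Real.pi_pos
  have h5' : ∀ r : ℝ, 0 < r → (2 * (r * r) * s ^ 2)⁻¹ * (r * s) = (2 * s * r)⁻¹ := by
    intro r hr
    field_simp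
  have h5 := h5' _ h4
  rw [h3] at h5
  rw [← h5]
  ring

private theorem integrable_ft {s : ℝ} (hs : 0 < s) (d : ℝ) :
    Integrable fun t : ℝ => Complex.exp (((-(t * d) : ℝ) : ℂ) * Complex.I) *
      ((Real.exp (-(s ^ 2 * t ^ 2)) : ℝ) : ℂ) := by
  have h1 : Integrable fun t : ℝ => ((Real.exp (-(s ^ 2 * t ^ 2)) : ℝ) : ℂ) := by
    have h2 : Integrable fun t : ℝ => Real.exp (-(s ^ 2 * t ^ 2)) := by
      have h3 := integrable_exp_neg_mul_sq (b := s ^ 2) (by positivity)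
      simpa only [neg_mul] using h3
    exact h2.ofReal
  refine h1.bdd_mul (c := 1) ?_ ?_
  · exact (by fun_prop : Continuous fun t : ℝ =>
      Complex.exp (((-(t * d) : ℝ) : ℂ) * Complex.I)).aestronglyMeasurable
  · exact Filter.Eventually.of_forall fun t => (Complex.norm_exp_ofReal_mul_I _).le

private theorem integral_ft {s : ℝ} (hs : 0 < s) (d : ℝ) :
    ((2 * Real.pi : ℝ) : ℂ)⁻¹ * ∫ t : ℝ, Complex.exp (((-(t * d) : ℝ) : ℂ) * Complex.I) *
      ((Real.exp (-(s ^ 2 * t ^ 2)) : ℝ) : ℂ) = (kd s d : ℂ) := by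
  have hb : 0 < (((s ^ 2 : ℝ) : ℂ)).re := by
    rw [Complex.ofReal_re]
    positivity
  have h1 := fourierIntegral_gaussian hb (-(d : ℂ))
  have h2 : (fun t : ℝ => Complex.exp (((-(t * d) : ℝ) : ℂ) * Complex.I) *
      ((Real.exp (-(s ^ 2 * t ^ 2)) : ℝ) : ℂ)) = fun t : ℝ =>
      Complex.exp (Complex.I * (-(d : ℂ)) * t) *
        Complex.exp (-((s ^ 2 : ℝ) : ℂ) * (t : ℂ) ^ 2) := by
    funext t
    rw [Complex.ofReal_exp]
    congr 1
    · congr 1
      push_cast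
      ring
    · congr 1
      push_cast
      ring
  rw [h2, h1]
  have h3 : ((Real.pi : ℂ) / ((s ^ 2 : ℝ) : ℂ)) ^ (1 / 2 : ℂ) =
      ((Real.sqrt (Real.pi / s ^ 2) : ℝ) : ℂ) := by
    rw [Real.sqrt_eq_rpow, Complex.ofReal_cpow (by positivity)]
    push_cast
    rfl
  have h4 : Complex.exp (-(-(d : ℂ)) ^ 2 / (4 * ((s ^ 2 : ℝ) : ℂ))) =
      ((Real.exp (-(d ^ 2) / (4 * s ^ 2)) : ℝ) : ℂ) := by
    rw [Complex.ofReal_exp]
    congr 1
    push_cast
    ring
  rw [h3, h4]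
  unfold kd
  have h5 : Real.sqrt (Real.pi / s ^ 2) = Real.sqrt Real.pi / s := by
    rw [Real.sqrt_div Real.pi_pos.le, Real.sqrt_sq hs.le]
  rw [h5, ← Complex.ofReal_inv, ← Complex.ofReal_mul, ← Complex.ofReal_mul]
  congr 1
  have h6 : Real.sqrt Real.pi * Real.sqrt Real.pi = Real.pi :=
    Real.mul_self_sqrt Real.pi_pos.le
  have h7 : 0 < Real.sqrt Real.pi := Real.sqrt_pos.2 Real.pi_pos
  have h8' : ∀ r : ℝ, 0 < r → (2 * (r * r))⁻¹ * (r / s) = (2 * s * r)⁻¹ := by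
    intro r hr
    field_simp
  have h8 := h8' _ h7
  rw [h6] at h8
  rw [← mul_assoc, h8]

private theorem normsq_sum {ι : Type} (J : Finset ι) (f : ι → ℂ) :
    ((‖∑ j ∈ J, f j‖ ^ 2 : ℝ) : ℂ) = ∑ j ∈ J, ∑ k ∈ J, f j * (starRingEnd ℂ) (f k) := by
  rw [Complex.ofReal_pow, ← Complex.conj_mul', map_sum, Finset.sum_mul_sum, Finset.sum_comm]
  refine Finset.sum_congr rfl fun j _ => Finset.sum_congr rfl fun k _ => ?_
  ring

theorem parseval_gauss {ι : Type} (J : Finset ι) (a : ι → ℂ) (y : ι → ℝ) {s : ℝ} (hs : 0 < s) :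
    ∫ x, ‖∑ j ∈ J, a j * (eta s (x - y j) : ℂ)‖ ^ 2 = (2 * Real.pi)⁻¹ *
      ∫ t, ‖∑ j ∈ J, a j * Complex.exp (((-(t * y j) : ℝ) : ℂ) * Complex.I)‖ ^ 2 *
        Real.exp (-(s ^ 2 * t ^ 2)) := by
  have hL : ((∫ x, ‖∑ j ∈ J, a j * (eta s (x - y j) : ℂ)‖ ^ 2 : ℝ) : ℂ) =
      ∑ j ∈ J, ∑ k ∈ J, a j * (starRingEnd ℂ) (a k) * (kd s (y j - y k) : ℂ) := by
    rw [← integral_complex_ofReal]
    have h1 : (fun x : ℝ => ((‖∑ j ∈ J, a j * (eta s (x - y j) : ℂ)‖ ^ 2 : ℝ) : ℂ)) =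
        fun x : ℝ => ∑ j ∈ J, ∑ k ∈ J, a j * (starRingEnd ℂ) (a k) *
          ((eta s (x - y j) * eta s (x - y k) : ℝ) : ℂ) := by
      funext x
      rw [normsq_sum]
      refine Finset.sum_congr rfl fun j _ => Finset.sum_congr rfl fun k _ => ?_
      rw [map_mul, Complex.conj_ofReal]
      push_cast
      ring
    have h2 : ∀ j k, Integrable fun x : ℝ => a j * (starRingEnd ℂ) (a k) *
        ((eta s (x - y j) * eta s (x - y k) : ℝ) : ℂ) := fun j k =>
      ((integrable_etaeta hs (y j) (y k)).ofReal (𝕜 := ℂ)).const_mul _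
    rw [h1, integral_finsetSum _ fun j _ => integrable_finsetSum _ fun k _ => h2 j k]
    refine Finset.sum_congr rfl fun j _ => ?_
    rw [integral_finsetSum _ fun k _ => h2 j k]
    refine Finset.sum_congr rfl fun k _ => ?_
    rw [integral_const_mul, integral_complex_ofReal, integral_etaeta hs]
  have hR : (((2 * Real.pi)⁻¹ *
      ∫ t, ‖∑ j ∈ J, a j * Complex.exp (((-(t * y j) : ℝ) : ℂ) * Complex.I)‖ ^ 2 *
        Real.exp (-(s ^ 2 * t ^ 2)) : ℝ) : ℂ) =
      ∑ j ∈ J, ∑ k ∈ J, a j * (starRingEnd ℂ) (a k) * (kd s (y j - y k) : ℂ) := by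
    rw [Complex.ofReal_mul, ← integral_complex_ofReal]
    have h1 : (fun t : ℝ => ((‖∑ j ∈ J, a j *
        Complex.exp (((-(t * y j) : ℝ) : ℂ) * Complex.I)‖ ^ 2 *
        Real.exp (-(s ^ 2 * t ^ 2)) : ℝ) : ℂ)) =
        fun t : ℝ => ∑ j ∈ J, ∑ k ∈ J, a j * (starRingEnd ℂ) (a k) *
          (Complex.exp (((-(t * (y j - y k)) : ℝ) : ℂ) * Complex.I) *
            ((Real.exp (-(s ^ 2 * t ^ 2)) : ℝ) : ℂ)) := by
      funext t
      rw [Complex.ofReal_mul, normsq_sum, Finset.sum_mul]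
      refine Finset.sum_congr rfl fun j _ => ?_
      rw [Finset.sum_mul]
      refine Finset.sum_congr rfl fun k _ => ?_
      have h3 : Complex.exp (((-(t * (y j - y k)) : ℝ) : ℂ) * Complex.I) =
          Complex.exp (((-(t * y j) : ℝ) : ℂ) * Complex.I) *
            (starRingEnd ℂ) (Complex.exp (((-(t * y k) : ℝ) : ℂ) * Complex.I)) := by
        rw [← Complex.exp_conj, map_mul, Complex.conj_ofReal, Complex.conj_I,
          ← Complex.exp_add]
        congr 1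
        push_cast
        ring
      rw [h3, map_mul]
      ring
    have h2 : ∀ j k, Integrable fun t : ℝ => a j * (starRingEnd ℂ) (a k) *
          (Complex.exp (((-(t * (y j - y k)) : ℝ) : ℂ) * Complex.I) *
            ((Real.exp (-(s ^ 2 * t ^ 2)) : ℝ) : ℂ)) := fun j k =>
      (integrable_ft hs (y j - y k)).const_mul _
    rw [h1, integral_finsetSum _ fun j _ => integrable_finsetSum _ fun k _ => h2 j k,
      Finset.mul_sum]
    refine Finset.sum_congr rfl fun j _ => ?_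
    rw [integral_finsetSum _ fun k _ => h2 j k, Finset.mul_sum]
    refine Finset.sum_congr rfl fun k _ => ?_
    rw [integral_const_mul, mul_left_comm, ← integral_ft hs (y j - y k)]
    push_cast
    rfl
  exact Complex.ofReal_injective (hL.trans hR.symm)

end Pool.Agent.MOM
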