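import Pool.Agent.MOM.An.JB
import Pool.Agent.MOM.An.Pair
import Pool.Agent.MOM.An.Disc
import Pool.Agent.MOM.Rec.ThmA

/-!
MOM (MP_2b7f8f_an), section 2, part (A): assembly.

PROOF. `α0` from `thmA`. Given `k`, `ε` (we may assume `0 < ε ≤ 1`), `Bm = 1 + 2^k`,
`L_i = [(1,0)] ++ sclC (-1) (OW i)` = `1 - W`, `mass L_i ≤ Bm`, shifts `≤ i/H ≤ 1`,
`ft L_i t = 1 - (1-α)^i`. Choose `ρ = min(ρ0, 1)` from `disc_list` with `ε/(2 Bm)`; `C = ` the
maximum of the constants of `gauss_mean`, `gauss_tail`; `κ > 0` with `(kκ)² C/ρ ≤ ε²/16`, `κ ≤ 1`;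
`C1` with `(2/κ)(C/ρ) exp(-ρ²C1²/2) ≤ ε²/16`; `η = κ ε²/32`; `P0` from `thmA` (for `lam, C1, η`);
`Pst = max(P0, 2, (2/κ)^{1/α0})`. Let `H ≥ 2`, `k ≤ H`, `V` good as stated, `i < k`, and
`X ≥ X0` (maximum over `v ∈ V` of the `X0` of `thmA` for `S = cell H v`, `P = e^{v/H}` - the cell is
contained in `[P, 2P]` because `e^{1/2} ≤ 2` - and of the `X0` of `disc_list`, and `1`). The sum is
`∑ (μ(n)/n) act L_i g (log n)`, so by `disc_list` and `pair_le` its norm is at most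
`ε/2 + (∫ ‖ft L_i‖² ‖MX‖² e^{-s²t²})^{1/2}`, `s = ρ/X`, and by `jbound` the integral is at most
`(kκ)² C/ρ + (2/κ) ∑ w_v I_v`, with `I_v = ∫_{κ/2 < ‖a_v‖²} ≤ ∫_{|t| ≤ C1 X, κ/2 < ‖a_v‖²} ‖MX‖² +`
`∫_{|t| > C1 X} ≤ η + (C/ρ) exp(-ρ²C1²/2)`. In the first: `‖dp S 1 t‖ = q_v ‖a_v‖ ≥`
`P^{-α0/2} (κ/2)^{1/2} ≥ P^{-α0}` (`ft_aC`, hypothesis on `V`, `P^{α0} ≥ 2/κ`). Total
`≤ 3 ε²/16 ≤ ε²/4`, so the norm is `≤ ε/2 + ε/2`.
-/

set_option autoImplicit false

namespace Pool.Agent.MOM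

open Finset MeasureTheory

private theorem pa_exp_half : Real.exp (1 / 2) ≤ 2 := by
  have h1 := Real.exp_one_lt_d9
  have h2 : Real.exp (1 / 2) * Real.exp (1 / 2) = Real.exp 1 := by
    rw [← Real.exp_add]
    norm_num
  have h3 := Real.exp_pos (1 / 2)
  nlinarith

private theorem pa_cell {H v : ℕ} (hH : 2 ≤ H) {p : ℕ} (hp : p ∈ cell H v) :
    p.Prime ∧ Real.exp ((v : ℝ) / H) ≤ p ∧ (p : ℝ) ≤ 2 * Real.exp ((v : ℝ) / H) := by
  obtain ⟨⟨h1, h2⟩, h3⟩ := mem_cell.1 hp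
  refine ⟨h3, h1, ?_⟩
  have hH' : (2 : ℝ) ≤ H := by exact_mod_cast hH
  have h4 : Real.exp (((v : ℝ) + 1) / H) ≤ 2 * Real.exp ((v : ℝ) / H) := by
    rw [add_div, Real.exp_add, mul_comm]
    refine mul_le_mul_of_nonneg_right ?_ (Real.exp_pos _).le
    refine le_trans (Real.exp_le_exp.2 ?_) pa_exp_half
    exact one_div_le_one_div_of_le (by norm_num) hH'
  linarith

/-- The list of the operator `1 - W`. -/
private noncomputable def paL (H : ℕ) (V : Finset ℕ) (i : ℕ) : List (ℝ × ℝ) :=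
  [(1, 0)] ++ sclC (-1) (OW H V i)

private theorem pa_act (H : ℕ) (V : Finset ℕ) (i : ℕ) (g : ℝ → ℂ) (y : ℝ) :
    act (paL H V i) g y = g y - act (OW H V i) g y := by
  unfold paL
  rw [act_append, act_one, act_sclC]
  push_cast
  ring

private theorem pa_mass {H : ℕ} {V : Finset ℕ} (h : Good H V) {i k : ℕ} (hik : i ≤ k) :
    mass (paL H V i) ≤ 1 + 2 ^ k := by
  unfold paL
  rw [mass_append, mass_sclC]
  have h1 : mass [((1 : ℝ), (0 : ℝ))] = 1 := by simp [mass]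
  have h2 := mass_WW h i
  have h3 : (2 : ℝ) ^ i ≤ 2 ^ k := pow_le_pow_right₀ (by norm_num) hik
  rw [h1, abs_neg, abs_one, one_mul]
  linarith

private theorem pa_shift {H : ℕ} {V : Finset ℕ} (h : Good H V) {i : ℕ} (hi : i ≤ H) :
    shiftLe (paL H V i) 1 := by
  unfold paL
  refine shiftLe_append ?_ (shiftLe_sclC (shiftLe_mono (shift_WW h i) ?_) _)
  · intro x hx
    simp only [List.mem_singleton] at hx
    subst hx
    simp
  · have h1 : (0 : ℝ) < H := by exact_mod_cast h.one_le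
    rw [div_le_one h1]
    exact_mod_cast hi

private theorem pa_ft (H : ℕ) (V : Finset ℕ) (i : ℕ) (t : ℝ) :
    ft (paL H V i) t = ((1 - (1 - al H V t) ^ i : ℝ) : ℂ) := by
  unfold paL
  rw [ft_append, ft_one, ft_sclC, ft_WW]
  push_cast
  ring

private theorem pa_mono_set {f g : ℝ → ℝ} {s A B : Set ℝ} (hs : MeasurableSet s)
    (hA : MeasurableSet A) (hB : MeasurableSet B) (hsub : s ⊆ A ∪ B) (hf : Integrable f)
    (hg : IntegrableOn g A) (hf0 : ∀ t, 0 ≤ f t) (hfg : ∀ t, f t ≤ g t) :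
    ∫ t in s, f t ≤ (∫ t in A, g t) + ∫ t in B, f t := by
  rw [← integral_indicator hs, ← integral_indicator hA, ← integral_indicator hB,
    ← integral_add (hg.integrable_indicator hA) (hf.indicator hB)]
  refine integral_mono (hf.indicator hs)
    ((hg.integrable_indicator hA).add (hf.indicator hB)) fun t => ?_
  by_cases hts : t ∈ s
  · rw [Set.indicator_of_mem hts]
    have hg0 : 0 ≤ g t := (hf0 t).trans (hfg t)
    rcases hsub hts with h | h
    · show f t ≤ A.indicator g t + B.indicator f t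
      rw [Set.indicator_of_mem h]
      have h2 : 0 ≤ B.indicator f t := Set.indicator_nonneg (fun x _ => hf0 x) t
      linarith [hfg t]
    · show f t ≤ A.indicator g t + B.indicator f t
      rw [Set.indicator_of_mem h]
      have h2 : 0 ≤ A.indicator g t :=
        Set.indicator_nonneg (fun x _ => (hf0 x).trans (hfg x)) t
      linarith
  · rw [Set.indicator_of_notMem hts]
    show 0 ≤ A.indicator g t + B.indicator f t
    exact add_nonneg (Set.indicator_nonneg (fun x _ => (hf0 x).trans (hfg x)) t)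
      (Set.indicator_nonneg (fun x _ => hf0 x) t)

private theorem pa_continuous_ft (L : List (ℝ × ℝ)) : Continuous (ft L) := by
  induction L with
  | nil =>
    have h : ft [] = fun _ => (0 : ℂ) := by
      funext t
      simp [ft]
    rw [h]
    exact continuous_const
  | cons x L ih =>
    have h : ft (x :: L) = fun t => ft [x] t + ft L t := by
      funext t
      rw [← ft_append]
      rfl
    rw [h]
    refine Continuous.add ?_ ih
    have h2 : ft [x] = fun t => (x.1 : ℂ) * Complex.exp (((t * x.2 : ℝ) : ℂ) * Complex.I) := by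
      funext t
      simp [ft]
    rw [h2]
    fun_prop

/-- The integral over the large values of `a_v`. -/
private theorem pa_cell_int {α0 κ C1 X lam c : ℝ} {H v : ℕ} (hα0 : 0 < α0) (hκ : 0 < κ)
    (hc : 0 < c) (hq0 : 0 < qs (cell H v)) (hq : Real.exp (-(α0 / 2 * (v : ℝ) / H)) ≤
      qs (cell H v)) (hP : (2 / κ) ^ (1 / α0) ≤ Real.exp ((v : ℝ) / H)) :
    ∫ t in {t : ℝ | κ / 2 < ‖ft (aC (cell H v)) t‖ ^ 2},
        ‖MX lam X t‖ ^ 2 * Real.exp (-(c * t ^ 2)) ≤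
      (∫ t in {t : ℝ | |t| ≤ C1 * X ∧ Real.exp ((v : ℝ) / H) ^ (-α0) ≤
          ‖dp (cell H v) (fun _ => 1) t‖}, ‖MX lam X t‖ ^ 2) +
        ∫ t in {t : ℝ | C1 * X < |t|}, ‖MX lam X t‖ ^ 2 * Real.exp (-(c * t ^ 2)) := by
  have hcMX : Continuous fun t => ‖MX lam X t‖ ^ 2 := by
    have : Continuous (MX lam X) := continuous_dp _ _
    exact this.norm.pow 2
  refine pa_mono_set ?_ ?_ ?_ ?_ (gauss_integrable lam X c hc) ?_ ?_ ?_
  · exact (isOpen_lt continuous_const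
      ((pa_continuous_ft (aC (cell H v))).norm.pow 2)).measurableSet
  · exact ((isClosed_le continuous_abs continuous_const).inter
      (isClosed_le continuous_const (continuous_dp _ _).norm)).measurableSet
  · exact (isOpen_lt continuous_const continuous_abs).measurableSet
  · intro t ht
    by_cases hb : C1 * X < |t|
    · exact Or.inr hb
    · left
      refine ⟨not_lt.1 hb, ?_⟩
      have ht' : κ / 2 < ‖ft (aC (cell H v)) t‖ ^ 2 := ht
      have hft : ‖ft (aC (cell H v)) t‖ = ‖dp (cell H v) (fun _ => 1) t‖ / qs (cell H v) := by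
        rw [ft_aC, norm_div, RCLike.norm_conj, Complex.norm_real, Real.norm_of_nonneg hq0.le]
      set q := qs (cell H v) with hqdef
      set P := Real.exp ((v : ℝ) / H) with hPdef
      have hP0 : 0 < P := Real.exp_pos _
      have h1 : Real.exp (-(α0 / 2 * (v : ℝ) / H)) = P ^ (-(α0 / 2)) := by
        rw [hPdef, ← Real.exp_mul]
        congr 1
        ring
      have h2 : P ^ (-α0) ≤ κ / 2 := by
        have h3 : 2 / κ ≤ P ^ α0 := by
          have h4 : ((2 / κ) ^ (1 / α0)) ^ α0 = 2 / κ := by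
            rw [← Real.rpow_mul (by positivity), one_div, inv_mul_cancel₀ hα0.ne',
              Real.rpow_one]
          rw [← h4]
          exact Real.rpow_le_rpow (by positivity) hP hα0.le
        rw [Real.rpow_neg hP0.le]
        have h5 : (κ / 2)⁻¹ = 2 / κ := by
          rw [inv_div]
        have h6 : (P ^ α0)⁻¹ ≤ (2 / κ)⁻¹ := inv_anti₀ (by positivity) h3
        rwa [inv_div] at h6
      have h7 : P ^ (-α0) ≤ q ^ 2 := by
        have h8 : P ^ (-α0) = P ^ (-(α0 / 2)) * P ^ (-(α0 / 2)) := by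
          rw [← Real.rpow_add hP0]
          congr 1
          ring
        rw [h8, ← h1, sq]
        exact mul_self_le_mul_self (Real.exp_pos _).le hq
      have hd : ‖dp (cell H v) (fun _ => 1) t‖ = q * ‖ft (aC (cell H v)) t‖ := by
        rw [hft]
        field_simp
      show P ^ (-α0) ≤ ‖dp (cell H v) (fun _ => 1) t‖
      have hn : 0 ≤ P ^ (-α0) := (Real.rpow_pos_of_pos hP0 _).le
      refine abs_le_of_sq_le_sq' ?_ (norm_nonneg _) |>.2
      rw [hd, mul_pow, sq (P ^ (-α0))]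
      exact mul_le_mul h7 (h2.trans ht'.le) hn (by positivity)
  · refine (hcMX.continuousOn.integrableOn_compact isCompact_Icc).mono_set
      (s := {t : ℝ | |t| ≤ C1 * X ∧ Real.exp ((v : ℝ) / H) ^ (-α0) ≤
          ‖dp (cell H v) (fun _ => 1) t‖}) (t := Set.Icc (-(C1 * X)) (C1 * X)) ?_
    intro t ht
    exact abs_le.1 ht.1
  · intro t
    positivity
  · intro t
    have h1 : Real.exp (-(c * t ^ 2)) ≤ 1 := by
      rw [Real.exp_le_one_iff]
      have : 0 ≤ c * t ^ 2 := by positivity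
      linarith
    exact mul_le_of_le_one_right (by positivity) h1

/-- The choice of `C1`. -/
private theorem pa_C1 {ρ D : ℝ} (hρ : 0 < ρ) (hD : 0 < D) :
    ∃ C1 : ℝ, 0 < C1 ∧ Real.exp (-(ρ ^ 2 * C1 ^ 2 / 2)) ≤ 1 / D := by
  refine ⟨Real.sqrt (2 * D) / ρ, by positivity, ?_⟩
  have h1 : ρ ^ 2 * (Real.sqrt (2 * D) / ρ) ^ 2 / 2 = D := by
    rw [div_pow, Real.sq_sqrt (by positivity)]
    field_simp
  rw [h1, Real.exp_neg, one_div]
  refine inv_anti₀ hD ?_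
  have := Real.add_one_le_exp D
  linarith

theorem partA : ∃ α0 : ℝ, 0 < α0 ∧ ∀ lam : ℝ, 1 < lam → lam ≤ 2 → ∀ F : ℝ → ℂ, Sampled F →
    ∀ k : ℕ, ∀ ε : ℝ, 0 < ε → ∃ Pst : ℝ, ∀ H : ℕ, 2 ≤ H → k ≤ H → ∀ V : Finset ℕ, Good H V →
      (∀ v ∈ V, Pst ≤ Real.exp ((v : ℝ) / H) ∧
        Real.exp (-(α0 / 2 * (v : ℝ) / H)) ≤ qs (cell H v)) →
      ∀ i < k, ∃ X0 : ℝ, ∀ X : ℝ, X0 ≤ X →
        ‖∑ n ∈ win X (lam * X), mu n / (n : ℂ) * (gX F lam X (Real.log n) -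
          act (OW H V i) (gX F lam X) (Real.log n))‖ ≤ ε := by
  obtain ⟨α0, hα0, hA⟩ := thmA
  obtain ⟨Cm, hCm, hmean⟩ := gauss_mean
  obtain ⟨Ct, hCt, htail⟩ := gauss_tail
  refine ⟨α0, hα0, ?_⟩
  intro lam hl hl2 F hF k ε hε
  set C : ℝ := max Cm Ct with hC
  have hC0 : 0 < C := lt_max_of_lt_left hCm
  set Bm : ℝ := 1 + 2 ^ k with hBm
  have hBm0 : 0 < Bm := by positivity
  obtain ⟨ρ0, hρ0, hdisc⟩ := disc_list hF hl hl2 (ε / (2 * Bm)) (by positivity)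
  set ρ : ℝ := min ρ0 1 with hρdef
  have hρ : 0 < ρ := lt_min hρ0 one_pos
  have hρ1 : ρ ≤ 1 := min_le_right _ _
  set κ : ℝ := min 1 (ε ^ 2 * ρ / (16 * ((k : ℝ) ^ 2 + 1) * C)) with hκdef
  have hκ : 0 < κ := lt_min one_pos (by positivity)
  have hκ1 : κ ≤ 1 := min_le_left _ _
  have hκ2 : ((k : ℝ) * κ) ^ 2 * (C / ρ) ≤ ε ^ 2 / 16 := by
    have h1 : κ * κ ≤ κ := by nlinarith
    have h2 : κ ≤ ε ^ 2 * ρ / (16 * ((k : ℝ) ^ 2 + 1) * C) := min_le_right _ _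
    have h3 : ((k : ℝ) * κ) ^ 2 * (C / ρ) ≤ (k : ℝ) ^ 2 *
        (ε ^ 2 * ρ / (16 * ((k : ℝ) ^ 2 + 1) * C)) * (C / ρ) := by
      refine mul_le_mul_of_nonneg_right ?_ (by positivity)
      rw [mul_pow]
      refine mul_le_mul_of_nonneg_left ?_ (by positivity)
      rw [sq]
      exact h1.trans h2
    have h4 : (k : ℝ) ^ 2 * (ε ^ 2 * ρ / (16 * ((k : ℝ) ^ 2 + 1) * C)) * (C / ρ) =
        ε ^ 2 / 16 * ((k : ℝ) ^ 2 / ((k : ℝ) ^ 2 + 1)) := by
      field_simp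
    have h5 : (k : ℝ) ^ 2 / ((k : ℝ) ^ 2 + 1) ≤ 1 := by
      rw [div_le_one (by positivity)]
      linarith
    rw [h4] at h3
    refine h3.trans (mul_le_of_le_one_right (by positivity) h5)
  obtain ⟨C1, hC1, hC1e⟩ := pa_C1 hρ
    (D := 2 / κ * (C / ρ) * (16 / ε ^ 2)) (by positivity)
  set η : ℝ := κ * ε ^ 2 / 32 with hη
  have hη0 : 0 < η := by positivity
  obtain ⟨P0, hP0⟩ := hA lam hl hl2 C1 η hC1 hη0
  refine ⟨max P0 ((2 / κ) ^ (1 / α0)), ?_⟩
  intro H hH hkH V hV hVc i hik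
  have hcells : ∀ v ∈ V, ∃ X0 : ℝ, ∀ X : ℝ, X0 ≤ X →
      ∫ t in {t : ℝ | |t| ≤ C1 * X ∧ Real.exp ((v : ℝ) / H) ^ (-α0) ≤
          ‖dp (cell H v) (fun _ => 1) t‖}, ‖MX lam X t‖ ^ 2 ≤ η := by
    intro v hv
    exact hP0 _ ((le_max_left _ _).trans (hVc v hv).1) (cell H v)
      (fun p hp => pa_cell hH hp)
  choose! XA hXA using hcells
  obtain ⟨Xd, hXd0, hXd⟩ := hdisc ρ hρ (min_le_left _ _) (paL H V i)
    (pa_shift hV (by omega))
  refine ⟨max (max Xd 1) (∑ v ∈ V, |XA v|), ?_⟩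
  intro X hX
  have hX1 : 1 ≤ X := (le_max_right _ _).trans ((le_max_left _ _).trans hX)
  have hXd1 : Xd ≤ X := (le_max_left _ _).trans ((le_max_left _ _).trans hX)
  have hX0 : 0 < X := by linarith
  have hXv : ∀ v ∈ V, XA v ≤ X := fun v hv =>
    (le_abs_self _).trans ((Finset.single_le_sum (f := fun v => |XA v|)
      (fun _ _ => abs_nonneg _) hv).trans ((le_max_right _ _).trans hX))
  have hs : 0 < ρ / X := by positivity
  have hsum : ∑ n ∈ win X (lam * X), mu n / (n : ℂ) * (gX F lam X (Real.log n) -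
      act (OW H V i) (gX F lam X) (Real.log n)) =
      ∑ n ∈ win X (lam * X), mu n / (n : ℂ) * act (paL H V i) (gX F lam X) (Real.log n) := by
    refine Finset.sum_congr rfl fun n _ => ?_
    rw [pa_act]
  rw [hsum]
  have hd := hXd X hXd1
  have hd2 : mass (paL H V i) * (ε / (2 * Bm)) ≤ ε / 2 := by
    have h1 := pa_mass hV hik.le
    have h2 : mass (paL H V i) * (ε / (2 * Bm)) ≤ Bm * (ε / (2 * Bm)) :=
      mul_le_mul_of_nonneg_right h1 (by positivity)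
    have h3 : Bm * (ε / (2 * Bm)) = ε / 2 := by field_simp
    linarith
  have hpair := pair_le hF hl hl2 hX0 hs (paL H V i)
  have hj := jbound hV hκ i k hik.le lam X ((ρ / X) ^ 2) (by positivity)
  have hm := hmean lam X ρ hl hl2 hX1 hρ hρ1
  have ht := htail lam X ρ C1 hl hl2 hX1 hρ hρ1 hC1
  have hm' : ∫ t, ‖MX lam X t‖ ^ 2 * Real.exp (-((ρ / X) ^ 2 * t ^ 2)) ≤ C / ρ :=
    hm.trans (div_le_div_of_nonneg_right (le_max_left _ _) hρ.le)
  have ht' : ∫ t in {t : ℝ | C1 * X < |t|},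
      ‖MX lam X t‖ ^ 2 * Real.exp (-((ρ / X) ^ 2 * t ^ 2)) ≤
        C / ρ * Real.exp (-(ρ ^ 2 * C1 ^ 2 / 2)) :=
    ht.trans (mul_le_mul_of_nonneg_right (div_le_div_of_nonneg_right (le_max_right _ _) hρ.le)
      (Real.exp_pos _).le)
  set E : ℝ := C / ρ * Real.exp (-(ρ ^ 2 * C1 ^ 2 / 2)) with hE
  have hE0 : 2 / κ * E ≤ ε ^ 2 / 16 := by
    have h1 : E ≤ C / ρ * (1 / (2 / κ * (C / ρ) * (16 / ε ^ 2))) :=
      mul_le_mul_of_nonneg_left hC1e (by positivity)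
    have h2 : 2 / κ * (C / ρ * (1 / (2 / κ * (C / ρ) * (16 / ε ^ 2)))) = ε ^ 2 / 16 := by
      field_simp
    calc 2 / κ * E ≤ 2 / κ * (C / ρ * (1 / (2 / κ * (C / ρ) * (16 / ε ^ 2)))) :=
          mul_le_mul_of_nonneg_left h1 (by positivity)
      _ = ε ^ 2 / 16 := h2
  have hη1 : 2 / κ * η = ε ^ 2 / 16 := by
    rw [hη]
    field_simp
    norm_num
  have hcell : ∀ v ∈ V, ∫ t in {t : ℝ | κ / 2 < ‖ft (aC (cell H v)) t‖ ^ 2},
      ‖MX lam X t‖ ^ 2 * Real.exp (-((ρ / X) ^ 2 * t ^ 2)) ≤ η + E := by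
    intro v hv
    refine (pa_cell_int hα0 hκ (by positivity) (hV.pos v hv) (hVc v hv).2
      ((le_max_right _ _).trans (hVc v hv).1) (C1 := C1)).trans ?_
    exact add_le_add (hXA v hv X (hXv v hv)) ht'
  have hsumc : ∑ v ∈ V, qs (cell H v) / W1 H V *
      ∫ t in {t : ℝ | κ / 2 < ‖ft (aC (cell H v)) t‖ ^ 2},
        ‖MX lam X t‖ ^ 2 * Real.exp (-((ρ / X) ^ 2 * t ^ 2)) ≤ η + E := by
    calc ∑ v ∈ V, qs (cell H v) / W1 H V *
        ∫ t in {t : ℝ | κ / 2 < ‖ft (aC (cell H v)) t‖ ^ 2},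
          ‖MX lam X t‖ ^ 2 * Real.exp (-((ρ / X) ^ 2 * t ^ 2)) ≤
        ∑ v ∈ V, qs (cell H v) / W1 H V * (η + E) :=
          Finset.sum_le_sum fun v hv => mul_le_mul_of_nonneg_left (hcell v hv)
            (div_nonneg (qs_nonneg _) (W1_pos hV).le)
      _ = η + E := by
          rw [← Finset.sum_mul, sum_w hV, one_mul]
  have htot : ∫ t, ‖((1 - (1 - al H V t) ^ i : ℝ) : ℂ)‖ ^ 2 * ‖MX lam X t‖ ^ 2 *
      Real.exp (-((ρ / X) ^ 2 * t ^ 2)) ≤ 3 * ε ^ 2 / 16 := by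
    have h1 : ((k : ℝ) * κ) ^ 2 * (∫ t, ‖MX lam X t‖ ^ 2 *
        Real.exp (-((ρ / X) ^ 2 * t ^ 2))) ≤ ε ^ 2 / 16 :=
      (mul_le_mul_of_nonneg_left hm' (by positivity)).trans hκ2
    have h2 := mul_le_mul_of_nonneg_left hsumc (by positivity : (0 : ℝ) ≤ 2 / κ)
    have h3 : 2 / κ * (η + E) ≤ ε ^ 2 / 16 + ε ^ 2 / 16 := by
      rw [mul_add]
      linarith
    linarith
  have hpi : (2 * Real.pi)⁻¹ ≤ 1 := by
    have := Real.pi_gt_three
    exact inv_le_one_of_one_le₀ (by linarith)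
  have hint : ‖∫ y, act (paL H V i) (gX F lam X) y * mm lam X (ρ / X) y‖ ^ 2 ≤
      (ε / 2) ^ 2 := by
    refine hpair.trans ?_
    have h1 : ∫ t, ‖ft (paL H V i) t‖ ^ 2 * ‖MX lam X t‖ ^ 2 *
        Real.exp (-((ρ / X) ^ 2 * t ^ 2)) = ∫ t, ‖((1 - (1 - al H V t) ^ i : ℝ) : ℂ)‖ ^ 2 *
          ‖MX lam X t‖ ^ 2 * Real.exp (-((ρ / X) ^ 2 * t ^ 2)) := by
      refine integral_congr_ae (Filter.Eventually.of_forall fun t => ?_)
      simp only [pa_ft]
    rw [h1]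
    have h2 : 0 ≤ ∫ t, ‖((1 - (1 - al H V t) ^ i : ℝ) : ℂ)‖ ^ 2 *
          ‖MX lam X t‖ ^ 2 * Real.exp (-((ρ / X) ^ 2 * t ^ 2)) :=
      integral_nonneg fun t => by positivity
    calc (2 * Real.pi)⁻¹ * ∫ t, ‖((1 - (1 - al H V t) ^ i : ℝ) : ℂ)‖ ^ 2 *
          ‖MX lam X t‖ ^ 2 * Real.exp (-((ρ / X) ^ 2 * t ^ 2)) ≤
        1 * ∫ t, ‖((1 - (1 - al H V t) ^ i : ℝ) : ℂ)‖ ^ 2 *
          ‖MX lam X t‖ ^ 2 * Real.exp (-((ρ / X) ^ 2 * t ^ 2)) :=
          mul_le_mul_of_nonneg_right hpi h2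
      _ ≤ (ε / 2) ^ 2 := by
          rw [one_mul]
          nlinarith [sq_nonneg ε]
  have hint' : ‖∫ y, act (paL H V i) (gX F lam X) y * mm lam X (ρ / X) y‖ ≤ ε / 2 :=
    abs_le_of_sq_le_sq' hint (by positivity) |>.2
  have htri : ‖∑ n ∈ win X (lam * X), mu n / (n : ℂ) *
      act (paL H V i) (gX F lam X) (Real.log n)‖ ≤
      ‖∑ n ∈ win X (lam * X), mu n / (n : ℂ) *
        act (paL H V i) (gX F lam X) (Real.log n) -
          ∫ y, act (paL H V i) (gX F lam X) y * mm lam X (ρ / X) y‖ +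
      ‖∫ y, act (paL H V i) (gX F lam X) y * mm lam X (ρ / X) y‖ := by
    have := norm_add_le (∑ n ∈ win X (lam * X), mu n / (n : ℂ) *
        act (paL H V i) (gX F lam X) (Real.log n) -
          ∫ y, act (paL H V i) (gX F lam X) y * mm lam X (ρ / X) y)
      (∫ y, act (paL H V i) (gX F lam X) y * mm lam X (ρ / X) y)
    rwa [sub_add_cancel] at this
  linarith

end Pool.Agent.MOM
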