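import Pool.Agent.MOM.An.OpB
import Pool.Agent.MOM.NT.TK

/-!
MOM (MP_2b7f8f_an), section 2 (B): regrouping the primes into cells, dropping the edges.

PROOF of `regroup`. The cells `cell H v`, `v ∈ V`, are pairwise disjoint, so the sum over
`S = V.biUnion (cell H)` is the sum over `v` and `p ∈ cell H v`, and `qs S = W1 H V`. For
`p ∈ cell H v` the window `win (X/p) (lam X/p)` is contained in `Dv = dwin lam X H i v` and for
`m ∈ Dv` outside of it, `m` lies in `(X e^{-(v+1+i)/H}, X/p]` or in `(lam X/p, lam X e^{(i-v)/H}]`; the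
sum of `1/m` over each of these is at most `(i+1)/H + 1/m_min`, `m_min → ∞` with `X`
(`∑_{A < m ≤ B} 1/m ≤ log(B/A) + 1/A`). So replacing the window by `Dv` costs for every `p` at most
`B (2(i+1)/H + 1/H)` for `X` large, and `(1/W1) ∑_p 1/p = 1`. Finally
`(1/W1) ∑_{p ∈ cell} (1/p) φ(log p + log m) = (q_v/W1) act (aC (cell H v)) φ (log m)`.

PROOF of `sum_dwin`: `∑_{m ∈ Dv} 1/m ≤ log lam + (2i+1)/H + 1/m_min ≤ 0.7 + 1/2 + small ≤ 2`.
-/

set_option autoImplicit false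

namespace Pool.Agent.MOM

open Finset

/-- The enlarged window of the cell `v`. -/
noncomputable def dwin (lam X : ℝ) (H i v : ℕ) : Finset ℕ :=
  win (X * Real.exp (-(((v : ℝ) + 1 + i) / H))) (lam * X * Real.exp (((i : ℝ) - v) / H))

private theorem cell_disj {H : ℕ} (hH : 1 ≤ H) {v w p : ℕ} (hv : p ∈ cell H v)
    (hw : p ∈ cell H w) : v = w := by
  have hH0 : (0 : ℝ) < H := by exact_mod_cast hH
  have key : ∀ a b : ℕ, p ∈ cell H a → p ∈ cell H b → a ≤ b := by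
    intro a b ha hb
    rw [mem_cell] at ha hb
    have h1 : Real.exp ((a : ℝ) / H) < Real.exp (((b : ℝ) + 1) / H) := ha.1.1.trans_lt hb.1.2
    rw [Real.exp_lt_exp, div_lt_div_iff_of_pos_right hH0] at h1
    have h2 : a < b + 1 := by exact_mod_cast h1
    omega
  exact le_antisymm (key v w hv hw) (key w v hw hv)

private theorem cell_pairwise {H : ℕ} (hH : 1 ≤ H) (V : Finset ℕ) :
    (V : Set ℕ).PairwiseDisjoint (cell H) := by
  intro v _ w _ hvw
  rw [Function.onFun, Finset.disjoint_left]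
  intro p hp hp'
  exact hvw (cell_disj hH hp hp')

theorem qs_biUnion {H : ℕ} (hH : 1 ≤ H) (V : Finset ℕ) : qs (V.biUnion (cell H)) = W1 H V := by
  unfold qs W1
  rw [Finset.sum_biUnion (cell_pairwise hH V)]
  rfl

private theorem sum_Ioc_le_log {a b : ℕ} (ha : 0 < a) (hab : a ≤ b) :
    ∑ m ∈ Ioc a b, 1 / (m : ℝ) ≤ Real.log ((b : ℝ) / a) := by
  have ha0 : (0 : ℝ) < a := by exact_mod_cast ha
  induction b, hab using Nat.le_induction with
  | base => simp [ha0.ne']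
  | succ n hn ih =>
    have hn0 : (0 : ℝ) < n := by exact_mod_cast lt_of_lt_of_le ha hn
    rw [← Finset.insert_Ioc_right_eq_Ioc_add_one hn, Finset.sum_insert (by simp)]
    have h1 : 1 / ((n + 1 : ℕ) : ℝ) ≤ Real.log (((n + 1 : ℕ) : ℝ) / n) := by
      have h2 := Real.one_sub_inv_le_log_of_pos
        (show (0 : ℝ) < ((n + 1 : ℕ) : ℝ) / n by positivity)
      refine le_trans (le_of_eq ?_) h2
      push_cast
      field_simp
      ring
    have h3 : Real.log (((n + 1 : ℕ) : ℝ) / a) =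
        Real.log (((n + 1 : ℕ) : ℝ) / n) + Real.log ((n : ℝ) / a) := by
      rw [← Real.log_mul (by positivity) (by positivity)]
      congr 1
      field_simp
    rw [h3]
    exact add_le_add h1 ih

private theorem sum_win_inv {A B : ℝ} (hA : 0 < A) (hAB : A ≤ B) :
    ∑ m ∈ win A B, 1 / (m : ℝ) ≤ Real.log (B / A) + 1 / A := by
  have hB : 0 < B := hA.trans_le hAB
  have hlog : 0 ≤ Real.log (B / A) := Real.log_nonneg ((one_le_div hA).2 hAB)
  unfold win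
  rcases le_or_gt ⌊B⌋₊ ⌊A⌋₊ with h | h
  · rw [Finset.Ioc_eq_empty (by omega), Finset.sum_empty]
    positivity
  · have h1 : ⌊A⌋₊ + 1 ≤ ⌊B⌋₊ := h
    have h2 : Ioc ⌊A⌋₊ ⌊B⌋₊ = insert (⌊A⌋₊ + 1) (Ioc (⌊A⌋₊ + 1) ⌊B⌋₊) := by
      ext m
      simp only [Finset.mem_insert, Finset.mem_Ioc]
      omega
    rw [h2, Finset.sum_insert (by simp)]
    have h3 := sum_Ioc_le_log (Nat.succ_pos ⌊A⌋₊) h1
    have h4 : A < ((⌊A⌋₊ + 1 : ℕ) : ℝ) := by
      push_cast
      exact Nat.lt_floor_add_one A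
    have h5 : (⌊B⌋₊ : ℝ) ≤ B := Nat.floor_le hB.le
    have h6 : Real.log ((⌊B⌋₊ : ℝ) / ((⌊A⌋₊ + 1 : ℕ) : ℝ)) ≤ Real.log (B / A) := by
      have h7 : (0 : ℝ) < ⌊B⌋₊ := by exact_mod_cast (Nat.succ_pos _).trans_le h1
      refine Real.log_le_log (div_pos h7 (hA.trans h4)) ?_
      exact div_le_div₀ hB.le h5 hA h4.le
    have h8 : 1 / ((⌊A⌋₊ + 1 : ℕ) : ℝ) ≤ 1 / A := one_div_le_one_div_of_le hA h4.le
    linarith [h3, h6, h8]

private theorem norm_sum_win_le {φ : ℝ → ℂ} {B : ℝ} (hφ : ∀ y, ‖φ y‖ ≤ B) (c : ℝ)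
    (S : Finset ℕ) : ‖∑ m ∈ S, mu m / (m : ℂ) * φ (Real.log m + c)‖ ≤
      B * ∑ m ∈ S, 1 / (m : ℝ) := by
  rw [Finset.mul_sum]
  refine (norm_sum_le _ _).trans (Finset.sum_le_sum fun m _ => ?_)
  rw [norm_mul, norm_div, Complex.norm_natCast]
  have h1 : ‖mu m‖ / (m : ℝ) ≤ 1 / (m : ℝ) :=
    div_le_div_of_nonneg_right (norm_mu_le m) (Nat.cast_nonneg m)
  calc ‖mu m‖ / (m : ℝ) * ‖φ (Real.log m + c)‖ ≤ 1 / (m : ℝ) * B :=
        mul_le_mul h1 (hφ _) (norm_nonneg _) (by positivity)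
    _ = B * (1 / (m : ℝ)) := mul_comm _ _

/-- The window of `p` against the window of its cell. -/
private theorem win_sub {φ : ℝ → ℂ} {B : ℝ} (hB : 0 ≤ B) (hφ : ∀ y, ‖φ y‖ ≤ B) {H : ℕ}
    (hH : 1 ≤ H) (i v p : ℕ) (hp : p ∈ cell H v) {lam X : ℝ} (hl : 1 < lam)
    (hX : (H : ℝ) * Real.exp (((v : ℝ) + 1 + i) / H) ≤ X) (c : ℝ) :
    ‖∑ m ∈ win (X / p) (lam * X / p), mu m / (m : ℂ) * φ (Real.log m + c) -
      ∑ m ∈ dwin lam X H i v, mu m / (m : ℂ) * φ (Real.log m + c)‖ ≤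
        B * (2 * ((i : ℝ) + 2) / H) := by
  have hH0 : (0 : ℝ) < H := by exact_mod_cast hH
  have hH1 : (1 : ℝ) ≤ H := by exact_mod_cast hH
  rw [mem_cell] at hp
  obtain ⟨⟨hp1, hp2⟩, hpp⟩ := hp
  have hp0 : (0 : ℝ) < p := by exact_mod_cast hpp.pos
  have hX0 : 0 < X := lt_of_lt_of_le (by positivity) hX
  set x0 : ℝ := X * Real.exp (-(((v : ℝ) + 1 + i) / H)) with hx0
  set x1 : ℝ := X / p with hx1
  set y1 : ℝ := lam * X / p with hy1
  set y0 : ℝ := lam * X * Real.exp (((i : ℝ) - v) / H) with hy0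
  have hx0H : (H : ℝ) ≤ x0 := by
    rw [hx0, Real.exp_neg, ← div_eq_mul_inv, le_div_iff₀ (Real.exp_pos _)]
    exact hX
  have hx0p : 0 < x0 := hH0.trans_le hx0H
  have hi0 : (0 : ℝ) ≤ i := Nat.cast_nonneg i
  have h01 : x0 ≤ x1 := by
    rw [hx0, hx1, div_eq_mul_inv]
    refine mul_le_mul_of_nonneg_left ?_ hX0.le
    rw [Real.exp_neg]
    refine inv_anti₀ hp0 (hp2.le.trans ?_)
    rw [Real.exp_le_exp]
    exact div_le_div_of_nonneg_right (by linarith) hH0.le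
  have h11 : x1 ≤ y1 := by
    rw [hx1, hy1]
    refine div_le_div_of_nonneg_right ?_ hp0.le
    nlinarith
  have h10 : y1 ≤ y0 := by
    rw [hy1, hy0, div_eq_mul_inv]
    refine mul_le_mul_of_nonneg_left ?_ (by positivity)
    have e1 : Real.exp (((i : ℝ) - v) / H) = Real.exp ((i : ℝ) / H) *
        (Real.exp ((v : ℝ) / H))⁻¹ := by
      rw [← Real.exp_neg, ← Real.exp_add]
      congr 1
      ring
    rw [e1]
    have e2 : (p : ℝ)⁻¹ ≤ (Real.exp ((v : ℝ) / H))⁻¹ := inv_anti₀ (Real.exp_pos _) hp1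
    have e3 : 1 ≤ Real.exp ((i : ℝ) / H) := Real.one_le_exp (by positivity)
    have e4 : 0 < (Real.exp ((v : ℝ) / H))⁻¹ := by positivity
    nlinarith
  have f01 : ⌊x0⌋₊ ≤ ⌊x1⌋₊ := Nat.floor_le_floor h01
  have f11 : ⌊x1⌋₊ ≤ ⌊y1⌋₊ := Nat.floor_le_floor h11
  have f10 : ⌊y1⌋₊ ≤ ⌊y0⌋₊ := Nat.floor_le_floor h10
  set f : ℕ → ℂ := fun m => mu m / (m : ℂ) * φ (Real.log m + c) with hf
  have hd : dwin lam X H i v = win x0 y0 := rfl
  have hs : ∑ m ∈ win x1 y1, f m - ∑ m ∈ dwin lam X H i v, f m =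
      -(∑ m ∈ win x0 x1, f m + ∑ m ∈ win y1 y0, f m) := by
    rw [hd]
    unfold win
    rw [← Finset.sum_Ioc_consecutive f (f01.trans f11) f10, ← Finset.sum_Ioc_consecutive f f01 f11]
    ring
  rw [hs, norm_neg]
  have g1 := norm_sum_win_le hφ c (win x0 x1)
  have g2 := norm_sum_win_le hφ c (win y1 y0)
  have k1 := sum_win_inv hx0p h01
  have k2 := sum_win_inv (hx0p.trans_le (h01.trans h11)) h10
  have l1 : Real.log (x1 / x0) ≤ ((i : ℝ) + 1) / H := by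
    rw [Real.log_le_iff_le_exp (by positivity)]
    have e1 : x1 / x0 = Real.exp (((v : ℝ) + 1 + i) / H) / p := by
      rw [hx1, hx0, Real.exp_neg]
      field_simp
    rw [e1, div_le_iff₀ hp0]
    have e2 : Real.exp (((v : ℝ) + 1 + i) / H) =
        Real.exp (((i : ℝ) + 1) / H) * Real.exp ((v : ℝ) / H) := by
      rw [← Real.exp_add]
      congr 1
      ring
    rw [e2]
    exact mul_le_mul_of_nonneg_left hp1 (Real.exp_pos _).le
  have l2 : Real.log (y0 / y1) ≤ ((i : ℝ) + 1) / H := by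
    have hlam0 : 0 < lam := by linarith
    rw [Real.log_le_iff_le_exp (by positivity)]
    have e1 : y0 / y1 = Real.exp (((i : ℝ) - v) / H) * p := by
      rw [hy0, hy1]
      field_simp
    rw [e1]
    have e2 : Real.exp (((i : ℝ) + 1) / H) =
        Real.exp (((i : ℝ) - v) / H) * Real.exp (((v : ℝ) + 1) / H) := by
      rw [← Real.exp_add]
      congr 1
      ring
    rw [e2]
    exact mul_le_mul_of_nonneg_left hp2.le (Real.exp_pos _).le
  have m1 : 1 / x0 ≤ 1 / (H : ℝ) := one_div_le_one_div_of_le hH0 hx0H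
  have m2 : 1 / y1 ≤ 1 / (H : ℝ) :=
    one_div_le_one_div_of_le hH0 (hx0H.trans (h01.trans h11))
  have n1 : ∑ m ∈ win x0 x1, 1 / (m : ℝ) + ∑ m ∈ win y1 y0, 1 / (m : ℝ) ≤
      2 * ((i : ℝ) + 2) / H := by
    have e1 : 2 * ((i : ℝ) + 2) / H = ((i : ℝ) + 1) / H + 1 / H + (((i : ℝ) + 1) / H + 1 / H) := by
      ring
    rw [e1]
    linarith
  calc ‖∑ m ∈ win x0 x1, f m + ∑ m ∈ win y1 y0, f m‖
      ≤ ‖∑ m ∈ win x0 x1, f m‖ + ‖∑ m ∈ win y1 y0, f m‖ := norm_add_le _ _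
    _ ≤ B * ∑ m ∈ win x0 x1, 1 / (m : ℝ) + B * ∑ m ∈ win y1 y0, 1 / (m : ℝ) := add_le_add g1 g2
    _ = B * (∑ m ∈ win x0 x1, 1 / (m : ℝ) + ∑ m ∈ win y1 y0, 1 / (m : ℝ)) := by ring
    _ ≤ B * (2 * ((i : ℝ) + 2) / H) := mul_le_mul_of_nonneg_left n1 hB

private theorem reg_aC_eq (S : Finset ℕ) : aC S =
    S.toList.map (fun p : ℕ => ((1 / (qs S * (p : ℝ)), Real.log (p : ℝ)) : ℝ × ℝ)) := by
  unfold aC
  have h : ∀ L : List ℕ, (do let a ← L; pure ((a : ℕ) : ℝ)) = L.map (fun a : ℕ => (a : ℝ)) := by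
    intro L
    induction L with
    | nil => rfl
    | cons a L ih =>
      rw [List.map_cons, ← ih]
      rfl
  rw [h, List.map_map]
  rfl

private theorem act_aC_eq (S : Finset ℕ) (φ : ℝ → ℂ) (y : ℝ) :
    act (aC S) φ y = ∑ p ∈ S, ((1 / (qs S * p) : ℝ) : ℂ) * φ (y + Real.log p) := by
  unfold act
  rw [reg_aC_eq, List.map_map]
  exact Finset.sum_map_toList S (fun p : ℕ => ((1 / (qs S * p) : ℝ) : ℂ) * φ (y + Real.log p))

theorem regroup {H : ℕ} {V : Finset ℕ} (h : Good H V) (i : ℕ) (lam : ℝ) (hl : 1 < lam)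
    (hl2 : lam ≤ 2) : ∃ X0 : ℝ, ∀ X : ℝ, X0 ≤ X → ∀ B : ℝ, 0 ≤ B → ∀ φ : ℝ → ℂ,
      (∀ y, ‖φ y‖ ≤ B) →
        ‖(1 / (qs (V.biUnion (cell H)) : ℂ)) * ∑ p ∈ V.biUnion (cell H), (1 / (p : ℂ)) *
            ∑ m ∈ win (X / p) (lam * X / p), mu m / (m : ℂ) * φ (Real.log p + Real.log m) -
          ∑ v ∈ V, ((qs (cell H v) / W1 H V : ℝ) : ℂ) * ∑ m ∈ dwin lam X H i v,
            mu m / (m : ℂ) * act (aC (cell H v)) φ (Real.log m)‖ ≤
          B * (2 * ((i : ℝ) + 2) / H) := by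
  have hH0 : (0 : ℝ) < H := by exact_mod_cast h.one_le
  have hW : 0 < W1 H V := W1_pos h
  refine ⟨(H : ℝ) * Real.exp (((V.sup id : ℕ) + 1 + (i : ℝ)) / H), ?_⟩
  intro X hX B hB φ hφ
  have hXv : ∀ v ∈ V, (H : ℝ) * Real.exp (((v : ℝ) + 1 + i) / H) ≤ X := by
    intro v hv
    refine le_trans ?_ hX
    refine mul_le_mul_of_nonneg_left ?_ hH0.le
    rw [Real.exp_le_exp]
    refine div_le_div_of_nonneg_right ?_ hH0.le
    have h1 : v ≤ V.sup id := Finset.le_sup (f := id) hv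
    have h2 : (v : ℝ) ≤ (V.sup id : ℕ) := by exact_mod_cast h1
    linarith
  have hWC : (W1 H V : ℂ) ≠ 0 := by exact_mod_cast hW.ne'
  -- the second sum
  have e2 : ∑ v ∈ V, ((qs (cell H v) / W1 H V : ℝ) : ℂ) * ∑ m ∈ dwin lam X H i v,
      mu m / (m : ℂ) * act (aC (cell H v)) φ (Real.log m) =
      (1 / (W1 H V : ℂ)) * ∑ v ∈ V, ∑ p ∈ cell H v, (1 / (p : ℂ)) *
        ∑ m ∈ dwin lam X H i v, mu m / (m : ℂ) * φ (Real.log m + Real.log p) := by
    rw [Finset.mul_sum]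
    refine Finset.sum_congr rfl fun v hv => ?_
    have hq : (qs (cell H v) : ℂ) ≠ 0 := by exact_mod_cast (h.pos v hv).ne'
    have e3 : ∀ m ∈ dwin lam X H i v, mu m / (m : ℂ) * act (aC (cell H v)) φ (Real.log m) =
        ∑ p ∈ cell H v, mu m / (m : ℂ) * ((1 / ((qs (cell H v) : ℂ) * p)) *
          φ (Real.log m + Real.log p)) := by
      intro m _
      rw [act_aC_eq, Finset.mul_sum]
      refine Finset.sum_congr rfl fun p _ => ?_
      push_cast
      rfl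
    rw [Finset.sum_congr rfl e3, Finset.sum_comm, Finset.mul_sum, Finset.mul_sum]
    refine Finset.sum_congr rfl fun p hp => ?_
    rw [Finset.mul_sum, Finset.mul_sum, Finset.mul_sum]
    refine Finset.sum_congr rfl fun m _ => ?_
    have hp0 : (p : ℂ) ≠ 0 := by
      have := (mem_cell.1 hp).2.pos
      exact_mod_cast this.ne'
    push_cast
    field_simp
  -- the first sum
  have e1 : (1 / (qs (V.biUnion (cell H)) : ℂ)) * ∑ p ∈ V.biUnion (cell H), (1 / (p : ℂ)) *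
      ∑ m ∈ win (X / p) (lam * X / p), mu m / (m : ℂ) * φ (Real.log p + Real.log m) =
      (1 / (W1 H V : ℂ)) * ∑ v ∈ V, ∑ p ∈ cell H v, (1 / (p : ℂ)) *
        ∑ m ∈ win (X / p) (lam * X / p), mu m / (m : ℂ) * φ (Real.log m + Real.log p) := by
    rw [qs_biUnion h.one_le, Finset.sum_biUnion (cell_pairwise h.one_le V)]
    congr 1
    refine Finset.sum_congr rfl fun v _ => Finset.sum_congr rfl fun p _ => ?_
    congr 1
    refine Finset.sum_congr rfl fun m _ => ?_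
    rw [add_comm (Real.log p) (Real.log m)]
  rw [e1, e2, ← mul_sub, ← Finset.sum_sub_distrib]
  have e4 : ∀ v ∈ V, (∑ p ∈ cell H v, (1 / (p : ℂ)) *
        ∑ m ∈ win (X / p) (lam * X / p), mu m / (m : ℂ) * φ (Real.log m + Real.log p)) -
      ∑ p ∈ cell H v, (1 / (p : ℂ)) *
        ∑ m ∈ dwin lam X H i v, mu m / (m : ℂ) * φ (Real.log m + Real.log p) =
      ∑ p ∈ cell H v, (1 / (p : ℂ)) *
        (∑ m ∈ win (X / p) (lam * X / p), mu m / (m : ℂ) * φ (Real.log m + Real.log p) -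
          ∑ m ∈ dwin lam X H i v, mu m / (m : ℂ) * φ (Real.log m + Real.log p)) := by
    intro v _
    rw [← Finset.sum_sub_distrib]
    refine Finset.sum_congr rfl fun p _ => ?_
    ring
  rw [Finset.sum_congr rfl e4, norm_mul, norm_div, norm_one, Complex.norm_real,
    Real.norm_of_nonneg hW.le]
  set D : ℝ := B * (2 * ((i : ℝ) + 2) / H) with hD
  have e5 : ‖∑ v ∈ V, ∑ p ∈ cell H v, (1 / (p : ℂ)) *
      (∑ m ∈ win (X / p) (lam * X / p), mu m / (m : ℂ) * φ (Real.log m + Real.log p) -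
        ∑ m ∈ dwin lam X H i v, mu m / (m : ℂ) * φ (Real.log m + Real.log p))‖ ≤
      ∑ v ∈ V, ∑ p ∈ cell H v, 1 / (p : ℝ) * D := by
    refine (norm_sum_le _ _).trans (Finset.sum_le_sum fun v hv => ?_)
    refine (norm_sum_le _ _).trans (Finset.sum_le_sum fun p hp => ?_)
    rw [norm_mul, norm_div, norm_one, Complex.norm_natCast]
    exact mul_le_mul_of_nonneg_left
      (win_sub hB hφ h.one_le i v p hp hl (hXv v hv) (Real.log p)) (by positivity)
  have e6 : ∑ v ∈ V, ∑ p ∈ cell H v, 1 / (p : ℝ) * D = W1 H V * D := by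
    unfold W1
    rw [Finset.sum_mul]
    refine Finset.sum_congr rfl fun v _ => ?_
    unfold qs
    rw [Finset.sum_mul]
  rw [e6] at e5
  calc 1 / W1 H V * _ ≤ 1 / W1 H V * (W1 H V * D) :=
        mul_le_mul_of_nonneg_left e5 (by positivity)
    _ = D := by
        field_simp

theorem sum_dwin {H : ℕ} {V : Finset ℕ} (h : Good H V) (i : ℕ) (hi : 4 * (i + 1) ≤ H) (lam : ℝ)
    (hl : 1 < lam) (hl2 : lam ≤ 2) : ∃ X0 : ℝ, ∀ X : ℝ, X0 ≤ X → ∀ v ∈ V,
      ∑ m ∈ dwin lam X H i v, 1 / (m : ℝ) ≤ 2 := by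
  have hH0 : (0 : ℝ) < H := by exact_mod_cast h.one_le
  refine ⟨(H : ℝ) * Real.exp (((V.sup id : ℕ) + 1 + (i : ℝ)) / H), ?_⟩
  intro X hX v hv
  have hXv : (H : ℝ) * Real.exp (((v : ℝ) + 1 + i) / H) ≤ X := by
    refine le_trans ?_ hX
    refine mul_le_mul_of_nonneg_left ?_ hH0.le
    rw [Real.exp_le_exp]
    refine div_le_div_of_nonneg_right ?_ hH0.le
    have h1 : v ≤ V.sup id := Finset.le_sup (f := id) hv
    have h2 : (v : ℝ) ≤ (V.sup id : ℕ) := by exact_mod_cast h1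
    linarith
  have hX0 : 0 < X := lt_of_lt_of_le (by positivity) hXv
  have hi4 : 4 * ((i : ℝ) + 1) ≤ H := by exact_mod_cast hi
  have hi0 : (0 : ℝ) ≤ i := Nat.cast_nonneg i
  set x0 : ℝ := X * Real.exp (-(((v : ℝ) + 1 + i) / H)) with hx0
  set y0 : ℝ := lam * X * Real.exp (((i : ℝ) - v) / H) with hy0
  have hx0H : (H : ℝ) ≤ x0 := by
    rw [hx0, Real.exp_neg, ← div_eq_mul_inv, le_div_iff₀ (Real.exp_pos _)]
    exact hXv
  have hx0p : 0 < x0 := hH0.trans_le hx0H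
  have hyx : y0 = lam * Real.exp ((2 * (i : ℝ) + 1) / H) * x0 := by
    rw [hx0, hy0]
    have e1 : Real.exp (((i : ℝ) - v) / H) = Real.exp ((2 * (i : ℝ) + 1) / H) *
        Real.exp (-(((v : ℝ) + 1 + i) / H)) := by
      rw [← Real.exp_add]
      congr 1
      ring
    rw [e1]
    ring
  have h1 : 1 ≤ Real.exp ((2 * (i : ℝ) + 1) / H) := Real.one_le_exp (by positivity)
  have h2 : x0 ≤ y0 := by
    rw [hyx]
    have : 1 ≤ lam * Real.exp ((2 * (i : ℝ) + 1) / H) := by nlinarith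
    nlinarith
  have h3 := sum_win_inv hx0p h2
  have h4 : Real.log (y0 / x0) = Real.log lam + (2 * (i : ℝ) + 1) / H := by
    rw [hyx, mul_div_assoc, div_self hx0p.ne', mul_one, Real.log_mul (by linarith)
      (Real.exp_pos _).ne', Real.log_exp]
  have h5 : Real.log lam ≤ lam - 1 := Real.log_le_sub_one_of_pos (by linarith)
  have h6 : (2 * (i : ℝ) + 1) / H ≤ 1 / 2 := by
    rw [div_le_div_iff₀ hH0 (by norm_num)]
    linarith
  have h7 : 1 / x0 ≤ 1 / 4 := one_div_le_one_div_of_le (by norm_num) (by linarith)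
  have h8 : dwin lam X H i v = win x0 y0 := rfl
  rw [h8]
  linarith

end Pool.Agent.MOM
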