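import Pool.Agent.MOM.An.SampP
import Pool.Agent.MOM.An.Energy

/-!
MOM (MP_2b7f8f_an), section 2 (B): the sampling property for finite combinations of translates.

PROOF of `samp_list`. Expand `‖∑ c_j gX(y+b_j)‖² = ∑_{j,k} c_j c_k gX(y+b_j) conj gX(y+b_k)` (double
induction on the list, or the general statement for two lists `L`, `L'`:
`∑ (1/m) act L gX conj (act L' gX) - ∫ act L gX conj (act L' gX) → 0`, by induction on `L` and then on
`L'`, the thresholds `a0`, `b0` being the minimum / maximum; integrability by `nice_act`,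
`gX_nice`, `nice_integrable`). At the end `z * conj z = ‖z‖²`; a complex limit gives the real one.
-/

set_option autoImplicit false

namespace Pool.Agent.MOM

open Finset Filter Topology MeasureTheory

private theorem comb2 {f1 f2 f : ℝ → ℝ → ℝ → ℂ}
    (h1 : ∃ a0 b0 : ℝ, 0 < a0 ∧ a0 < b0 ∧ ∀ a b1 : ℝ, 0 < a → a ≤ a0 → b0 ≤ b1 →
      Tendsto (f1 a b1) atTop (𝓝 0))
    (h2 : ∃ a0 b0 : ℝ, 0 < a0 ∧ a0 < b0 ∧ ∀ a b1 : ℝ, 0 < a → a ≤ a0 → b0 ≤ b1 →
      Tendsto (f2 a b1) atTop (𝓝 0)) (c : ℂ)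
    (h : ∀ a b1 X : ℝ, 0 < X → f a b1 X = c * f1 a b1 X + f2 a b1 X) :
    ∃ a0 b0 : ℝ, 0 < a0 ∧ a0 < b0 ∧ ∀ a b1 : ℝ, 0 < a → a ≤ a0 → b0 ≤ b1 →
      Tendsto (f a b1) atTop (𝓝 0) := by
  obtain ⟨a0, b0, ha0, hab, H1⟩ := h1
  obtain ⟨a0', b0', ha0', hab', H2⟩ := h2
  refine ⟨min a0 a0', max b0 b0', lt_min ha0 ha0',
    (min_le_left _ _).trans_lt (hab.trans_le (le_max_left _ _)), fun a b1 ha h3 h4 => ?_⟩
  have t1 := H1 a b1 ha (h3.trans (min_le_left _ _)) ((le_max_left _ _).trans h4)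
  have t2 := H2 a b1 ha (h3.trans (min_le_right _ _)) ((le_max_right _ _).trans h4)
  have t3 := (t1.const_mul c).add t2
  rw [mul_zero, add_zero] at t3
  refine t3.congr' ?_
  filter_upwards [eventually_gt_atTop (0 : ℝ)] with X hX
  exact (h a b1 X hX).symm

/-- the difference between the sum and the integral -/
private noncomputable def dif (F : ℝ → ℂ) (lam : ℝ) (L L' : List (ℝ × ℝ)) (a b1 X : ℝ) : ℂ :=
  ∑ m ∈ win (a * X) (b1 * X),
      act L (gX F lam X) (Real.log m) * (starRingEnd ℂ) (act L' (gX F lam X) (Real.log m)) /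
        (m : ℂ) -
    ∫ y, act L (gX F lam X) y * (starRingEnd ℂ) (act L' (gX F lam X) y)

private theorem samp_one {F : ℝ → ℂ} (hF : Sampled F) {lam : ℝ} (hl : 1 < lam) (b : ℝ)
    (L' : List (ℝ × ℝ)) :
    ∃ a0 b0 : ℝ, 0 < a0 ∧ a0 < b0 ∧ ∀ a b1 : ℝ, 0 < a → a ≤ a0 → b0 ≤ b1 →
      Tendsto (dif F lam [(1, b)] L' a b1) atTop (𝓝 0) := by
  induction L' with
  | nil =>
    refine ⟨1, 2, one_pos, one_lt_two, fun a b1 _ _ _ => ?_⟩
    have h1 : dif F lam [(1, b)] [] a b1 = fun _ => 0 := by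
      funext X
      simp [dif, act_nil]
    rw [h1]
    exact tendsto_const_nhds
  | cons x L' ih =>
    refine comb2 (samp_pair hF hl b x.2) ih (x.1 : ℂ) (fun a b1 X hX => ?_)
    have hN : Nice (gX F lam X) := gX_nice hF hl hX
    have e1 : ∀ y, act [(1, b)] (gX F lam X) y *
        (starRingEnd ℂ) (act (x :: L') (gX F lam X) y) =
        (x.1 : ℂ) * (gX F lam X (y + b) * (starRingEnd ℂ) (gX F lam X (y + x.2))) +
          act [(1, b)] (gX F lam X) y * (starRingEnd ℂ) (act L' (gX F lam X) y) := by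
      intro y
      simp only [act_cons, act_nil, map_add, map_mul, Complex.conj_ofReal, Complex.ofReal_one]
      ring
    have i1 : Integrable fun y =>
        (x.1 : ℂ) * (gX F lam X (y + b) * (starRingEnd ℂ) (gX F lam X (y + x.2))) := by
      have h1 := nice_integrable (nice_act [(1, b)] hN) (nice_act [(1, x.2)] hN)
      simp only [act_cons, act_nil, Complex.ofReal_one, one_mul, add_zero] at h1
      exact h1.const_mul _
    have i2 : Integrable fun y =>
        act [(1, b)] (gX F lam X) y * (starRingEnd ℂ) (act L' (gX F lam X) y) :=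
      nice_integrable (nice_act _ hN) (nice_act _ hN)
    unfold dif
    rw [integral_congr_ae (Filter.Eventually.of_forall e1), integral_add i1 i2,
      integral_const_mul]
    have e2 : ∀ m ∈ win (a * X) (b1 * X), act [(1, b)] (gX F lam X) (Real.log m) *
        (starRingEnd ℂ) (act (x :: L') (gX F lam X) (Real.log m)) / (m : ℂ) =
        (x.1 : ℂ) * (gX F lam X (Real.log m + b) *
          (starRingEnd ℂ) (gX F lam X (Real.log m + x.2)) / (m : ℂ)) +
          act [(1, b)] (gX F lam X) (Real.log m) *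
            (starRingEnd ℂ) (act L' (gX F lam X) (Real.log m)) / (m : ℂ) := by
      intro m _
      rw [e1, add_div, mul_div_assoc]
    rw [Finset.sum_congr rfl e2, Finset.sum_add_distrib, ← Finset.mul_sum]
    ring

private theorem samp_two {F : ℝ → ℂ} (hF : Sampled F) {lam : ℝ} (hl : 1 < lam)
    (L L' : List (ℝ × ℝ)) :
    ∃ a0 b0 : ℝ, 0 < a0 ∧ a0 < b0 ∧ ∀ a b1 : ℝ, 0 < a → a ≤ a0 → b0 ≤ b1 →
      Tendsto (dif F lam L L' a b1) atTop (𝓝 0) := by
  induction L with
  | nil =>
    refine ⟨1, 2, one_pos, one_lt_two, fun a b1 _ _ _ => ?_⟩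
    have h1 : dif F lam [] L' a b1 = fun _ => 0 := by
      funext X
      simp [dif, act_nil]
    rw [h1]
    exact tendsto_const_nhds
  | cons x L ih =>
    refine comb2 (samp_one hF hl x.2 L') ih (x.1 : ℂ) (fun a b1 X hX => ?_)
    have hN : Nice (gX F lam X) := gX_nice hF hl hX
    have e1 : ∀ y, act (x :: L) (gX F lam X) y *
        (starRingEnd ℂ) (act L' (gX F lam X) y) =
        (x.1 : ℂ) * (act [(1, x.2)] (gX F lam X) y *
          (starRingEnd ℂ) (act L' (gX F lam X) y)) +
          act L (gX F lam X) y * (starRingEnd ℂ) (act L' (gX F lam X) y) := by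
      intro y
      simp only [act_cons, act_nil, Complex.ofReal_one]
      ring
    have i1 : Integrable fun y => (x.1 : ℂ) * (act [(1, x.2)] (gX F lam X) y *
        (starRingEnd ℂ) (act L' (gX F lam X) y)) :=
      (nice_integrable (nice_act _ hN) (nice_act _ hN)).const_mul _
    have i2 : Integrable fun y =>
        act L (gX F lam X) y * (starRingEnd ℂ) (act L' (gX F lam X) y) :=
      nice_integrable (nice_act _ hN) (nice_act _ hN)
    unfold dif
    rw [integral_congr_ae (Filter.Eventually.of_forall e1), integral_add i1 i2,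
      integral_const_mul]
    have e2 : ∀ m ∈ win (a * X) (b1 * X), act (x :: L) (gX F lam X) (Real.log m) *
        (starRingEnd ℂ) (act L' (gX F lam X) (Real.log m)) / (m : ℂ) =
        (x.1 : ℂ) * (act [(1, x.2)] (gX F lam X) (Real.log m) *
          (starRingEnd ℂ) (act L' (gX F lam X) (Real.log m)) / (m : ℂ)) +
          act L (gX F lam X) (Real.log m) *
            (starRingEnd ℂ) (act L' (gX F lam X) (Real.log m)) / (m : ℂ) := by
      intro m _
      rw [e1, add_div, mul_div_assoc]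
    rw [Finset.sum_congr rfl e2, Finset.sum_add_distrib, ← Finset.mul_sum]
    ring

theorem samp_list {F : ℝ → ℂ} (hF : Sampled F) {lam : ℝ} (hl : 1 < lam) (L : List (ℝ × ℝ)) :
    ∃ a0 b0 : ℝ, 0 < a0 ∧ a0 < b0 ∧ ∀ a b1 : ℝ, 0 < a → a ≤ a0 → b0 ≤ b1 →
      Tendsto (fun X : ℝ => ∑ m ∈ win (a * X) (b1 * X),
          ‖act L (gX F lam X) (Real.log m)‖ ^ 2 / (m : ℝ) - nsq (act L (gX F lam X)))
        atTop (𝓝 0) := by
  obtain ⟨a0, b0, ha0, hab, H⟩ := samp_two hF hl L L
  refine ⟨a0, b0, ha0, hab, fun a b1 ha h1 h2 => ?_⟩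
  have t1 := H a b1 ha h1 h2
  have t2 := (Complex.continuous_re.tendsto 0).comp t1
  rw [Complex.zero_re] at t2
  refine t2.congr (fun X => ?_)
  have h3 : dif F lam L L a b1 X = ((∑ m ∈ win (a * X) (b1 * X),
      ‖act L (gX F lam X) (Real.log m)‖ ^ 2 / (m : ℝ) - nsq (act L (gX F lam X)) : ℝ) : ℂ) := by
    unfold dif nsq
    push_cast
    congr 1
    · refine Finset.sum_congr rfl (fun m _ => ?_)
      rw [Complex.mul_conj']
    · rw [← integral_complex_ofReal]
      refine integral_congr_ae (Filter.Eventually.of_forall (fun y => ?_))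
      simp only [Complex.mul_conj']
      push_cast
      rfl
  rw [Function.comp_apply, h3, Complex.ofReal_re]

end Pool.Agent.MOM
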