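import Pool.Agent.MOM.An.TKs
import Pool.Agent.MOM.An.Reg
import Pool.Agent.MOM.An.Samp
import Pool.Agent.MOM.An.Energy

/-!
MOM (MP_2b7f8f_an), section 2, part (B): assembly.

PROOF. Let `φ = act (OW i) (gX F lam X)`, `‖φ‖ ≤ B = 2^i` (`mass_WW`, `norm_gX_le`). `tk_step` for
`S = V.biUnion (cell H)` (`qs_biUnion`, primes by `mem_cell`, `P1 ≤ p`) and `regroup` give
`‖∑_n (μ(n)/n) φ(log n)‖ ≤ ‖∑_v w_v ∑_{m ∈ Dv} (μ(m)/m) ψ_v(log m)‖ + B(3/√W1 + 2/P1 + 2(i+2)/H)`,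
`ψ_v = act (aC (cell H v)) φ`. Cauchy-Schwarz twice (weights `w_v` and `1/m`; `sum_dwin`,
`∑ w_v = 1`, `‖μ‖ ≤ 1`): the first term is
`≤ (2 ∑_v w_v ∑_{m ∈ Dv} ‖ψ_v(log m)‖²/m)^{1/2}`. `ψ_v = act (mulC (aC _) (OW i)) gX`
(`act_mulC`), so by `samp_list` (with `a` small and `b1` large enough that all `Dv` are contained in
`win (aX) (b1 X)`; the terms are nonnegative) for `X` large
`∑_{m ∈ Dv} ‖ψ_v(log m)‖²/m ≤ nsq ψ_v + ε²/2`. Hence
`≤ (2 ∑_v w_v nsq ψ_v + ε²)^{1/2} ≤ (2 ∑_v w_v nsq ψ_v)^{1/2} + ε`.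
-/

set_option autoImplicit false

namespace Pool.Agent.MOM

open Finset MeasureTheory

/-- Cauchy-Schwarz on a window. -/
private theorem pb_inner (D : Finset ℕ) (ψ : ℕ → ℂ) {c : ℝ}
    (hc : ∑ m ∈ D, 1 / (m : ℝ) ≤ c) :
    ‖∑ m ∈ D, mu m / (m : ℂ) * ψ m‖ ^ 2 ≤ c * ∑ m ∈ D, ‖ψ m‖ ^ 2 / (m : ℝ) := by
  have h1 : ‖∑ m ∈ D, mu m / (m : ℂ) * ψ m‖ ≤ ∑ m ∈ D, ‖ψ m‖ / (m : ℝ) := by
    refine (norm_sum_le _ _).trans (Finset.sum_le_sum fun m _ => ?_)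
    rw [norm_mul, norm_div, Complex.norm_natCast, div_mul_eq_mul_div]
    refine div_le_div_of_nonneg_right ?_ (Nat.cast_nonneg _)
    have := norm_mu_le m
    nlinarith [norm_nonneg (ψ m)]
  have h2 : (∑ m ∈ D, ‖ψ m‖ / (m : ℝ)) ^ 2 ≤
      (∑ m ∈ D, 1 / (m : ℝ)) * ∑ m ∈ D, ‖ψ m‖ ^ 2 / (m : ℝ) := by
    refine Finset.sum_sq_le_sum_mul_sum_of_sq_le_mul D (fun m _ => by positivity)
      (fun m _ => by positivity) (fun m _ => le_of_eq ?_)
    rw [div_pow, one_div, div_eq_mul_inv, div_eq_mul_inv, sq (m : ℝ), mul_inv]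
    ring
  have h3 : 0 ≤ ∑ m ∈ D, ‖ψ m‖ ^ 2 / (m : ℝ) := Finset.sum_nonneg fun m _ => by positivity
  calc ‖∑ m ∈ D, mu m / (m : ℂ) * ψ m‖ ^ 2 ≤ (∑ m ∈ D, ‖ψ m‖ / (m : ℝ)) ^ 2 :=
        pow_le_pow_left₀ (norm_nonneg _) h1 2
    _ ≤ (∑ m ∈ D, 1 / (m : ℝ)) * ∑ m ∈ D, ‖ψ m‖ ^ 2 / (m : ℝ) := h2
    _ ≤ c * ∑ m ∈ D, ‖ψ m‖ ^ 2 / (m : ℝ) := mul_le_mul_of_nonneg_right hc h3

/-- Cauchy-Schwarz for a convex combination. -/
private theorem pb_outer (V : Finset ℕ) (w : ℕ → ℝ) (hw : ∀ v ∈ V, 0 ≤ w v)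
    (h1 : ∑ v ∈ V, w v = 1) (z : ℕ → ℂ) :
    ‖∑ v ∈ V, (w v : ℂ) * z v‖ ^ 2 ≤ ∑ v ∈ V, w v * ‖z v‖ ^ 2 := by
  have h2 : ‖∑ v ∈ V, (w v : ℂ) * z v‖ ≤ ∑ v ∈ V, w v * ‖z v‖ := by
    refine (norm_sum_le _ _).trans (Finset.sum_le_sum fun v hv => ?_)
    rw [norm_mul, Complex.norm_real, Real.norm_eq_abs, abs_of_nonneg (hw v hv)]
  have h3 : (∑ v ∈ V, w v * ‖z v‖) ^ 2 ≤ (∑ v ∈ V, w v) * ∑ v ∈ V, w v * ‖z v‖ ^ 2 := by
    refine Finset.sum_sq_le_sum_mul_sum_of_sq_le_mul V hw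
      (fun v hv => mul_nonneg (hw v hv) (by positivity)) (fun v _ => le_of_eq ?_)
    ring
  rw [h1, one_mul] at h3
  exact (pow_le_pow_left₀ (norm_nonneg _) h2 2).trans h3

/-- The enlarged windows are contained in a window `(aX, b1 X]` with `a` small, `b1` large. -/
private theorem pb_dwin_subset {lam X a b1 : ℝ} {H i v : ℕ} (hX : 0 ≤ X)
    (ha : a ≤ Real.exp (-(((v : ℝ) + 1 + i) / H))) (hb : lam * Real.exp (((i : ℝ) - v) / H) ≤ b1) :
    dwin lam X H i v ⊆ win (a * X) (b1 * X) := by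
  unfold dwin win
  refine Finset.Ioc_subset_Ioc (Nat.floor_le_floor ?_) (Nat.floor_le_floor ?_)
  · rw [mul_comm]
    exact mul_le_mul_of_nonneg_left ha hX
  · calc lam * X * Real.exp (((i : ℝ) - v) / H) = lam * Real.exp (((i : ℝ) - v) / H) * X := by
          ring
      _ ≤ b1 * X := mul_le_mul_of_nonneg_right hb hX

/-- Sampling on the enlarged window of one cell. -/
private theorem pb_samp {F : ℝ → ℂ} (hF : Sampled F) {lam : ℝ} (hl : 1 < lam) (H : ℕ)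
    (V : Finset ℕ) (i v : ℕ) {δ : ℝ} (hδ : 0 < δ) :
    ∃ X0 : ℝ, ∀ X : ℝ, X0 ≤ X → ∑ m ∈ dwin lam X H i v,
      ‖act (aC (cell H v)) (act (OW H V i) (gX F lam X)) (Real.log m)‖ ^ 2 / (m : ℝ) ≤
        nsq (act (aC (cell H v)) (act (OW H V i) (gX F lam X))) + δ := by
  obtain ⟨a0, b0, ha0, hab, hs⟩ := samp_list hF hl (mulC (aC (cell H v)) (OW H V i))
  set a : ℝ := min a0 (Real.exp (-(((v : ℝ) + 1 + i) / H))) with ha
  set b1 : ℝ := max b0 (lam * Real.exp (((i : ℝ) - v) / H)) with hb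
  have ha1 : 0 < a := lt_min ha0 (Real.exp_pos _)
  have h1 := hs a b1 ha1 (min_le_left _ _) (le_max_left _ _)
  obtain ⟨X1, hX1⟩ := Filter.eventually_atTop.1 (h1.eventually_lt_const hδ)
  refine ⟨max X1 0, fun X hX => ?_⟩
  have h2 := hX1 X ((le_max_left _ _).trans hX)
  have hX0 : 0 ≤ X := (le_max_right _ _).trans hX
  have h3 : ∀ y, act (mulC (aC (cell H v)) (OW H V i)) (gX F lam X) y =
      act (aC (cell H v)) (act (OW H V i) (gX F lam X)) y := fun y => act_mulC _ _ _ y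
  have h4 : act (mulC (aC (cell H v)) (OW H V i)) (gX F lam X) =
      act (aC (cell H v)) (act (OW H V i) (gX F lam X)) := funext h3
  rw [h4] at h2
  have h5 : ∑ m ∈ dwin lam X H i v,
      ‖act (aC (cell H v)) (act (OW H V i) (gX F lam X)) (Real.log m)‖ ^ 2 / (m : ℝ) ≤
      ∑ m ∈ win (a * X) (b1 * X),
      ‖act (aC (cell H v)) (act (OW H V i) (gX F lam X)) (Real.log m)‖ ^ 2 / (m : ℝ) :=
    Finset.sum_le_sum_of_subset_of_nonneg
      (pb_dwin_subset hX0 (min_le_right _ _) (le_max_right _ _)) fun m _ _ => by positivity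
  linarith

theorem partB {F : ℝ → ℂ} (hF : Sampled F) {lam : ℝ} (hl : 1 < lam) (hl2 : lam ≤ 2) {H : ℕ}
    {V : Finset ℕ} (h : Good H V) (i : ℕ) (hi : 4 * (i + 1) ≤ H) (hW : 1 ≤ W1 H V) {P1 : ℝ}
    (hP : 0 < P1) (hV : ∀ v ∈ V, P1 ≤ Real.exp ((v : ℝ) / H)) {ε : ℝ} (hε : 0 < ε) :
    ∃ X0 : ℝ, ∀ X : ℝ, X0 ≤ X →
      ‖∑ n ∈ win X (lam * X), mu n / (n : ℂ) *
          act (OW H V i) (gX F lam X) (Real.log n)‖ ≤
        Real.sqrt (2 * ∑ v ∈ V, qs (cell H v) / W1 H V *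
          nsq (act (aC (cell H v)) (act (OW H V i) (gX F lam X)))) +
        2 ^ i * (3 / Real.sqrt (W1 H V) + 2 / P1 + 2 * ((i : ℝ) + 2) / H) + ε := by
  have hw : ∀ v ∈ V, 0 ≤ qs (cell H v) / W1 H V := fun v _ =>
    div_nonneg (qs_nonneg _) (W1_pos h).le
  have hqs : qs (V.biUnion (cell H)) = W1 H V := qs_biUnion h.one_le V
  have hprime : ∀ p ∈ V.biUnion (cell H), p.Prime := by
    intro p hp
    obtain ⟨v, -, hpv⟩ := Finset.mem_biUnion.1 hp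
    exact (mem_cell.1 hpv).2
  have hP1 : ∀ p ∈ V.biUnion (cell H), P1 ≤ p := by
    intro p hp
    obtain ⟨v, hv, hpv⟩ := Finset.mem_biUnion.1 hp
    exact (hV v hv).trans (mem_cell.1 hpv).1.1
  obtain ⟨X1, hX1⟩ := tk_step (V.biUnion (cell H)) hprime (by rw [hqs]; exact hW) P1 hP hP1
    lam hl hl2
  obtain ⟨X2, hX2⟩ := regroup h i lam hl hl2
  obtain ⟨X3, hX3⟩ := sum_dwin h i hi lam hl hl2
  have hδ : 0 < ε ^ 2 / 2 := by positivity
  choose Y hY using fun v : ℕ => pb_samp hF hl H V i v hδ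
  obtain ⟨X4, hX4⟩ : ∃ X4 : ℝ, ∀ v ∈ V, Y v ≤ X4 := by
    obtain ⟨v, hv, hm⟩ := Finset.exists_max_image V Y h.ne
    exact ⟨Y v, hm⟩
  refine ⟨max (max X1 X2) (max X3 X4), fun X hX => ?_⟩
  have hXa : X1 ≤ X := ((le_max_left _ _).trans (le_max_left _ _)).trans hX
  have hXb : X2 ≤ X := ((le_max_right _ _).trans (le_max_left _ _)).trans hX
  have hXc : X3 ≤ X := ((le_max_left _ _).trans (le_max_right _ _)).trans hX
  have hXd : X4 ≤ X := ((le_max_right _ _).trans (le_max_right _ _)).trans hX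
  have hφ : ∀ y, ‖act (OW H V i) (gX F lam X) y‖ ≤ 2 ^ i := by
    intro y
    refine (norm_act_le (OW H V i) (gX F lam X) (norm_gX_le hF lam X) y).trans ?_
    rw [mul_one]
    exact mass_WW h i
  have h2i : (0 : ℝ) ≤ 2 ^ i := by positivity
  have e1 := hX1 X hXa (2 ^ i) h2i (act (OW H V i) (gX F lam X)) hφ
  have e2 := hX2 X hXb (2 ^ i) h2i (act (OW H V i) (gX F lam X)) hφ
  -- the main term
  have e3 : ‖∑ v ∈ V, ((qs (cell H v) / W1 H V : ℝ) : ℂ) * ∑ m ∈ dwin lam X H i v,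
      mu m / (m : ℂ) * act (aC (cell H v)) (act (OW H V i) (gX F lam X)) (Real.log m)‖ ≤
      Real.sqrt (2 * ∑ v ∈ V, qs (cell H v) / W1 H V *
        nsq (act (aC (cell H v)) (act (OW H V i) (gX F lam X)))) + ε := by
    have f1 := pb_outer V (fun v => qs (cell H v) / W1 H V) hw (sum_w h)
      (fun v => ∑ m ∈ dwin lam X H i v,
        mu m / (m : ℂ) * act (aC (cell H v)) (act (OW H V i) (gX F lam X)) (Real.log m))
    have f2 : ∑ v ∈ V, qs (cell H v) / W1 H V * ‖∑ m ∈ dwin lam X H i v,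
        mu m / (m : ℂ) * act (aC (cell H v)) (act (OW H V i) (gX F lam X)) (Real.log m)‖ ^ 2 ≤
        ∑ v ∈ V, qs (cell H v) / W1 H V * (2 *
          (nsq (act (aC (cell H v)) (act (OW H V i) (gX F lam X))) + ε ^ 2 / 2)) := by
      refine Finset.sum_le_sum fun v hv => mul_le_mul_of_nonneg_left ?_ (hw v hv)
      refine (pb_inner (dwin lam X H i v)
        (fun m => act (aC (cell H v)) (act (OW H V i) (gX F lam X)) (Real.log m))
        (hX3 X hXc v hv)).trans ?_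
      exact mul_le_mul_of_nonneg_left (hY v X ((hX4 v hv).trans hXd)) (by norm_num)
    have f3 : ∑ v ∈ V, qs (cell H v) / W1 H V * (2 *
          (nsq (act (aC (cell H v)) (act (OW H V i) (gX F lam X))) + ε ^ 2 / 2)) =
        2 * (∑ v ∈ V, qs (cell H v) / W1 H V *
          nsq (act (aC (cell H v)) (act (OW H V i) (gX F lam X)))) + ε ^ 2 := by
      have g1 : ∀ v ∈ V, qs (cell H v) / W1 H V * (2 *
          (nsq (act (aC (cell H v)) (act (OW H V i) (gX F lam X))) + ε ^ 2 / 2)) =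
          2 * (qs (cell H v) / W1 H V *
            nsq (act (aC (cell H v)) (act (OW H V i) (gX F lam X)))) +
          qs (cell H v) / W1 H V * ε ^ 2 := fun v _ => by ring
      rw [Finset.sum_congr rfl g1, Finset.sum_add_distrib, ← Finset.mul_sum, ← Finset.sum_mul,
        sum_w h, one_mul]
    have f4 : 0 ≤ 2 * ∑ v ∈ V, qs (cell H v) / W1 H V *
        nsq (act (aC (cell H v)) (act (OW H V i) (gX F lam X))) := by
      refine mul_nonneg (by norm_num) (Finset.sum_nonneg fun v hv => mul_nonneg (hw v hv) ?_)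
      exact integral_nonneg fun y => by positivity
    have f5 := (f1.trans f2).trans (le_of_eq f3)
    refine abs_le_of_sq_le_sq' ?_ (by positivity) |>.2
    refine f5.trans ?_
    have g2 := Real.sq_sqrt f4
    have g3 := Real.sqrt_nonneg (2 * ∑ v ∈ V, qs (cell H v) / W1 H V *
        nsq (act (aC (cell H v)) (act (OW H V i) (gX F lam X))))
    nlinarith
  rw [hqs] at e1 e2
  set A : ℂ := ∑ n ∈ win X (lam * X), mu n / (n : ℂ) *
    act (OW H V i) (gX F lam X) (Real.log n) with hA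
  set B' : ℂ := (1 / (W1 H V : ℂ)) * ∑ p ∈ V.biUnion (cell H), (1 / (p : ℂ)) *
    ∑ m ∈ win (X / p) (lam * X / p), mu m / (m : ℂ) *
      act (OW H V i) (gX F lam X) (Real.log p + Real.log m) with hB'
  set C : ℂ := ∑ v ∈ V, ((qs (cell H v) / W1 H V : ℝ) : ℂ) * ∑ m ∈ dwin lam X H i v,
    mu m / (m : ℂ) * act (aC (cell H v)) (act (OW H V i) (gX F lam X)) (Real.log m) with hC
  have h9 : ‖A‖ ≤ ‖A + B'‖ + ‖B' - C‖ + ‖C‖ := by
    have : A = (A + B') - (B' - C) - C := by ring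
    calc ‖A‖ = ‖(A + B') - (B' - C) - C‖ := by rw [← this]
      _ ≤ ‖(A + B') - (B' - C)‖ + ‖C‖ := norm_sub_le _ _
      _ ≤ ‖A + B'‖ + ‖B' - C‖ + ‖C‖ := by
        have := norm_sub_le (A + B') (B' - C)
        linarith
  have h10 : (2 : ℝ) ^ i * (3 / Real.sqrt (W1 H V) + 2 / P1 + 2 * ((i : ℝ) + 2) / H) =
      2 ^ i * (3 / Real.sqrt (W1 H V) + 2 / P1) + 2 ^ i * (2 * ((i : ℝ) + 2) / H) := by ring
  rw [h10]
  linarith

end Pool.Agent.MOM
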