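import Pool.Agent.MOM.An.GX

/-!
MOM (MP_2b7f8f_an), section 2 (B): the sampling property for two translates.

PROOF of `samp_pair`. Let `r = e^b`, `r' = e^{b'}`. `gX (log m + b) = F(r m)` if `X < r m ≤ lam X` and
`0` otherwise. The product is nonzero only for `a' X < m ≤ b1 X`, `a' = max(1/r, 1/r')`,
`b1' = lam min(1/r, 1/r')`. If `a' ≥ b1'` both sides vanish. Otherwise, if `a ≤ a'` and `b1' ≤ b1`,
the sum is `∑_{m ∈ win (a'X) (b1'X)} F(rm) conj F(r'm)/m` and the integral is, with `x = e^y`,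
`∫_{a'X}^{b1'X} F(rx) conj F(r'x) dx/x`; apply `Sampled.samp`. (Only `X > 0` matters.)
-/

set_option autoImplicit false

namespace Pool.Agent.MOM

open Finset Filter Topology MeasureTheory

/-- The product of two translates of the window function. -/
private theorem gX_prod {F : ℝ → ℂ} {lam X r r' a' b1' : ℝ} (hl : 0 < lam) (hX : 0 < X)
    (hr : 0 < r) (hr' : 0 < r') (ha' : a' = max (1 / r) (1 / r'))
    (hb' : b1' = lam * min (1 / r) (1 / r')) (y : ℝ) :
    gX F lam X (y + Real.log r) * (starRingEnd ℂ) (gX F lam X (y + Real.log r')) =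
      if a' * X < Real.exp y ∧ Real.exp y ≤ b1' * X then
        F (r * Real.exp y) * (starRingEnd ℂ) (F (r' * Real.exp y)) else 0 := by
  have e1 : Real.exp (y + Real.log r) = r * Real.exp y := by
    rw [Real.exp_add, Real.exp_log hr, mul_comm]
  have e2 : Real.exp (y + Real.log r') = r' * Real.exp y := by
    rw [Real.exp_add, Real.exp_log hr', mul_comm]
  have h1 : ∀ {s : ℝ}, 0 < s → (X < s * Real.exp y ↔ 1 / s * X < Real.exp y) := by
    intro s hs
    rw [div_mul_eq_mul_div, one_mul, div_lt_iff₀ hs, mul_comm s]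
  have h2 : ∀ {s : ℝ}, 0 < s →
      (s * Real.exp y ≤ lam * X ↔ Real.exp y ≤ lam * (1 / s) * X) := by
    intro s hs
    have e : lam * (1 / s) * X = (lam * X) / s := by ring
    rw [e, le_div_iff₀ hs, mul_comm s]
  have hiff : (a' * X < Real.exp y ∧ Real.exp y ≤ b1' * X) ↔
      (X < r * Real.exp y ∧ r * Real.exp y ≤ lam * X) ∧
        (X < r' * Real.exp y ∧ r' * Real.exp y ≤ lam * X) := by
    rw [h1 hr, h1 hr', h2 hr, h2 hr', ha', hb', max_mul_of_nonneg _ _ hX.le, max_lt_iff,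
      mul_min_of_nonneg _ _ hl.le, min_mul_of_nonneg _ _ hX.le, le_min_iff]
    tauto
  unfold gX
  rw [e1, e2]
  by_cases hc : a' * X < Real.exp y ∧ Real.exp y ≤ b1' * X
  · obtain ⟨h3, h4⟩ := hiff.1 hc
    rw [if_pos h3, if_pos h4, if_pos hc]
  · rw [if_neg hc]
    by_cases h3 : X < r * Real.exp y ∧ r * Real.exp y ≤ lam * X
    · have h4 : ¬ (X < r' * Real.exp y ∧ r' * Real.exp y ≤ lam * X) := fun h4 =>
        hc (hiff.2 ⟨h3, h4⟩)
      rw [if_neg h4, map_zero, mul_zero]
    · rw [if_neg h3, zero_mul]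

/-- The change of variables `x = e^y`. -/
private theorem int_exp {α β : ℝ} (hα : 0 < α) (hαβ : α ≤ β) (g : ℝ → ℂ) :
    ∫ y, (if α < Real.exp y ∧ Real.exp y ≤ β then g (Real.exp y) else 0) =
      ∫ x in α..β, g x / (x : ℂ) := by
  have hβ : 0 < β := hα.trans_le hαβ
  have himg : Real.exp '' Set.Ioc (Real.log α) (Real.log β) = Set.Ioc α β := by
    ext x
    constructor
    · rintro ⟨y, hy, rfl⟩
      exact ⟨(Real.log_lt_iff_lt_exp hα).1 hy.1, (Real.le_log_iff_exp_le hβ).1 hy.2⟩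
    · intro hx
      have hx0 : 0 < x := hα.trans hx.1
      exact ⟨Real.log x, ⟨Real.log_lt_log hα hx.1, Real.log_le_log hx0 hx.2⟩, Real.exp_log hx0⟩
  have h1 := integral_image_eq_integral_abs_deriv_smul
    (s := Set.Ioc (Real.log α) (Real.log β)) measurableSet_Ioc
    (fun y _ => (Real.hasDerivAt_exp y).hasDerivWithinAt) (Real.exp_injective.injOn)
    (fun x => g x / (x : ℂ))
  rw [himg] at h1
  rw [intervalIntegral.integral_of_le hαβ, h1, ← integral_indicator measurableSet_Ioc]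
  congr 1
  funext y
  have hmem : y ∈ Set.Ioc (Real.log α) (Real.log β) ↔ α < Real.exp y ∧ Real.exp y ≤ β := by
    rw [Set.mem_Ioc, Real.log_lt_iff_lt_exp hα, Real.le_log_iff_exp_le hβ]
  by_cases h : α < Real.exp y ∧ Real.exp y ≤ β
  · rw [if_pos h, Set.indicator_of_mem (hmem.2 h), abs_of_pos (Real.exp_pos y), Complex.real_smul]
    have : (Real.exp y : ℂ) ≠ 0 := by
      exact_mod_cast (Real.exp_pos y).ne'
    field_simp
  · rw [if_neg h, Set.indicator_of_notMem (fun hc => h (hmem.1 hc))]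

theorem samp_pair {F : ℝ → ℂ} (hF : Sampled F) {lam : ℝ} (hl : 1 < lam) (b b' : ℝ) :
    ∃ a0 b0 : ℝ, 0 < a0 ∧ a0 < b0 ∧ ∀ a b1 : ℝ, 0 < a → a ≤ a0 → b0 ≤ b1 →
      Tendsto (fun X : ℝ => ∑ m ∈ win (a * X) (b1 * X),
          gX F lam X (Real.log m + b) * (starRingEnd ℂ) (gX F lam X (Real.log m + b')) /
            (m : ℂ) -
        ∫ y, gX F lam X (y + b) * (starRingEnd ℂ) (gX F lam X (y + b'))) atTop (𝓝 0) := by
  obtain ⟨r, hr⟩ : ∃ r, r = Real.exp b := ⟨_, rfl⟩
  obtain ⟨r', hr'⟩ : ∃ r', r' = Real.exp b' := ⟨_, rfl⟩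
  have hr0 : 0 < r := hr ▸ Real.exp_pos b
  have hr0' : 0 < r' := hr' ▸ Real.exp_pos b'
  have hb : b = Real.log r := by rw [hr, Real.log_exp]
  have hb' : b' = Real.log r' := by rw [hr', Real.log_exp]
  subst hb hb'
  clear hr hr'
  obtain ⟨a', ha'⟩ : ∃ a', a' = max (1 / r) (1 / r') := ⟨_, rfl⟩
  obtain ⟨b1', hb1'⟩ : ∃ b1', b1' = lam * min (1 / r) (1 / r') := ⟨_, rfl⟩
  have ha'0 : 0 < a' := ha' ▸ lt_max_of_lt_left (by positivity)
  have hl0 : 0 < lam := by linarith
  refine ⟨min a' 1, max b1' 2, lt_min ha'0 one_pos,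
    (min_le_right _ _).trans_lt (lt_of_lt_of_le one_lt_two (le_max_right _ _)),
    fun a b1 ha0 ha hb => ?_⟩
  have haa : a ≤ a' := ha.trans (min_le_left _ _)
  have hbb : b1' ≤ b1 := (le_max_left _ _).trans hb
  -- the sum
  have hsum : ∀ X : ℝ, 0 < X → ∑ m ∈ win (a * X) (b1 * X),
      gX F lam X (Real.log m + Real.log r) *
        (starRingEnd ℂ) (gX F lam X (Real.log m + Real.log r')) / (m : ℂ) =
      ∑ m ∈ win (a' * X) (b1' * X),
        F (r * m) * (starRingEnd ℂ) (F (r' * m)) / (m : ℂ) := by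
    intro X hX
    have hsub : win (a' * X) (b1' * X) ⊆ win (a * X) (b1 * X) := by
      intro m hm
      rw [mem_win (by positivity)] at hm ⊢
      exact ⟨lt_of_le_of_lt (by nlinarith) hm.1, hm.2.trans (by nlinarith)⟩
    rw [← Finset.sum_subset hsub]
    · refine Finset.sum_congr rfl fun m hm => ?_
      rw [mem_win (by positivity)] at hm
      have hm0 : (0 : ℝ) < m := lt_trans (by positivity) hm.1
      rw [gX_prod hl0 hX hr0 hr0' ha' hb1', Real.exp_log hm0, if_pos hm]
    · intro m hm1 hm2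
      rw [mem_win (by positivity)] at hm1 hm2
      have hm0 : (0 : ℝ) < m := lt_trans (by positivity) hm1.1
      rw [gX_prod hl0 hX hr0 hr0' ha' hb1', Real.exp_log hm0, if_neg hm2, zero_div]
  rcases lt_or_ge a' b1' with hab | hab
  · refine (hF.samp r r' a' b1' hr0 hr0' ha'0 hab).congr' ?_
    filter_upwards [eventually_gt_atTop 0] with X hX
    rw [hsum X hX]
    congr 1
    have h1 := int_exp (α := a' * X) (β := b1' * X) (by positivity) (by nlinarith)
      (fun x => F (r * x) * (starRingEnd ℂ) (F (r' * x)))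
    rw [← h1]
    congr 1
    funext y
    rw [gX_prod hl0 hX hr0 hr0' ha' hb1']
  · refine (tendsto_const_nhds (x := (0 : ℂ))).congr' ?_
    filter_upwards [eventually_gt_atTop 0] with X hX
    have hXX : b1' * X ≤ a' * X := by nlinarith
    have hemp : win (a' * X) (b1' * X) = ∅ := by
      unfold win
      exact Finset.Ioc_eq_empty_of_le (Nat.floor_le_floor hXX)
    rw [hsum X hX, hemp, Finset.sum_empty, zero_sub, eq_comm, neg_eq_zero]
    have h2 : (fun y => gX F lam X (y + Real.log r) *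
        (starRingEnd ℂ) (gX F lam X (y + Real.log r'))) = fun _ => 0 := by
      funext y
      rw [gX_prod hl0 hX hr0 hr0' ha' hb1', if_neg]
      rintro ⟨h3, h4⟩
      linarith
    rw [h2, integral_zero]

end Pool.Agent.MOM
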