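import Pool.Agent.MOM.An.Op
import Pool.Agent.MOM.NT.TK

/-!
MOM (MP_2b7f8f_an), section 2 (B): the Turán-Kubilius step.

PROOF. Put `W = qs S ≥ 1`. `1 = ω(n)/W + (1 - ω(n)/W)`. First error:
`∑ (1/n) B |1 - ω(n)/W| ≤ (B/W)(∑ 1/n)^{1/2} (∑ (1/n)(ω - W)²)^{1/2} ≤ (B/W) (W+1)^{1/2} ≤ 3B/√W/2`
(`turan_kubilius`; `∑_{win} 1/n → log lam < 1`, `sum_inv_multiples` with `d = 1`). Main term:
`(1/W) ∑_n (μ(n)/n) ω(n) φ(log n) = (1/W) ∑_{p ∈ S} ∑_{n ∈ win X (lam X), p | n} (μ(n)/n) φ(log n)`,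
put
`n = pm`, `m ∈ win (X/p) (lam X/p)` (`mem_win`), `log n = log p + log m`; `μ(pm) = -μ(m)` if `p ∤ m`
and `μ(pm) = 0` if `p | m`. Second error (terms with `p | m`):
`(1/W) ∑_p (1/p) ∑_{m ∈ win, p | m} B/m ≤ (1/W) ∑_p (1/p) B (1/p) ∑_{k ∈ win (X/p²) (lam X/p²)} 1/k`
`≤ B/P1` for `X` large.
-/

set_option autoImplicit false

namespace Pool.Agent.MOM

open Finset Filter

private theorem tks_filter (X Y : ℝ) (hX : 0 ≤ X) (p : ℕ) (hp : 0 < p) :
    (win X Y).filter (p ∣ ·) = (win (X / p) (Y / p)).image (p * ·) := by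
  have hp' : (0 : ℝ) < p := by exact_mod_cast hp
  ext n
  simp only [mem_filter, mem_image, mem_win hX, mem_win (div_nonneg hX hp'.le)]
  constructor
  · rintro ⟨⟨h1, h2⟩, k, rfl⟩
    push_cast at h1 h2
    exact ⟨k, ⟨by rwa [div_lt_iff₀' hp'], by rwa [le_div_iff₀' hp']⟩, rfl⟩
  · rintro ⟨k, ⟨h1, h2⟩, rfl⟩
    rw [div_lt_iff₀' hp'] at h1
    rw [le_div_iff₀' hp'] at h2
    push_cast
    exact ⟨⟨h1, h2⟩, dvd_mul_right p k⟩

private theorem tks_sum {X Y : ℝ} (hX : 0 ≤ X) (p : ℕ) (hp : 0 < p) (F : ℕ → ℂ) :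
    ∑ n ∈ (win X Y).filter (p ∣ ·), F n = ∑ m ∈ win (X / p) (Y / p), F (p * m) := by
  rw [tks_filter X Y hX p hp, Finset.sum_image]
  intro a _ b _ h
  exact Nat.eq_of_mul_eq_mul_left hp h

private theorem tks_mu {p m : ℕ} (hp : p.Prime) :
    mu (p * m) = if p ∣ m then 0 else -mu m := by
  unfold mu
  split_ifs with h
  · have h1 : ¬ Squarefree (p * m) := by
      obtain ⟨k, rfl⟩ := h
      intro hs
      have h2 := hs p ⟨k, by ring⟩
      rw [Nat.isUnit_iff] at h2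
      exact hp.one_lt.ne' h2
    rw [ArithmeticFunction.moebius_eq_zero_of_not_squarefree h1]
    simp
  · rw [ArithmeticFunction.isMultiplicative_moebius.map_mul_of_coprime
      ((Nat.Prime.coprime_iff_not_dvd hp).2 h), ArithmeticFunction.moebius_apply_prime hp]
    push_cast
    ring

private theorem tks_piece {p : ℕ} (hp : p.Prime) {X Y : ℝ} (hX : 0 < X) (φ : ℝ → ℂ) {B : ℝ}
    (hφ : ∀ y, ‖φ y‖ ≤ B) :
    ‖∑ n ∈ (win X Y).filter (p ∣ ·), mu n / (n : ℂ) * φ (Real.log n) +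
      (1 / (p : ℂ)) * ∑ m ∈ win (X / p) (Y / p),
        mu m / (m : ℂ) * φ (Real.log p + Real.log m)‖ ≤
      B * (1 / p * ∑ m ∈ (win (X / p) (Y / p)).filter (p ∣ ·), 1 / (m : ℝ)) := by
  have hp' : (0 : ℝ) < p := by exact_mod_cast hp.pos
  have hpC : (p : ℂ) ≠ 0 := by exact_mod_cast hp.ne_zero
  have hX' : 0 < X / p := by positivity
  rw [tks_sum hX.le p hp.pos, Finset.mul_sum, ← Finset.sum_add_distrib, Finset.sum_filter,
    Finset.mul_sum, Finset.mul_sum]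
  refine (norm_sum_le _ _).trans (Finset.sum_le_sum fun m hm => ?_)
  rw [mem_win hX'.le] at hm
  have hm0 : (0 : ℝ) < m := hX'.trans hm.1
  have hm1 : m ≠ 0 := by
    rintro rfl
    simp at hm0
  have hmC : (m : ℂ) ≠ 0 := by exact_mod_cast hm1
  have hlog : Real.log ((p * m : ℕ) : ℝ) = Real.log p + Real.log m := by
    push_cast
    exact Real.log_mul hp'.ne' hm0.ne'
  rw [tks_mu hp, hlog]
  split_ifs with h
  · rw [zero_div, zero_mul, zero_add, norm_mul, norm_mul, norm_div, norm_div, norm_one,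
      Complex.norm_natCast, Complex.norm_natCast]
    have h1 : ‖mu m‖ / (m : ℝ) ≤ 1 / m := div_le_div_of_nonneg_right (norm_mu_le m) hm0.le
    have h2 : ‖mu m‖ / (m : ℝ) * ‖φ (Real.log p + Real.log m)‖ ≤ 1 / m * B :=
      mul_le_mul h1 (hφ _) (norm_nonneg _) (by positivity)
    have h3 : 1 / (p : ℝ) * (‖mu m‖ / (m : ℝ) * ‖φ (Real.log p + Real.log m)‖) ≤
        1 / p * (1 / m * B) := mul_le_mul_of_nonneg_left h2 (by positivity)
    refine h3.trans (le_of_eq ?_)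
    ring
  · have h1 : -mu m / ((p * m : ℕ) : ℂ) * φ (Real.log p + Real.log m) +
        1 / (p : ℂ) * (mu m / (m : ℂ) * φ (Real.log p + Real.log m)) = 0 := by
      push_cast
      field_simp
      ring
    rw [h1, norm_zero, mul_zero, mul_zero]

private theorem tks_cs (P : Finset ℕ) (w v : ℕ → ℝ) (hw : ∀ n ∈ P, 0 ≤ w n)
    (h1 : ∑ n ∈ P, w n ≤ 1) (Q : ℝ) (h2 : ∑ n ∈ P, w n * v n ^ 2 ≤ Q) :
    ∑ n ∈ P, w n * |v n| ≤ Real.sqrt Q := by
  have h3 := Finset.sum_mul_sq_le_sq_mul_sq P (fun n => Real.sqrt (w n))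
    (fun n => Real.sqrt (w n) * |v n|)
  have h4 : ∑ n ∈ P, Real.sqrt (w n) * (Real.sqrt (w n) * |v n|) = ∑ n ∈ P, w n * |v n| := by
    refine Finset.sum_congr rfl fun n hn => ?_
    rw [← mul_assoc, Real.mul_self_sqrt (hw n hn)]
  have h5 : ∑ n ∈ P, Real.sqrt (w n) ^ 2 = ∑ n ∈ P, w n :=
    Finset.sum_congr rfl fun n hn => Real.sq_sqrt (hw n hn)
  have h6 : ∑ n ∈ P, (Real.sqrt (w n) * |v n|) ^ 2 = ∑ n ∈ P, w n * v n ^ 2 := by
    refine Finset.sum_congr rfl fun n hn => ?_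
    rw [mul_pow, Real.sq_sqrt (hw n hn), sq_abs]
  rw [h4, h5, h6] at h3
  refine Real.le_sqrt_of_sq_le (h3.trans ?_)
  have h7 : 0 ≤ ∑ n ∈ P, w n * v n ^ 2 :=
    Finset.sum_nonneg fun n hn => mul_nonneg (hw n hn) (sq_nonneg _)
  calc (∑ n ∈ P, w n) * ∑ n ∈ P, w n * v n ^ 2 ≤ 1 * ∑ n ∈ P, w n * v n ^ 2 :=
        mul_le_mul_of_nonneg_right h1 h7
    _ ≤ Q := by rw [one_mul]; exact h2

private theorem tks_om (S P : Finset ℕ) (F : ℕ → ℂ) :
    ∑ p ∈ S, ∑ n ∈ P.filter (p ∣ ·), F n = ∑ n ∈ P, F n * (om S n : ℂ) := by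
  simp_rw [Finset.sum_filter]
  rw [Finset.sum_comm]
  refine Finset.sum_congr rfl fun n _ => ?_
  rw [← Finset.sum_filter, Finset.sum_const, nsmul_eq_mul, mul_comm]
  rfl

theorem tk_step (S : Finset ℕ) (hS : ∀ p ∈ S, p.Prime) (hq : 1 ≤ qs S) (P1 : ℝ) (hP : 0 < P1)
    (hSP : ∀ p ∈ S, P1 ≤ p) (lam : ℝ) (hl : 1 < lam) (hl2 : lam ≤ 2) : ∃ X0 : ℝ, ∀ X : ℝ,
      X0 ≤ X → ∀ B : ℝ, 0 ≤ B → ∀ φ : ℝ → ℂ, (∀ y, ‖φ y‖ ≤ B) →
        ‖∑ n ∈ win X (lam * X), mu n / (n : ℂ) * φ (Real.log n) +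
          (1 / (qs S : ℂ)) * ∑ p ∈ S, (1 / (p : ℂ)) * ∑ m ∈ win (X / p) (lam * X / p),
            mu m / (m : ℂ) * φ (Real.log p + Real.log m)‖ ≤
          B * (3 / Real.sqrt (qs S) + 2 / P1) := by
  have hlog : Real.log lam < 1 := by
    have h1 : Real.log lam ≤ Real.log 2 := Real.log_le_log (by linarith) hl2
    have h2 := Real.log_two_lt_d9
    linarith
  obtain ⟨X1, hX1⟩ := turan_kubilius S hS lam hl hl2
  have h1 : ∀ᶠ X : ℝ in atTop, ∑ n ∈ (win X (lam * X)).filter (1 ∣ ·), 1 / (n : ℝ) ≤ 1 :=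
    (sum_inv_multiples lam hl 1 one_pos).eventually_le_const (by
      rw [Nat.cast_one, div_one]
      exact hlog)
  have h2 : ∀ᶠ X : ℝ in atTop, ∀ p ∈ S,
      ∑ m ∈ (win (X / p) (lam * X / p)).filter (p ∣ ·), 1 / (m : ℝ) ≤ 1 / p := by
    rw [Filter.eventually_all_finset]
    intro p hp
    have hp0 : (0 : ℝ) < p := by exact_mod_cast (hS p hp).pos
    have h3 := (sum_inv_multiples lam hl p (hS p hp).pos).eventually_le_const
      (div_lt_div_of_pos_right hlog hp0)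
    have h4 := (tendsto_id.atTop_div_const hp0).eventually h3
    filter_upwards [h4] with X hX
    rw [mul_div_assoc]
    exact hX
  obtain ⟨X0, hX0⟩ := Filter.eventually_atTop.1
    (h1.and (h2.and ((eventually_ge_atTop X1).and (eventually_gt_atTop (0 : ℝ)))))
  refine ⟨X0, fun X hX B hB φ hφ => ?_⟩
  obtain ⟨e1, e2, e3, e4⟩ := hX0 X hX
  have e1' : ∑ n ∈ win X (lam * X), 1 / (n : ℝ) ≤ 1 := by
    rwa [Finset.filter_true_of_mem (fun n _ => one_dvd n)] at e1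
  have hWpos : 0 < qs S := by linarith
  have hWC : (qs S : ℂ) ≠ 0 := by exact_mod_cast hWpos.ne'
  have hdec : ∑ n ∈ win X (lam * X), mu n / (n : ℂ) * φ (Real.log n) +
          (1 / (qs S : ℂ)) * ∑ p ∈ S, (1 / (p : ℂ)) * ∑ m ∈ win (X / p) (lam * X / p),
            mu m / (m : ℂ) * φ (Real.log p + Real.log m) =
      ∑ n ∈ win X (lam * X), mu n / (n : ℂ) * φ (Real.log n) *
        (((1 - (om S n : ℝ) / qs S : ℝ)) : ℂ) +
      (1 / (qs S : ℂ)) * ∑ p ∈ S, (∑ n ∈ (win X (lam * X)).filter (p ∣ ·),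
        mu n / (n : ℂ) * φ (Real.log n) + (1 / (p : ℂ)) *
          ∑ m ∈ win (X / p) (lam * X / p), mu m / (m : ℂ) * φ (Real.log p + Real.log m)) := by
    rw [Finset.sum_add_distrib, tks_om, mul_add, ← add_assoc]
    congr 1
    rw [Finset.mul_sum, ← Finset.sum_add_distrib]
    refine Finset.sum_congr rfl fun n _ => ?_
    push_cast
    field_simp
    ring
  rw [hdec]
  have f1 : ‖∑ n ∈ win X (lam * X), mu n / (n : ℂ) * φ (Real.log n) *
        (((1 - (om S n : ℝ) / qs S : ℝ)) : ℂ)‖ ≤ B * (3 / Real.sqrt (qs S)) := by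
    have g1 : ‖∑ n ∈ win X (lam * X), mu n / (n : ℂ) * φ (Real.log n) *
        (((1 - (om S n : ℝ) / qs S : ℝ)) : ℂ)‖ ≤
        ∑ n ∈ win X (lam * X), (B / qs S) * (1 / (n : ℝ) * |(om S n : ℝ) - qs S|) := by
      refine (norm_sum_le _ _).trans (Finset.sum_le_sum fun n hn => ?_)
      rw [mem_win e4.le] at hn
      have hn0 : (0 : ℝ) < n := e4.trans hn.1
      rw [norm_mul, norm_mul, norm_div, Complex.norm_natCast, Complex.norm_real,
        Real.norm_eq_abs]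
      have g2 : ‖mu n‖ / (n : ℝ) ≤ 1 / n := div_le_div_of_nonneg_right (norm_mu_le n) hn0.le
      have g3 : ‖mu n‖ / (n : ℝ) * ‖φ (Real.log n)‖ ≤ 1 / n * B :=
        mul_le_mul g2 (hφ _) (norm_nonneg _) (by positivity)
      have g4 : |1 - (om S n : ℝ) / qs S| = |(om S n : ℝ) - qs S| / qs S := by
        have g5 : 1 - (om S n : ℝ) / qs S = (qs S - om S n) / qs S := by
          field_simp
        rw [g5, abs_div, abs_of_pos hWpos, abs_sub_comm]
      rw [g4]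
      refine (mul_le_mul_of_nonneg_right g3 (by positivity)).trans (le_of_eq ?_)
      ring
    refine g1.trans ?_
    rw [← Finset.mul_sum]
    have g2 := tks_cs (win X (lam * X)) (fun n => 1 / (n : ℝ)) (fun n => (om S n : ℝ) - qs S)
      (fun n _ => by positivity) e1' (qs S + 1) (hX1 X e3)
    have g3 : Real.sqrt (qs S + 1) ≤ 3 * Real.sqrt (qs S) := by
      rw [Real.sqrt_le_left (by positivity), mul_pow, Real.sq_sqrt hWpos.le]
      linarith
    have g4 : B / qs S * ∑ n ∈ win X (lam * X), 1 / (n : ℝ) * |(om S n : ℝ) - qs S| ≤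
        B / qs S * (3 * Real.sqrt (qs S)) :=
      mul_le_mul_of_nonneg_left (g2.trans g3) (by positivity)
    refine g4.trans (le_of_eq ?_)
    have g5 : Real.sqrt (qs S) ≠ 0 := (Real.sqrt_pos.2 hWpos).ne'
    have g6 : qs S = Real.sqrt (qs S) * Real.sqrt (qs S) := (Real.mul_self_sqrt hWpos.le).symm
    have g7 : B / qs S * (3 * Real.sqrt (qs S)) =
        B / (Real.sqrt (qs S) * Real.sqrt (qs S)) * (3 * Real.sqrt (qs S)) := by rw [← g6]
    rw [g7]
    field_simp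
  have f2 : ‖(1 / (qs S : ℂ)) * ∑ p ∈ S, (∑ n ∈ (win X (lam * X)).filter (p ∣ ·),
        mu n / (n : ℂ) * φ (Real.log n) + (1 / (p : ℂ)) *
          ∑ m ∈ win (X / p) (lam * X / p), mu m / (m : ℂ) * φ (Real.log p + Real.log m))‖ ≤
      B * (2 / P1) := by
    rw [norm_mul, norm_div, norm_one, Complex.norm_real, Real.norm_eq_abs, abs_of_pos hWpos]
    have g1 : ‖∑ p ∈ S, (∑ n ∈ (win X (lam * X)).filter (p ∣ ·),
        mu n / (n : ℂ) * φ (Real.log n) + (1 / (p : ℂ)) *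
          ∑ m ∈ win (X / p) (lam * X / p), mu m / (m : ℂ) * φ (Real.log p + Real.log m))‖ ≤
        ∑ p ∈ S, B / P1 * (1 / (p : ℝ)) := by
      refine (norm_sum_le _ _).trans (Finset.sum_le_sum fun p hp => ?_)
      have hp0 : (0 : ℝ) < p := by exact_mod_cast (hS p hp).pos
      refine (tks_piece (hS p hp) e4 φ hφ).trans ?_
      have g2 := e2 p hp
      have g3 : 1 / (p : ℝ) ≤ 1 / P1 := one_div_le_one_div_of_le hP (hSP p hp)
      have g4 : 1 / (p : ℝ) * ∑ m ∈ (win (X / p) (lam * X / p)).filter (p ∣ ·), 1 / (m : ℝ) ≤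
          1 / p * (1 / P1) := mul_le_mul_of_nonneg_left (g2.trans g3) (by positivity)
      refine (mul_le_mul_of_nonneg_left g4 hB).trans (le_of_eq ?_)
      ring
    rw [← Finset.mul_sum] at g1
    have g2 : ∑ p ∈ S, 1 / (p : ℝ) = qs S := rfl
    rw [g2] at g1
    have g3 := mul_le_mul_of_nonneg_left g1 (show (0 : ℝ) ≤ 1 / qs S by positivity)
    refine g3.trans ?_
    have g4 : 1 / qs S * (B / P1 * qs S) = B / P1 := by field_simp
    rw [g4]
    have g5 : B * (2 / P1) = B / P1 + B / P1 := by ring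
    have g6 : 0 ≤ B / P1 := by positivity
    linarith
  calc _ ≤ _ := norm_add_le _ _
    _ ≤ B * (3 / Real.sqrt (qs S)) + B * (2 / P1) := add_le_add f1 f2
    _ = B * (3 / Real.sqrt (qs S) + 2 / P1) := by ring

end Pool.Agent.MOM
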